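import Pool.Agent.Lib.MP_979eef_lc.Q.Defs

/-!
# MP_979eef_lc, protocols, module Agr: the agreement sum of a dense set
`q = |Z|`, `U` = complement of `F`, `u = |U|`, `κ = θ / q`; `n κ ≤ 1`.
`agree_sum`: for `w' ∈ E` the sum over `w ∈ E` of `2 ^ a(w, w') - 1`, `a(w, w') = #{i ∉ F, w i = w' i}`, is the sum over the nonempty `J ⊆ U` of `|cell E J w'|`
(`2 ^ a` = number of subsets of the set of agreement), so at most `|E| ∑_(J ≠ ∅) κ ^ |J| ≤ |E| ((1 + κ) ^ n - 1) ≤ 2 n κ |E|` (`(1 + κ) ^ n ≤ exp (n κ) ≤ 1 + 2 n κ`).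
-/

set_option autoImplicit false

namespace MP979

open Finset

variable {n : ℕ} {Z : Type} [Fintype Z] [DecidableEq Z]

/-- `2 ^ a` counts the subsets `J` of the complement of `F` on which the two elements agree -/
private theorem agr_pow (F : Finset (Fin n)) (w w' : Fin n → Z) :
    (2 : ℝ) ^ (univ.filter (fun i => i ∉ F ∧ w i = w' i)).card =
      ∑ J ∈ (Fᶜ).powerset, if ∀ i ∈ J, w i = w' i then (1 : ℝ) else 0 := by
  rw [← sum_filter, sum_const, nsmul_eq_mul, mul_one]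
  have h : (Fᶜ).powerset.filter (fun J => ∀ i ∈ J, w i = w' i) =
      (univ.filter (fun i => i ∉ F ∧ w i = w' i)).powerset := by
    ext J
    simp only [mem_filter, mem_powerset]
    constructor
    · rintro ⟨h1, h2⟩ i hi
      exact mem_filter.2 ⟨mem_univ _, mem_compl.1 (h1 hi), h2 i hi⟩
    · intro h1
      exact ⟨fun i hi => mem_compl.2 (mem_filter.1 (h1 hi)).2.1, fun i hi => (mem_filter.1 (h1 hi)).2.2⟩
  rw [h, card_powerset]
  push_cast
  rfl

private theorem agr_cell (θ : ℕ) (E : Finset (Fin n → Z)) (F : Finset (Fin n)) (hd : Dense θ E F)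
    (hZ : 0 < Fintype.card Z) (w' : Fin n → Z) {J : Finset (Fin n)} (hJ : J ⊆ Fᶜ) :
    ((cell E J w').card : ℝ) ≤ E.card * (θ / Fintype.card Z) ^ J.card := by
  have hdis : Disjoint J F := by
    rw [disjoint_left]
    intro i hi hF
    exact mem_compl.1 (hJ hi) hF
  have h1 := hd J hdis w'
  have h2 : ((cell E J w').card : ℝ) * (Fintype.card Z : ℝ) ^ J.card ≤ E.card * (θ : ℝ) ^ J.card := by
    exact_mod_cast h1
  have hq : (0 : ℝ) < (Fintype.card Z : ℝ) ^ J.card := by positivity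
  rw [div_pow, ← mul_div_assoc, le_div_iff₀ hq]
  exact h2

theorem agree_sum (θ : ℕ) (E : Finset (Fin n → Z)) (F : Finset (Fin n)) (hd : Dense θ E F)
    (hn : 0 < n) (hq : n * θ ≤ Fintype.card Z) (w' : Fin n → Z) :
    (∑ w ∈ E, ((2 : ℝ) ^ (univ.filter (fun i => i ∉ F ∧ w i = w' i)).card - 1)) ≤
      2 * n * (θ / Fintype.card Z) * E.card := by
  have hZ : 0 < Fintype.card Z := Fintype.card_pos_iff.2 ⟨w' ⟨0, hn⟩⟩
  have hZr : (0 : ℝ) < Fintype.card Z := by exact_mod_cast hZ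
  set κ : ℝ := θ / Fintype.card Z with hκ
  have hκ0 : 0 ≤ κ := by positivity
  have hnκ : n * κ ≤ 1 := by
    rw [hκ, ← mul_div_assoc, div_le_one hZr]
    exact_mod_cast hq
  -- exchange the sums
  have h1 : ∑ w ∈ E, (2 : ℝ) ^ (univ.filter (fun i => i ∉ F ∧ w i = w' i)).card =
      ∑ J ∈ (Fᶜ).powerset, ((cell E J w').card : ℝ) := by
    simp only [agr_pow]
    rw [sum_comm]
    refine sum_congr rfl fun J _ => ?_
    rw [← sum_filter, sum_const, nsmul_eq_mul, mul_one]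
    rfl
  have h2 : ∑ J ∈ (Fᶜ).powerset, ((cell E J w').card : ℝ) =
      E.card + ∑ J ∈ (Fᶜ).powerset.erase ∅, ((cell E J w').card : ℝ) := by
    rw [← add_sum_erase _ _ (empty_mem_powerset (Fᶜ))]
    congr 2
    rw [cell]
    congr 1
    exact filter_true_of_mem fun w _ i hi => absurd hi (notMem_empty i)
  have h3 : ∑ J ∈ (Fᶜ).powerset.erase ∅, ((cell E J w').card : ℝ) ≤
      ∑ J ∈ (Fᶜ).powerset.erase ∅, E.card * κ ^ J.card := by
    refine sum_le_sum fun J hJ => ?_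
    exact agr_cell θ E F hd hZ w' (mem_powerset.1 (mem_of_mem_erase hJ))
  have h4 : ∑ J ∈ (Fᶜ).powerset, κ ^ J.card = (κ + 1) ^ (Fᶜ).card := by
    have := Finset.sum_pow_mul_eq_add_pow κ 1 (Fᶜ)
    simpa using this
  have h5 : ∑ J ∈ (Fᶜ).powerset.erase ∅, (E.card : ℝ) * κ ^ J.card = E.card * ((κ + 1) ^ (Fᶜ).card - 1) := by
    rw [← mul_sum]
    congr 1
    rw [← add_sum_erase _ _ (empty_mem_powerset (Fᶜ))] at h4
    rw [card_empty, pow_zero] at h4
    linarith
  have h6 : (κ + 1) ^ (Fᶜ).card ≤ 1 + 2 * (n * κ) := by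
    have h7 : (κ + 1) ^ (Fᶜ).card ≤ (κ + 1) ^ n := by
      refine pow_le_pow_right₀ (by linarith) ?_
      exact (card_le_univ _).trans (by rw [Fintype.card_fin])
    have h8 : (κ + 1) ^ n ≤ Real.exp (n * κ) := by
      rw [Real.exp_nat_mul]
      exact pow_le_pow_left₀ (by linarith) (Real.add_one_le_exp κ) n
    have h9 : |Real.exp (n * κ) - 1| ≤ 2 * |n * κ| := by
      refine Real.abs_exp_sub_one_le ?_
      rw [abs_of_nonneg (by positivity)]
      exact hnκ
    rw [abs_of_nonneg (by positivity : (0 : ℝ) ≤ n * κ)] at h9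
    have h10 := (abs_le.1 h9).2
    linarith
  have h11 : ∑ w ∈ E, ((2 : ℝ) ^ (univ.filter (fun i => i ∉ F ∧ w i = w' i)).card - 1) =
      ∑ J ∈ (Fᶜ).powerset.erase ∅, ((cell E J w').card : ℝ) := by
    rw [sum_sub_distrib, h1, h2, sum_const, nsmul_eq_mul, mul_one]
    ring
  rw [h11]
  calc ∑ J ∈ (Fᶜ).powerset.erase ∅, ((cell E J w').card : ℝ) ≤ E.card * ((κ + 1) ^ (Fᶜ).card - 1) := by
        rw [← h5]; exact h3
    _ ≤ E.card * (2 * (n * κ)) := by
        refine mul_le_mul_of_nonneg_left ?_ (by positivity)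
        linarith
    _ = 2 * n * κ * E.card := by ring

end MP979
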