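import Pool.Agent.Lib.MP_979eef_lc.Q.Defs

/-!
# MP_979eef_lc, protocols, module Cel: cells and blockwise density
`dense_univ`: a cell of `J` in `univ` has `q ^ (n - |J|)` elements (`q = |Z|`): e.g. `card (cell univ J ζ) * q ^ |J| = q ^ n` (or `≤`, by an injection of
`cell univ J ζ × (J → Z)` into the functions).
`dense_sub`: `cell W' J ζ ⊆ cell W J ζ`; for `J = ∅` trivial, otherwise `c ≤ c ^ |J|`.
`dense_open`: for `J` disjoint from `insert i F`, `cell (cell W {i} ζ) J ζ'` is the cell `insert i J` of the function which is `ζ i` at `i` and `ζ'` elsewhere: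
`|cell| * q ^ (|J| + 1) ≤ |W| θ ^ (|J| + 1) ≤ 2 q |cell W {i} ζ| θ ^ (|J| + 1)`, cancel `q` (`q > 0` since `W` is not empty or both sides are `0`), and
`2 θ ^ (|J| + 1) ≤ (2 θ ^ 2) ^ |J|` for `|J| ≥ 1` (`J = ∅` is trivial).
`openE_card`: the elements `w` outside `openE` lie in the cells `cell W {i} w` with `2 q |cell| < |W|`; there are at most `q` such cells (one for each value `w i`).
-/

set_option autoImplicit false

namespace MP979

open Finset

variable {n : ℕ} {Z : Type} [Fintype Z] [DecidableEq Z]

private theorem Cel_mem {W : Finset (Fin n → Z)} {J : Finset (Fin n)} {ζ w : Fin n → Z} :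
    w ∈ cell W J ζ ↔ w ∈ W ∧ ∀ i ∈ J, w i = ζ i := by
  unfold cell
  exact mem_filter

private theorem Cel_card_le (W : Finset (Fin n → Z)) (J : Finset (Fin n)) (ζ : Fin n → Z) :
    (cell W J ζ).card ≤ W.card := by
  unfold cell
  exact card_filter_le _ _

theorem dense_univ (θ : ℕ) (hθ : 1 ≤ θ) : Dense θ (univ : Finset (Fin n → Z)) ∅ := by
  intro J _ ζ
  have h1 : (cell (univ : Finset (Fin n → Z)) J ζ).card * Fintype.card Z ^ J.card ≤
      (univ : Finset (Fin n → Z)).card := by
    have h2 : Fintype.card Z ^ J.card = (univ : Finset (J → Z)).card := by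
      rw [card_univ, Fintype.card_fun, Fintype.card_coe]
    rw [h2, ← card_product]
    refine card_le_card_of_injOn (fun wf => fun i => if h : i ∈ J then wf.2 ⟨i, h⟩ else wf.1 i)
      (fun _ _ => mem_coe.2 (mem_univ _)) ?_
    rintro ⟨w, f⟩ hw ⟨w', f'⟩ hw' he
    simp only [coe_product, Set.mem_prod, mem_coe, Cel_mem] at hw hw'
    simp only at he
    have hf : f = f' := by
      funext x
      have h3 := congrFun he x.1
      simp only [x.2, dif_pos] at h3
      exact h3
    have hw1 : w = w' := by
      funext i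
      by_cases hi : i ∈ J
      · rw [hw.1.2 i hi, hw'.1.2 i hi]
      · have h3 := congrFun he i
        simp only [hi, dif_neg, not_false_eq_true] at h3
        exact h3
    rw [hf, hw1]
  calc (cell (univ : Finset (Fin n → Z)) J ζ).card * Fintype.card Z ^ J.card ≤
        (univ : Finset (Fin n → Z)).card := h1
    _ = (univ : Finset (Fin n → Z)).card * 1 := (mul_one _).symm
    _ ≤ (univ : Finset (Fin n → Z)).card * θ ^ J.card :=
        Nat.mul_le_mul_left _ (Nat.one_le_pow _ _ hθ)

theorem dense_mono {θ θ' : ℕ} {W : Finset (Fin n → Z)} {F : Finset (Fin n)} (h : Dense θ W F)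
    (hθ : θ ≤ θ') : Dense θ' W F := by
  intro J hJ ζ
  exact (h J hJ ζ).trans (Nat.mul_le_mul_left _ (Nat.pow_le_pow_left hθ _))

private theorem Cel_empty (q θ : ℕ) (W : Finset (Fin n → Z)) (ζ : Fin n → Z) :
    (cell W ∅ ζ).card * q ^ (∅ : Finset (Fin n)).card ≤ W.card * θ ^ (∅ : Finset (Fin n)).card := by
  rw [card_empty, pow_zero, pow_zero, mul_one, mul_one]
  exact Cel_card_le _ _ _

theorem dense_sub {θ c : ℕ} {W W' : Finset (Fin n → Z)} {F : Finset (Fin n)} (h : Dense θ W F)
    (hW : W' ⊆ W) (hc : W.card ≤ c * W'.card) (hc1 : 1 ≤ c) : Dense (c * θ) W' F := by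
  intro J hJ ζ
  rcases J.eq_empty_or_nonempty with h0 | h0
  · rw [h0]
    exact Cel_empty _ _ _ _
  · have h1 : (cell W' J ζ).card ≤ (cell W J ζ).card := by
      refine card_le_card fun w hw => ?_
      rw [Cel_mem] at hw ⊢
      exact ⟨hW hw.1, hw.2⟩
    have h2 : c ≤ c ^ J.card := Nat.le_self_pow h0.card_pos.ne' c
    calc (cell W' J ζ).card * Fintype.card Z ^ J.card ≤ (cell W J ζ).card * Fintype.card Z ^ J.card :=
          Nat.mul_le_mul_right _ h1
      _ ≤ W.card * θ ^ J.card := h J hJ ζ
      _ ≤ (c * W'.card) * θ ^ J.card := Nat.mul_le_mul_right _ hc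
      _ = W'.card * (c * θ ^ J.card) := by ring
      _ ≤ W'.card * (c ^ J.card * θ ^ J.card) :=
          Nat.mul_le_mul_left _ (Nat.mul_le_mul_right _ h2)
      _ = W'.card * (c * θ) ^ J.card := by rw [mul_pow]

theorem dense_open {θ : ℕ} (hθ : 1 ≤ θ) {W : Finset (Fin n → Z)} {F : Finset (Fin n)}
    (h : Dense θ W F) {i : Fin n} (hi : i ∉ F) (ζ : Fin n → Z)
    (hc : W.card ≤ 2 * Fintype.card Z * (cell W {i} ζ).card) :
    Dense (2 * θ ^ 2) (cell W {i} ζ) (insert i F) := by
  intro J hJ ζ'
  rcases J.eq_empty_or_nonempty with h0 | h0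
  · rw [h0]
    exact Cel_empty _ _ _ _
  · rw [disjoint_insert_right] at hJ
    have h1 : (cell (cell W {i} ζ) J ζ').card ≤ (cell W (insert i J) (Function.update ζ' i (ζ i))).card := by
      refine card_le_card fun w hw => ?_
      rw [Cel_mem, Cel_mem] at hw
      rw [Cel_mem]
      refine ⟨hw.1.1, fun j hj => ?_⟩
      rcases mem_insert.1 hj with rfl | hj
      · rw [Function.update_self]
        exact hw.1.2 _ (mem_singleton_self _)
      · have hji : j ≠ i := fun e => hJ.1 (e ▸ hj)
        rw [Function.update_of_ne hji]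
        exact hw.2 j hj
    have hd : Disjoint (insert i J) F := by
      rw [disjoint_insert_left]
      exact ⟨hi, hJ.2⟩
    have h2 := h (insert i J) hd (Function.update ζ' i (ζ i))
    rw [card_insert_of_notMem hJ.1] at h2
    set q := Fintype.card Z with hq
    rcases Nat.eq_zero_or_pos q with hq0 | hq0
    · rw [hq0, zero_pow h0.card_pos.ne', mul_zero]
      exact Nat.zero_le _
    · set c1 := (cell (cell W {i} ζ) J ζ').card with hc1
      set c2 := (cell W (insert i J) (Function.update ζ' i (ζ i))).card with hc2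
      set c0 := (cell W {i} ζ).card with hc0
      have h3 : q * (c1 * q ^ J.card) ≤ q * (c0 * (2 * θ ^ (J.card + 1))) := by
        calc q * (c1 * q ^ J.card) = c1 * q ^ (J.card + 1) := by ring
          _ ≤ c2 * q ^ (J.card + 1) := Nat.mul_le_mul_right _ h1
          _ ≤ W.card * θ ^ (J.card + 1) := h2
          _ ≤ (2 * q * c0) * θ ^ (J.card + 1) := Nat.mul_le_mul_right _ hc
          _ = q * (c0 * (2 * θ ^ (J.card + 1))) := by ring
      have h4 : c1 * q ^ J.card ≤ c0 * (2 * θ ^ (J.card + 1)) := Nat.le_of_mul_le_mul_left h3 hq0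
      refine h4.trans (Nat.mul_le_mul_left _ ?_)
      have h5 : 1 ≤ J.card := h0.card_pos
      rw [mul_pow, ← pow_mul]
      refine Nat.mul_le_mul (Nat.le_self_pow h0.card_pos.ne' 2) ?_
      exact Nat.pow_le_pow_right hθ (by omega)

theorem openE_card (i : Fin n) (W : Finset (Fin n → Z)) : W.card ≤ 2 * (openE i W).card := by
  set q := Fintype.card Z with hq
  set B := W.filter (fun w => ¬ (W.card ≤ 2 * q * (cell W {i} w).card)) with hB
  have h1 : (openE i W).card + B.card = W.card := by
    unfold openE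
    rw [← hq, hB]
    exact card_filter_add_card_filter_not _
  have h2 : B.card = ∑ z : Z, (B.filter (fun w => w i = z)).card :=
    card_eq_sum_card_fiberwise (fun _ _ => mem_coe.2 (mem_univ _))
  have h3 : ∀ z : Z, 2 * q * (B.filter (fun w => w i = z)).card ≤ W.card := by
    intro z
    rcases (B.filter (fun w => w i = z)).eq_empty_or_nonempty with h | ⟨w, hw⟩
    · rw [h, card_empty, mul_zero]
      exact Nat.zero_le _
    · have h4 : (B.filter (fun w => w i = z)).card ≤ (cell W {i} w).card := by
        refine card_le_card fun v hv => ?_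
        rw [mem_filter] at hv hw
        rw [Cel_mem]
        refine ⟨(mem_filter.1 hv.1).1, fun j hj => ?_⟩
        rw [mem_singleton.1 hj, hv.2, hw.2]
      have h5 := (mem_filter.1 (mem_filter.1 hw).1).2
      calc 2 * q * (B.filter (fun w => w i = z)).card ≤ 2 * q * (cell W {i} w).card :=
            Nat.mul_le_mul_left _ h4
        _ ≤ W.card := by omega
  have h4 : q * (2 * B.card) ≤ q * W.card := by
    calc q * (2 * B.card) = ∑ z : Z, 2 * q * (B.filter (fun w => w i = z)).card := by
          rw [h2, ← mul_sum]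
          ring
      _ ≤ ∑ _z : Z, W.card := sum_le_sum fun z _ => h3 z
      _ = q * W.card := by rw [sum_const, card_univ, smul_eq_mul]
  rcases Nat.eq_zero_or_pos q with hq0 | hq0
  · have hZ : IsEmpty Z := Fintype.card_eq_zero_iff.1 hq0
    have hW : W = ∅ := by
      rw [eq_empty_iff_forall_notMem]
      intro w _
      exact hZ.false (w i)
    rw [hW, card_empty]
    exact Nat.zero_le _
  · have h5 : 2 * B.card ≤ W.card := Nat.le_of_mul_le_mul_left h4 hq0
    omega

end MP979
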