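import Pool.Agent.Lib.MP_979eef_lc.Fml

/-!
# MP_979eef_lc, protocols: definitions (helper4)

Karchmer-Wigderson protocols, and protocols whose first messages look at the input only through the
values `g (x_i)`, through few opened blocks and through functions of small formula size.
-/

set_option autoImplicit false

namespace MP979

open Finset

/-- Protocols of Karchmer and Wigderson for functions of the variables `ι`: Alice has `x`, Bob has
`y`; a leaf names a variable; at `alice m P Q` Alice sends `m x` (and they continue with `P` if it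
is `true`, and with `Q` otherwise), at `bob m P Q` Bob sends `m y`. -/
inductive Prot (ι : Type) : Type
  | leaf (i : ι) : Prot ι
  | alice (m : (ι → Bool) → Bool) (P Q : Prot ι) : Prot ι
  | bob (m : (ι → Bool) → Bool) (P Q : Prot ι) : Prot ι

namespace Prot

variable {ι : Type}

/-- The depth: the largest number of bits sent. -/
def depth : Prot ι → ℕ
  | leaf _ => 0
  | alice _ P Q => max (depth P) (depth Q) + 1
  | bob _ P Q => max (depth P) (depth Q) + 1

/-- The variable named when Alice has `x` and Bob has `y`. -/
def run (x y : ι → Bool) : Prot ι → ι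
  | leaf i => i
  | alice m P Q => if m x then run x y P else run x y Q
  | bob m P Q => if m y then run x y P else run x y Q

/-- The protocol is correct on `X × Y`: it names a variable in which the two inputs differ. -/
def Correct (P : Prot ι) (X Y : Set (ι → Bool)) : Prop :=
  ∀ x ∈ X, ∀ y ∈ Y, x (P.run x y) ≠ y (P.run x y)

/-- The protocol solves the Karchmer-Wigderson game of `h`. -/
def Solves (P : Prot ι) (h : (ι → Bool) → Bool) : Prop :=
  P.Correct {x | h x = true} {y | h y = false}

end Prot

/-- The block `i` of an input of `f ◇ g`. -/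
def blk {n : ℕ} (x : Fin n × Fin n → Bool) (i : Fin n) : Fin n → Bool := fun j => x (i, j)

/-- The message `m x` is determined by all the values `g (x_i)`, by the blocks `x_i`, `i ∈ O`, and by
`r` functions `h_1 x, …, h_r x` of formula size at most `s`. -/
def Msg {n : ℕ} (g : (Fin n → Bool) → Bool) (O : Finset (Fin n)) (r s : ℕ)
    (m : (Fin n × Fin n → Bool) → Bool) : Prop :=
  ∃ h : Fin r → Fml (Fin n × Fin n), (∀ j, (h j).size ≤ s) ∧
    ∀ x y : Fin n × Fin n → Bool, (∀ i, g (blk x i) = g (blk y i)) →
      (∀ i ∈ O, blk x i = blk y i) → (∀ j, (h j).eval x = (h j).eval y) → m x = m y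

/-- The first `k` messages on every path are of the form `Msg`, where the blocks in `O` are opened
already and at most `T` blocks (with those in `O`) are opened on a path. -/
def Mild {n : ℕ} (g : (Fin n → Bool) → Bool) (T r s : ℕ) :
    ℕ → Finset (Fin n) → Prot (Fin n × Fin n) → Prop
  | 0, _, _ => True
  | _ + 1, _, .leaf _ => True
  | k + 1, O, .alice m P Q => ∃ I : Finset (Fin n), O ⊆ I ∧ I.card ≤ T ∧ Msg g I r s m ∧
      Mild g T r s k I P ∧ Mild g T r s k I Q
  | k + 1, O, .bob m P Q => ∃ I : Finset (Fin n), O ⊆ I ∧ I.card ≤ T ∧ Msg g I r s m ∧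
      Mild g T r s k I P ∧ Mild g T r s k I Q

/-! ### Tools -/

/-- `A` and `B` are not separated by a formula of size less than `c`. -/
def HardQ {n : ℕ} (A B : Set (Fin n → Bool)) (c : ℝ) : Prop :=
  ∀ φ : Fml (Fin n), (∀ a ∈ A, φ.eval a = true) → (∀ b ∈ B, φ.eval b = false) → c ≤ φ.size

/-- the elements of `A` with the values of `p` on `J` -/
def onJ {n : ℕ} (A : Set (Fin n → Bool)) (J : Finset (Fin n)) (p : Fin n → Bool) :
    Set (Fin n → Bool) := {a | a ∈ A ∧ ∀ i ∈ J, a i = p i}

section cells

variable {n : ℕ} {Z : Type} [Fintype Z] [DecidableEq Z]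

/-- the cell of `ζ` in `W`: the elements which agree with `ζ` on `J` -/
def cell (W : Finset (Fin n → Z)) (J : Finset (Fin n)) (ζ : Fin n → Z) : Finset (Fin n → Z) :=
  W.filter (fun w => ∀ i ∈ J, w i = ζ i)

/-- blockwise density outside `F`: a cell of `J` has at most `(θ / |Z|) ^ |J|` of the elements -/
def Dense (θ : ℕ) (W : Finset (Fin n → Z)) (F : Finset (Fin n)) : Prop :=
  ∀ J : Finset (Fin n), Disjoint J F → ∀ ζ : Fin n → Z,
    (cell W J ζ).card * Fintype.card Z ^ J.card ≤ W.card * θ ^ J.card

/-- the elements of `W` which agree with their popular cell of the block `i` -/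
def openE (i : Fin n) (W : Finset (Fin n → Z)) : Finset (Fin n → Z) :=
  W.filter (fun w => W.card ≤ 2 * Fintype.card Z * (cell W {i} w).card)

/-- some popular cell of `R` with a dense remainder -/
def GoodCell (θ : ℕ) (F : Finset (Fin n)) (R : Finset (Fin n → Z))
    (c : Finset (Fin n) × (Fin n → Z)) : Prop :=
  Disjoint c.1 F ∧ R.card * θ ^ c.1.card ≤ (cell R c.1 c.2).card * Fintype.card Z ^ c.1.card ∧
    Dense θ (cell R c.1 c.2) (F ∪ c.1)

open Classical in
/-- the chosen popular cell (all of `R`, if there is none) -/
noncomputable def part (θ : ℕ) (F : Finset (Fin n)) (R : Finset (Fin n → Z)) :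
    Finset (Fin n → Z) :=
  if h : ∃ c, GoodCell θ F R c then cell R (Classical.choose h).1 (Classical.choose h).2 else R

/-- what is left after `k` popular cells are removed -/
noncomputable def rem (θ : ℕ) (F : Finset (Fin n)) (W : Finset (Fin n → Z)) :
    ℕ → Finset (Fin n → Z)
  | 0 => W
  | k + 1 => rem θ F W k \ part θ F (rem θ F W k)

open Classical in
/-- the union of the first popular cells: at least half of `W` -/
noncomputable def restE (θ : ℕ) (F : Finset (Fin n)) (W : Finset (Fin n → Z)) :
    Finset (Fin n → Z) :=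
  W.filter (fun w => ∃ k, w ∈ part θ F (rem θ F W k) ∧ W.card ≤ 2 * (rem θ F W k).card)

/-- the `k`-th popular cell of `W` -/
noncomputable def cut (θ : ℕ) (F : Finset (Fin n)) (k : ℕ) (W : Finset (Fin n → Z)) :
    Finset (Fin n → Z) := part θ F (rem θ F W k)

end cells

end MP979
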