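import Pool.Agent.Lib.MP_979eef_lc.Q.Defs

/-!
# MP_979eef_lc, protocols: the class of protocols (helper4)
-/

set_option autoImplicit false

namespace MP979

open Finset

/-- The number of leaves of a protocol. -/
def Prot.leaves {ι : Type} : Prot ι → ℕ
  | .leaf _ => 1
  | .alice _ P Q => leaves P + leaves Q
  | .bob _ P Q => leaves P + leaves Q

/-- All leaves of the protocol name variables of the blocks in `J`. -/
def InBlocks {n : ℕ} (J : Finset (Fin n)) : Prot (Fin n × Fin n) → Prop
  | .leaf i => i.1 ∈ J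
  | .alice _ P Q => InBlocks J P ∧ InBlocks J Q
  | .bob _ P Q => InBlocks J P ∧ InBlocks J Q

/-- The message `m x` is determined by all the values `g (x_i)`, by the blocks `x_i`, `i ∈ O`, and by
the values at `x` of the functions in the list `H`. -/
def MsgH {n : ℕ} (g : (Fin n → Bool) → Bool) (O : Finset (Fin n))
    (H : List ((Fin n × Fin n → Bool) → Bool)) (m : (Fin n × Fin n → Bool) → Bool) : Prop :=
  ∀ x y : Fin n × Fin n → Bool, (∀ i, g (blk x i) = g (blk y i)) →
    (∀ i ∈ O, blk x i = blk y i) → (∀ h ∈ H, h x = h y) → m x = m y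

/-- Simple protocols. At each of the first `k` messages on every path: either all leaves below lie in
a set of blocks with at most `v` unopened ones, or the message is of the form `MsgH`, for the opened
blocks and the opened functions. The blocks in `O` and the functions in `H` are opened already; on
every path at most `T` blocks and at most `Q` functions, all in `𝓗`, are opened (with those in `O`
and `H`). -/
def Simple {n : ℕ} (g : (Fin n → Bool) → Bool) (𝓗 : Finset ((Fin n × Fin n → Bool) → Bool))
    (T Q v : ℕ) : ℕ → Finset (Fin n) → List ((Fin n × Fin n → Bool) → Bool) →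
      Prot (Fin n × Fin n) → Prop
  | 0, _, _, _ => True
  | _ + 1, _, _, .leaf _ => True
  | k + 1, O, H, .alice m P P' => (∃ J, (J \ O).card ≤ v ∧ InBlocks J (.alice m P P')) ∨
      ∃ (I : Finset (Fin n)) (L : List ((Fin n × Fin n → Bool) → Bool)), O ⊆ I ∧ I.card ≤ T ∧
        (H ++ L).length ≤ Q ∧ (∀ h ∈ L, h ∈ 𝓗) ∧ MsgH g I (H ++ L) m ∧
        Simple g 𝓗 T Q v k I (H ++ L) P ∧ Simple g 𝓗 T Q v k I (H ++ L) P'
  | k + 1, O, H, .bob m P P' => (∃ J, (J \ O).card ≤ v ∧ InBlocks J (.bob m P P')) ∨
      ∃ (I : Finset (Fin n)) (L : List ((Fin n × Fin n → Bool) → Bool)), O ⊆ I ∧ I.card ≤ T ∧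
        (H ++ L).length ≤ Q ∧ (∀ h ∈ L, h ∈ 𝓗) ∧ MsgH g I (H ++ L) m ∧
        Simple g 𝓗 T Q v k I (H ++ L) P ∧ Simple g 𝓗 T Q v k I (H ++ L) P'

end MP979
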