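import Pool.Agent.Lib.MP_979eef_lc.Q.Jan
import Pool.Agent.Lib.MP_979eef_lc.Q.Agr

/-!
# MP_979eef_lc, protocols, module Hit: a blockwise dense set is hit in every pattern
`q = |Z|`, `U` = complement of `F`, `u = |U|`, `κ = θ / q`; `n κ ≤ 1`.
`miss_card`: by the bijection `G ↦ S = {(i, z) : G i z = c i}` count the `S : Finset (Fin n × Z)` which contain no `Q_w = {(i, w i) : i ∉ F}`, `w ∈ E`. By induction on `k` there is
a `𝓕_k ⊆ {Q_w : w ∈ E}` with at most `k` members and `#(avoid 𝓕_k) ≤ 2 ^ (n q) (1 - 2 ^ (-u-1)) ^ k` as long as `8 k n κ ≤ 2 ^ u`: choose `w ∈ E` with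
`∑_(l) 2 (2 ^ a(w, w_l) - 1) ≤ 4 k n κ` (average over `w ∈ E`, `agree_sum`), and use `avoid_insert`: `|Q_w ∪ Q_w'| = 2 u - a(w, w')`, and `2 ^ a ≤ 2 (2 ^ a - 1)` if `a ≥ 1`
(`Q_w`, `Q_w'` are disjoint iff `a = 0`); the factor is `≤ 1 - 2 ^ (-u) + 2 ^ (-2u) * 4 k n κ ≤ 1 - 2 ^ (-u-1)`. Take `k = ⌊2 ^ u / (8 n κ)⌋` (`1 - x ≤ exp (-x)`):
`exp (- k 2 ^ (-u-1)) ≤ exp (1/2) exp (- 1 / (16 n κ))`.
-/

set_option autoImplicit false

namespace MP979

open Finset

variable {n : ℕ} {Z : Type} [Fintype Z] [DecidableEq Z]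

/-- the pairs `(i, w i)`, `i ∉ F` -/
private def hit_Q (F : Finset (Fin n)) (w : Fin n → Z) : Finset (Fin n × Z) :=
  (univ.filter (fun i => i ∉ F)).image (fun i => (i, w i))

omit [Fintype Z] in
private theorem hit_mem (F : Finset (Fin n)) (w : Fin n → Z) (p : Fin n × Z) :
    p ∈ hit_Q F w ↔ p.1 ∉ F ∧ w p.1 = p.2 := by
  obtain ⟨i, z⟩ := p
  simp only [hit_Q, mem_image, mem_filter, mem_univ, true_and, Prod.mk.injEq]
  constructor
  · rintro ⟨j, hj, rfl, rfl⟩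
    exact ⟨hj, rfl⟩
  · rintro ⟨h1, h2⟩
    exact ⟨i, h1, rfl, h2⟩

omit [Fintype Z] [DecidableEq Z] in
private theorem hit_inj (w : Fin n → Z) : Function.Injective (fun i => (i, w i)) := by
  intro i j h
  exact (Prod.mk.inj h).1

omit [Fintype Z] in
private theorem hit_card (F : Finset (Fin n)) (w : Fin n → Z) :
    (hit_Q F w).card = (univ.filter (fun i => i ∉ F)).card :=
  card_image_of_injective _ (hit_inj w)

omit [Fintype Z] in
private theorem hit_inter (F : Finset (Fin n)) (w w' : Fin n → Z) :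
    (hit_Q F w ∩ hit_Q F w').card = (univ.filter (fun i => i ∉ F ∧ w i = w' i)).card := by
  have h : hit_Q F w ∩ hit_Q F w' = (univ.filter (fun i => i ∉ F ∧ w i = w' i)).image (fun i => (i, w i)) := by
    ext ⟨i, z⟩
    rw [mem_inter, hit_mem, hit_mem]
    simp only [mem_image, mem_filter, mem_univ, true_and, Prod.mk.injEq]
    constructor
    · rintro ⟨⟨h1, h2⟩, -, h3⟩
      exact ⟨i, ⟨h1, by rw [h2, h3]⟩, rfl, h2⟩
    · rintro ⟨j, ⟨hj, hj2⟩, rfl, rfl⟩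
      exact ⟨⟨hj, rfl⟩, hj, hj2.symm⟩
  rw [h, card_image_of_injective _ (hit_inj w)]

omit [Fintype Z] in
private theorem hit_pow (F : Finset (Fin n)) (w w' : Fin n → Z) :
    (1 / 2 : ℝ) ^ (hit_Q F w ∪ hit_Q F w').card =
      (1 / 2 : ℝ) ^ (2 * (univ.filter (fun i => i ∉ F)).card) *
        2 ^ (univ.filter (fun i => i ∉ F ∧ w i = w' i)).card := by
  have h := card_union_add_card_inter (hit_Q F w) (hit_Q F w')
  rw [hit_inter, hit_card, hit_card] at h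
  rw [two_mul, ← h, pow_add, mul_assoc, ← mul_pow]
  norm_num

omit [Fintype Z] in
private theorem hit_term (F : Finset (Fin n)) (w w' : Fin n → Z) :
    (if ¬ Disjoint (hit_Q F w) (hit_Q F w') then (1 / 2 : ℝ) ^ (hit_Q F w ∪ hit_Q F w').card else 0) ≤
      (1 / 2 : ℝ) ^ (2 * (univ.filter (fun i => i ∉ F)).card) *
        (2 * ((2 : ℝ) ^ (univ.filter (fun i => i ∉ F ∧ w i = w' i)).card - 1)) := by
  have h1 : (1 : ℝ) ≤ (2 : ℝ) ^ (univ.filter (fun i => i ∉ F ∧ w i = w' i)).card :=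
    one_le_pow₀ (by norm_num)
  have h0 : (0 : ℝ) ≤ (1 / 2 : ℝ) ^ (2 * (univ.filter (fun i => i ∉ F)).card) := by positivity
  split_ifs with h
  · exact mul_nonneg h0 (by linarith)
  · rw [hit_pow]
    apply mul_le_mul_of_nonneg_left _ h0
    have h2 : 1 ≤ (univ.filter (fun i => i ∉ F ∧ w i = w' i)).card := by
      rw [← hit_inter, Nat.one_le_iff_ne_zero]
      intro h3
      rw [card_eq_zero] at h3
      exact h (disjoint_iff_inter_eq_empty.2 h3)
    have h3 : (2 : ℝ) ^ 1 ≤ (2 : ℝ) ^ (univ.filter (fun i => i ∉ F ∧ w i = w' i)).card :=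
      pow_le_pow_right₀ (by norm_num) h2
    linarith

private theorem hit_step (θ : ℕ) (E : Finset (Fin n → Z)) (hE : E.Nonempty)
    (F : Finset (Fin n)) (hd : Dense θ E F) (hn : 0 < n) (hq : n * θ ≤ Fintype.card Z)
    (𝓕 : Finset (Finset (Fin n × Z))) (h𝓕 : 𝓕 ⊆ E.image (hit_Q F)) :
    ∃ w ∈ E, ∑ Q' ∈ 𝓕.filter (fun Q' => ¬ Disjoint (hit_Q F w) Q'), (1 / 2 : ℝ) ^ (hit_Q F w ∪ Q').card ≤
      (1 / 2 : ℝ) ^ (2 * (univ.filter (fun i => i ∉ F)).card) * (4 * 𝓕.card * n * (θ / Fintype.card Z)) := by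
  apply Finset.exists_le_of_sum_le hE
  simp only [sum_filter]
  rw [sum_comm, sum_const, nsmul_eq_mul]
  have h1 : ∀ Q' ∈ 𝓕, ∑ w ∈ E, (if ¬ Disjoint (hit_Q F w) Q' then (1 / 2 : ℝ) ^ (hit_Q F w ∪ Q').card else 0) ≤
      (1 / 2 : ℝ) ^ (2 * (univ.filter (fun i => i ∉ F)).card) * (4 * n * (θ / Fintype.card Z) * E.card) := by
    intro Q' hQ'
    obtain ⟨w', hw', rfl⟩ := mem_image.1 (h𝓕 hQ')
    refine (sum_le_sum (fun w _ => hit_term F w w')).trans ?_
    rw [← mul_sum, ← mul_sum]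
    apply mul_le_mul_of_nonneg_left _ (by positivity)
    have := agree_sum θ E F hd hn hq w'
    linarith
  refine (sum_le_sum h1).trans ?_
  rw [sum_const, nsmul_eq_mul]
  apply le_of_eq
  ring

private theorem hit_chain (θ : ℕ) (E : Finset (Fin n → Z)) (hE : E.Nonempty)
    (F : Finset (Fin n)) (hd : Dense θ E F) (hn : 0 < n) (hq : n * θ ≤ Fintype.card Z)
    (k : ℕ) (hk : 8 * k * n * (θ / Fintype.card Z : ℝ) ≤ 2 ^ (univ.filter (fun i => i ∉ F)).card) :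
    ∃ 𝓕 ⊆ E.image (hit_Q F), 𝓕.card ≤ k ∧ ((avoid 𝓕).card : ℝ) ≤ 2 ^ (n * Fintype.card Z) *
      (1 - (1 / 2 : ℝ) ^ ((univ.filter (fun i : Fin n => i ∉ F)).card + 1)) ^ k := by
  induction k with
  | zero =>
    refine ⟨∅, empty_subset _, by simp, ?_⟩
    have h1 : (avoid (∅ : Finset (Finset (Fin n × Z)))).card ≤ 2 ^ (n * Fintype.card Z) := by
      refine (card_le_univ _).trans (le_of_eq ?_)
      rw [Fintype.card_finset, Fintype.card_prod, Fintype.card_fin]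
    rw [pow_zero, mul_one]
    exact_mod_cast h1
  | succ k ih =>
    have hκ : (0 : ℝ) ≤ n * (θ / Fintype.card Z) := by positivity
    have hk' : 8 * k * n * (θ / Fintype.card Z : ℝ) ≤ 2 ^ (univ.filter (fun i => i ∉ F)).card := by
      push_cast at hk
      nlinarith
    obtain ⟨𝓕, h1, h2, h3⟩ := ih hk'
    obtain ⟨w, hw, hw2⟩ := hit_step θ E hE F hd hn hq 𝓕 h1
    refine ⟨insert (hit_Q F w) 𝓕, ?_, ?_, ?_⟩
    · exact insert_subset (mem_image_of_mem _ hw) h1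
    · exact (card_insert_le _ _).trans (by omega)
    · refine (avoid_insert 𝓕 (hit_Q F w)).trans ?_
      rw [hit_card]
      set u := (univ.filter (fun i => i ∉ F)).card with hu
      have h4 : (1 / 2 : ℝ) ^ (2 * u) * (4 * 𝓕.card * n * (θ / Fintype.card Z)) ≤ (1 / 2 : ℝ) ^ (u + 1) := by
        have h5 : (4 * 𝓕.card * n * (θ / Fintype.card Z) : ℝ) ≤ 2 ^ u / 2 := by
          have h6 : (𝓕.card : ℝ) ≤ k := by exact_mod_cast h2
          nlinarith
        calc (1 / 2 : ℝ) ^ (2 * u) * (4 * 𝓕.card * n * (θ / Fintype.card Z))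
            ≤ (1 / 2 : ℝ) ^ (2 * u) * (2 ^ u / 2) := mul_le_mul_of_nonneg_left h5 (by positivity)
          _ = (1 / 2 : ℝ) ^ (u + 1) := by
              rw [two_mul, pow_add, pow_succ, mul_assoc]
              have : (1 / 2 : ℝ) ^ u * (2 ^ u / 2) = 1 / 2 := by
                rw [mul_div_assoc', ← mul_pow]
                norm_num
              rw [this]
      have h7 : (1 - (1 / 2 : ℝ) ^ u +
          ∑ Q' ∈ 𝓕.filter (fun Q' => ¬ Disjoint (hit_Q F w) Q'), (1 / 2 : ℝ) ^ (hit_Q F w ∪ Q').card) ≤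
          1 - (1 / 2 : ℝ) ^ (u + 1) := by
        have h8 : (1 / 2 : ℝ) ^ u = 2 * (1 / 2 : ℝ) ^ (u + 1) := by
          rw [pow_succ]
          ring
        linarith
      have h9 : (0 : ℝ) ≤ 1 - (1 / 2 : ℝ) ^ (u + 1) := by
        have : (1 / 2 : ℝ) ^ (u + 1) ≤ 1 := pow_le_one₀ (by norm_num) (by norm_num)
        linarith
      calc ((avoid 𝓕).card : ℝ) * _ ≤ (avoid 𝓕).card * (1 - (1 / 2 : ℝ) ^ (u + 1)) :=
            mul_le_mul_of_nonneg_left h7 (Nat.cast_nonneg _)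
        _ ≤ (2 ^ (n * Fintype.card Z) * (1 - (1 / 2 : ℝ) ^ (u + 1)) ^ k) * (1 - (1 / 2 : ℝ) ^ (u + 1)) :=
            mul_le_mul_of_nonneg_right h3 h9
        _ = _ := by rw [pow_succ (1 - (1 / 2 : ℝ) ^ (u + 1)) k, mul_assoc]

theorem miss_card (θ : ℕ) (hθ : 1 ≤ θ) (E : Finset (Fin n → Z)) (hE : E.Nonempty)
    (F : Finset (Fin n)) (hd : Dense θ E F) (hn : 0 < n) (hq : n * θ ≤ Fintype.card Z)
    (c : Fin n → Bool) :
    (((univ : Finset (Fin n → Z → Bool)).filter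
      (fun G => ∀ w ∈ E, ∃ i, i ∉ F ∧ G i (w i) ≠ c i)).card : ℝ) ≤
      2 ^ (n * Fintype.card Z) * (2 * Real.exp (-(Fintype.card Z / (16 * n * θ)))) := by
  have hnθ : 0 < n * θ := Nat.mul_pos hn hθ
  have hq0 : 0 < Fintype.card Z := lt_of_lt_of_le hnθ hq
  set u := (univ.filter (fun i => i ∉ F)).card with hu
  have hnR : (0 : ℝ) < n := by exact_mod_cast hn
  have hθR : (0 : ℝ) < θ := by exact_mod_cast hθ
  have hqR : (0 : ℝ) < Fintype.card Z := by exact_mod_cast hq0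
  set κ : ℝ := θ / Fintype.card Z with hκ
  have hκ0 : 0 < κ := div_pos hθR hqR
  set k : ℕ := ⌊(2 : ℝ) ^ u / (8 * n * κ)⌋₊ with hk
  have hk1 : (k : ℝ) ≤ (2 : ℝ) ^ u / (8 * n * κ) := Nat.floor_le (by positivity)
  have hk2 : (2 : ℝ) ^ u / (8 * n * κ) < k + 1 := Nat.lt_floor_add_one _
  have hk3 : 8 * k * n * κ ≤ 2 ^ u := by
    rw [le_div_iff₀ (by positivity)] at hk1
    linarith
  obtain ⟨𝓕, h1, -, h3⟩ := hit_chain θ E hE F hd hn hq k hk3
  -- the count is at most the number of sets which avoid the family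
  have h4 : ((univ : Finset (Fin n → Z → Bool)).filter
      (fun G => ∀ w ∈ E, ∃ i, i ∉ F ∧ G i (w i) ≠ c i)).card ≤ (avoid 𝓕).card := by
    apply card_le_card_of_injOn (fun G => univ.filter (fun p : Fin n × Z => G p.1 p.2 = c p.1))
    · intro G hG
      rw [mem_coe, mem_filter] at hG
      rw [mem_coe, avoid, mem_filter]
      refine ⟨mem_univ _, fun Q hQ hsub => ?_⟩
      obtain ⟨w, hw, rfl⟩ := mem_image.1 (h1 hQ)
      obtain ⟨i, hi, hi2⟩ := hG.2 w hw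
      have h5 := hsub ((hit_mem F w (i, w i)).2 ⟨hi, rfl⟩)
      rw [mem_filter] at h5
      exact hi2 h5.2
    · intro G _ G' _ hGG
      funext i z
      have h5 : (i, z) ∈ univ.filter (fun p : Fin n × Z => G p.1 p.2 = c p.1) ↔
          (i, z) ∈ univ.filter (fun p : Fin n × Z => G' p.1 p.2 = c p.1) := by
        have h6 : univ.filter (fun p : Fin n × Z => G p.1 p.2 = c p.1) =
          univ.filter (fun p : Fin n × Z => G' p.1 p.2 = c p.1) := hGG
        rw [h6]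
      simp only [mem_filter, mem_univ, true_and] at h5
      revert h5
      cases G i z <;> cases G' i z <;> cases c i <;> simp
  have h5 : (1 - (1 / 2 : ℝ) ^ (u + 1)) ^ k ≤ 2 * Real.exp (-(Fintype.card Z / (16 * n * θ))) := by
    have h6 : 1 - (1 / 2 : ℝ) ^ (u + 1) ≤ Real.exp (-(1 / 2 : ℝ) ^ (u + 1)) := by
      have := Real.add_one_le_exp (-(1 / 2 : ℝ) ^ (u + 1))
      linarith
    have h9 : (0 : ℝ) ≤ 1 - (1 / 2 : ℝ) ^ (u + 1) := by
      have : (1 / 2 : ℝ) ^ (u + 1) ≤ 1 := pow_le_one₀ (by norm_num) (by norm_num)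
      linarith
    refine (pow_le_pow_left₀ h9 h6 k).trans ?_
    rw [← Real.exp_nat_mul]
    have h10 : (k : ℝ) * -(1 / 2 : ℝ) ^ (u + 1) ≤ 1 / 2 + -(Fintype.card Z / (16 * n * θ)) := by
      have h11 : (Fintype.card Z : ℝ) / (16 * n * θ) = (2 : ℝ) ^ u / (8 * n * κ) * (1 / 2 : ℝ) ^ (u + 1) := by
        have h12 : (2 : ℝ) ^ u * (1 / 2 : ℝ) ^ (u + 1) = 1 / 2 := by
          rw [pow_succ, ← mul_assoc, ← mul_pow]
          norm_num
        rw [div_mul_eq_mul_div, h12, hκ]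
        field_simp
        ring
      have h13 : (0 : ℝ) < (1 / 2 : ℝ) ^ (u + 1) := by positivity
      have h14 : (1 / 2 : ℝ) ^ (u + 1) ≤ 1 / 2 := by
        rw [pow_succ]
        have : (1 / 2 : ℝ) ^ u ≤ 1 := pow_le_one₀ (by norm_num) (by norm_num)
        linarith
      rw [h11]
      nlinarith
    refine (Real.exp_le_exp.2 h10).trans ?_
    rw [Real.exp_add]
    apply mul_le_mul_of_nonneg_right _ (Real.exp_pos _).le
    have h15 : Real.exp (1 / 2) * Real.exp (1 / 2) = Real.exp 1 := by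
      rw [← Real.exp_add]
      norm_num
    have h16 := Real.exp_one_lt_d9
    nlinarith [Real.exp_pos (1 / 2 : ℝ)]
  calc (((univ : Finset (Fin n → Z → Bool)).filter
      (fun G => ∀ w ∈ E, ∃ i, i ∉ F ∧ G i (w i) ≠ c i)).card : ℝ) ≤ (avoid 𝓕).card := by exact_mod_cast h4
    _ ≤ 2 ^ (n * Fintype.card Z) * (1 - (1 / 2 : ℝ) ^ (u + 1)) ^ k := h3
    _ ≤ _ := mul_le_mul_of_nonneg_left h5 (by positivity)

end MP979
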