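import Pool.Agent.Lib.MP_979eef_lc.Q.Fam
import Pool.Agent.Lib.MP_979eef_lc.Q.Hit

/-!
# MP_979eef_lc, protocols, module Exh: a function which hits all sets of the family
`exists_hits`: the number of `G` which miss some nonempty `θ`-dense `E ∈ Fam t` in some pattern `c` outside some `F` is at most `|Fam t| 2^n 2^n 2^(n q) 2 exp (-q/(16 n θ)) < 2^(n q)`
(`miss_card` and the union bound), and there are `2^(n q)` functions `G`.
-/

set_option autoImplicit false

namespace MP979

open Finset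

variable {n : ℕ} {Z : Type} [Fintype Z] [DecidableEq Z]

theorem exists_hits (S : Finset ((Fin n → Z) → Bool)) (θ θh t : ℕ) (hn : 0 < n) (hθ : 1 ≤ θh)
    (hq : n * θh ≤ Fintype.card Z)
    (h : ((Fam S θ t).card : ℝ) * 2 ^ n * 2 ^ n *
      (2 * Real.exp (-(Fintype.card Z / (16 * n * θh)))) < 1) :
    ∃ G : Fin n → Z → Bool, Hits G θh (Fam S θ t) := by
  classical
  by_contra hcon
  push Not at hcon
  -- the functions which miss `E` outside `F` in the pattern `c`
  set Miss : Finset (Fin n → Z) → Finset (Fin n) → (Fin n → Bool) → Finset (Fin n → Z → Bool) :=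
    fun E F c => (univ : Finset (Fin n → Z → Bool)).filter
      (fun G => ∀ w ∈ E, ∃ i, i ∉ F ∧ G i (w i) ≠ c i) with hMiss
  set bad : Finset (Finset (Fin n → Z) × Finset (Fin n) × (Fin n → Bool)) :=
    ((Fam S θ t) ×ˢ (univ : Finset (Finset (Fin n))) ×ˢ (univ : Finset (Fin n → Bool))).filter
      (fun x => x.1.Nonempty ∧ Dense θh x.1 x.2.1) with hbad
  have hcover : (univ : Finset (Fin n → Z → Bool)) ⊆ bad.biUnion (fun x => Miss x.1 x.2.1 x.2.2) := by
    intro G _
    have h1 := hcon G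
    unfold Hits at h1
    push Not at h1
    obtain ⟨E, hE, hEne, F, hF, c, hc⟩ := h1
    rw [mem_biUnion]
    refine ⟨(E, F, c), ?_, ?_⟩
    · rw [hbad, mem_filter]
      exact ⟨mem_product.2 ⟨hE, mem_product.2 ⟨mem_univ _, mem_univ _⟩⟩, hEne, hF⟩
    · simp only [hMiss]
      rw [mem_filter]
      exact ⟨mem_univ _, hc⟩
  have hM : ∀ x ∈ bad, ((Miss x.1 x.2.1 x.2.2).card : ℝ) ≤
      2 ^ (n * Fintype.card Z) * (2 * Real.exp (-(Fintype.card Z / (16 * n * θh)))) := by
    intro x hx
    rw [hbad, mem_filter] at hx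
    exact miss_card θh hθ x.1 hx.2.1 x.2.1 hx.2.2 hn hq x.2.2
  have hbadc : (bad.card : ℝ) ≤ (Fam S θ t).card * 2 ^ n * 2 ^ n := by
    have h1 : bad.card ≤ (Fam S θ t).card * (2 ^ n * 2 ^ n) := by
      refine (card_filter_le _ _).trans ?_
      rw [card_product, card_product, card_univ, card_univ, Fintype.card_finset, Fintype.card_fin,
        Fintype.card_fun, Fintype.card_fin, Fintype.card_bool]
    have h2 : (bad.card : ℝ) ≤ (((Fam S θ t).card * (2 ^ n * 2 ^ n) : ℕ) : ℝ) := by exact_mod_cast h1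
    push_cast at h2
    rw [mul_assoc]
    exact h2
  set ex : ℝ := Real.exp (-(Fintype.card Z / (16 * n * θh))) with hex
  have hex0 : 0 < ex := Real.exp_pos _
  have hall : ((2 : ℝ) ^ (n * Fintype.card Z)) ≤ bad.card * (2 ^ (n * Fintype.card Z) * (2 * ex)) := by
    have h1 := (card_le_card hcover).trans card_biUnion_le
    rw [card_univ, Fintype.card_fun, Fintype.card_fun, Fintype.card_fin, Fintype.card_bool, ← pow_mul,
      mul_comm (Fintype.card Z) n] at h1
    have h2 : ((2 ^ (n * Fintype.card Z) : ℕ) : ℝ) ≤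
        ((∑ x ∈ bad, (Miss x.1 x.2.1 x.2.2).card : ℕ) : ℝ) := by exact_mod_cast h1
    push_cast at h2
    refine h2.trans ((sum_le_sum hM).trans ?_)
    rw [sum_const, nsmul_eq_mul]
  have hpos : (0 : ℝ) < 2 ^ (n * Fintype.card Z) := by positivity
  have h3 : (bad.card : ℝ) * (2 ^ (n * Fintype.card Z) * (2 * ex)) ≤
      ((Fam S θ t).card * 2 ^ n * 2 ^ n * (2 * ex)) * 2 ^ (n * Fintype.card Z) := by
    have h4 : 0 ≤ 2 ^ (n * Fintype.card Z) * (2 * ex) := by positivity
    have h5 := mul_le_mul_of_nonneg_right hbadc h4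
    calc _ ≤ _ := h5
      _ = _ := by ring
  have h6 : ((Fam S θ t).card * 2 ^ n * 2 ^ n * (2 * ex)) * 2 ^ (n * Fintype.card Z) <
      1 * 2 ^ (n * Fintype.card Z) := mul_lt_mul_of_pos_right h hpos
  linarith

end MP979
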