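import Pool.Agent.Lib.MP_979eef_lc.Q.Defs

/-!
# MP_979eef_lc, protocols, module Fam: all sets which occur, and a function which hits them all
`fam_card`: `|Fam (t+1)| ≤ |Fam t| + |ops| |Fam t|`. `ops_card`: images.
-/

set_option autoImplicit false

namespace MP979

open Finset

variable {n : ℕ} {Z : Type} [Fintype Z] [DecidableEq Z]

open Classical in
/-- the operations: fix the value of a block; fix the value of a simple function; `openE`; `restE`;
`cut` -/
noncomputable def ops (S : Finset ((Fin n → Z) → Bool)) (θ : ℕ) :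
    Finset (Finset (Fin n → Z) → Finset (Fin n → Z)) :=
  (univ : Finset (Fin n × Z)).image (fun p W => W.filter (fun w => w p.1 = p.2)) ∪
  (S ×ˢ (univ : Finset Bool)).image (fun p W => W.filter (fun w => p.1 w = p.2)) ∪
  (univ : Finset (Fin n)).image (fun i => openE i) ∪
  (univ : Finset (Finset (Fin n))).image (fun F => restE θ F) ∪
  ((univ : Finset (Finset (Fin n))) ×ˢ range (Fintype.card Z ^ n)).image
    (fun p => cut θ p.1 p.2)

open Classical in
/-- the sets obtained from `univ` by at most `t` operations -/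
noncomputable def Fam (S : Finset ((Fin n → Z) → Bool)) (θ : ℕ) : ℕ → Finset (Finset (Fin n → Z))
  | 0 => {univ}
  | t + 1 => Fam S θ t ∪ (ops S θ ×ˢ Fam S θ t).image (fun p => p.1 p.2)

/-- `G` hits every nonempty dense set of the family in every pattern -/
def Hits (G : Fin n → Z → Bool) (θh : ℕ) (𝓔 : Finset (Finset (Fin n → Z))) : Prop :=
  ∀ E ∈ 𝓔, E.Nonempty → ∀ F : Finset (Fin n), Dense θh E F → ∀ c : Fin n → Bool,
    ∃ w ∈ E, ∀ i, i ∉ F → G i (w i) = c i

theorem fam_univ (S : Finset ((Fin n → Z) → Bool)) (θ : ℕ) :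
    (univ : Finset (Fin n → Z)) ∈ Fam S θ 0 := by
  simp [Fam]

theorem fam_mono (S : Finset ((Fin n → Z) → Bool)) (θ : ℕ) {s t : ℕ} (h : s ≤ t) :
    Fam S θ s ⊆ Fam S θ t := by
  induction t, h using Nat.le_induction with
  | base => exact Subset.refl _
  | succ t _ ih =>
    refine ih.trans ?_
    rw [Fam]
    exact subset_union_left

private theorem fam_step {S : Finset ((Fin n → Z) → Bool)} {θ t : ℕ} {W : Finset (Fin n → Z)} (h : W ∈ Fam S θ t)
    {o : Finset (Fin n → Z) → Finset (Fin n → Z)} (ho : o ∈ ops S θ) : o W ∈ Fam S θ (t + 1) := by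
  rw [Fam]
  exact mem_union_right _ (mem_image.2 ⟨(o, W), mem_product.2 ⟨ho, h⟩, rfl⟩)

section

variable {S : Finset ((Fin n → Z) → Bool)} {θ t : ℕ} {W : Finset (Fin n → Z)}

theorem fam_fix (h : W ∈ Fam S θ t) (i : Fin n) (ζ : Fin n → Z) : cell W {i} ζ ∈ Fam S θ (t + 1) := by
  have e : cell W {i} ζ = (fun (p : Fin n × Z) (W : Finset (Fin n → Z)) => W.filter (fun w => w p.1 = p.2)) (i, ζ i) W := by
    ext w
    simp [cell]
  rw [e]
  apply fam_step h
  rw [ops]
  refine mem_union_left _ (mem_union_left _ (mem_union_left _ (mem_union_left _ (mem_image.2 ⟨(i, ζ i), mem_univ _, rfl⟩))))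

theorem fam_fun (h : W ∈ Fam S θ t) {f : (Fin n → Z) → Bool} (hf : f ∈ S) (b : Bool) :
    W.filter (fun w => f w = b) ∈ Fam S θ (t + 1) := by
  have e : W.filter (fun w => f w = b) =
      (fun (p : ((Fin n → Z) → Bool) × Bool) (W : Finset (Fin n → Z)) => W.filter (fun w => p.1 w = p.2)) (f, b) W := rfl
  rw [e]
  apply fam_step h
  rw [ops]
  refine mem_union_left _ (mem_union_left _ (mem_union_left _ (mem_union_right _ (mem_image.2
    ⟨(f, b), mem_product.2 ⟨hf, mem_univ _⟩, rfl⟩))))

theorem fam_openE (h : W ∈ Fam S θ t) (i : Fin n) : openE i W ∈ Fam S θ (t + 1) := by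
  apply fam_step h
  rw [ops]
  exact mem_union_left _ (mem_union_left _ (mem_union_right _ (mem_image.2 ⟨i, mem_univ _, rfl⟩)))

theorem fam_restE (h : W ∈ Fam S θ t) (F : Finset (Fin n)) : restE θ F W ∈ Fam S θ (t + 1) := by
  apply fam_step h
  rw [ops]
  exact mem_union_left _ (mem_union_right _ (mem_image.2 ⟨F, mem_univ _, rfl⟩))

theorem fam_cut (h : W ∈ Fam S θ t) (F : Finset (Fin n)) {k : ℕ} (hk : k < W.card) :
    cut θ F k W ∈ Fam S θ (t + 1) := by
  apply fam_step h
  rw [ops]
  have hk' : k < Fintype.card Z ^ n := by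
    have h1 : W.card ≤ Fintype.card (Fin n → Z) := card_le_univ W
    rw [Fintype.card_fun, Fintype.card_fin] at h1
    omega
  exact mem_union_right _ (mem_image.2 ⟨(F, k), mem_product.2 ⟨mem_univ _, mem_range.2 hk'⟩, rfl⟩)

end

theorem ops_card (S : Finset ((Fin n → Z) → Bool)) (θ : ℕ) :
    (ops S θ).card ≤ n * Fintype.card Z + 2 * S.card + n + 2 ^ n + 2 ^ n * Fintype.card Z ^ n := by
  classical
  rw [ops]
  refine (card_union_le _ _).trans (add_le_add ?_ ?_)
  · refine (card_union_le _ _).trans (add_le_add ?_ ?_)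
    · refine (card_union_le _ _).trans (add_le_add ?_ ?_)
      · refine (card_union_le _ _).trans (add_le_add ?_ ?_)
        · refine card_image_le.trans ?_
          rw [card_univ, Fintype.card_prod, Fintype.card_fin]
        · refine card_image_le.trans ?_
          rw [card_product, card_univ, Fintype.card_bool, mul_comm]
      · refine card_image_le.trans ?_
        rw [card_univ, Fintype.card_fin]
    · refine card_image_le.trans ?_
      rw [card_univ, Fintype.card_finset, Fintype.card_fin]
  · refine card_image_le.trans ?_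
    rw [card_product, card_univ, Fintype.card_finset, Fintype.card_fin, card_range]

theorem fam_card (S : Finset ((Fin n → Z) → Bool)) (θ t : ℕ) :
    (Fam S θ t).card ≤ (1 + (ops S θ).card) ^ t := by
  classical
  induction t with
  | zero => simp [Fam]
  | succ t ih =>
    rw [Fam]
    refine (card_union_le _ _).trans ?_
    have h1 : ((ops S θ ×ˢ Fam S θ t).image (fun p => p.1 p.2)).card ≤ (ops S θ).card * (Fam S θ t).card := by
      refine card_image_le.trans ?_
      rw [card_product]
    calc (Fam S θ t).card + _ ≤ (Fam S θ t).card + (ops S θ).card * (Fam S θ t).card := by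
          refine add_le_add le_rfl ?_
          refine card_image_le.trans ?_
          rw [card_product]
      _ = (1 + (ops S θ).card) * (Fam S θ t).card := by ring
      _ ≤ (1 + (ops S θ).card) * (1 + (ops S θ).card) ^ t := Nat.mul_le_mul le_rfl ih
      _ = (1 + (ops S θ).card) ^ (t + 1) := by ring

end MP979
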