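import Pool.Agent.Lib.MP_979eef_lc.Q.Defs

/-!
# MP_979eef_lc, protocols, module Inn: the inner function
The block `i` of `inpC n l w` has the first `l` bits of the number `i`, then `w i`. `gC n l G x` reads the first `l` bits; if they are those of some `i < n` it is `G i` of the rest.
`gC_inpC`: for `n ≤ 2 ^ l` two numbers `< n` with the same first `l` bits are equal (`Nat.eq_of_testBit_eq`, `Nat.testBit_lt_two_pow`-type lemmas).
-/

set_option autoImplicit false

namespace MP979

open Finset

/-- the input of the virtual input `w` -/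
def inpC (n l : ℕ) (w : Fin n → (Fin (n - l) → Bool)) (p : Fin n × Fin n) : Bool :=
  if h : l ≤ p.2 then w p.1 ⟨p.2 - l, by omega⟩ else Nat.testBit p.1 p.2

open Classical in
/-- the inner function of the functions `G i` -/
noncomputable def gC (n l : ℕ) (G : Fin n → (Fin (n - l) → Bool) → Bool) (x : Fin n → Bool) : Bool :=
  if h : ∃ i : Fin n, ∀ j : Fin n, (j : ℕ) < l → x j = Nat.testBit i j then
    G (Classical.choose h) (fun j => x ⟨l + j, by omega⟩) else false

theorem gC_inpC {n l : ℕ} (hl : l ≤ n) (h : n ≤ 2 ^ l) (G : Fin n → (Fin (n - l) → Bool) → Bool)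
    (w : Fin n → (Fin (n - l) → Bool)) (i : Fin n) : gC n l G (blk (inpC n l w) i) = G i (w i) := by
  have hex : ∃ i' : Fin n, ∀ j : Fin n, (j : ℕ) < l → blk (inpC n l w) i j = Nat.testBit i' j := by
    refine ⟨i, fun j hj => ?_⟩
    have hj' : ¬ l ≤ (j : ℕ) := by omega
    simp only [blk, inpC, hj', dif_neg, not_false_eq_true]
  have hi : Classical.choose hex = i := by
    have hc := Classical.choose_spec hex
    apply Fin.ext
    apply Nat.eq_of_testBit_eq
    intro j
    by_cases hj : j < l
    · have h1 := hc ⟨j, by omega⟩ hj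
      have hj' : ¬ l ≤ j := by omega
      simp only [blk, inpC, hj', dif_neg, not_false_eq_true] at h1
      exact h1.symm
    · have h2 : ∀ i' : Fin n, Nat.testBit (i' : ℕ) j = false := by
        intro i'
        apply Nat.testBit_lt_two_pow
        calc (i' : ℕ) < n := i'.2
          _ ≤ 2 ^ l := h
          _ ≤ 2 ^ j := Nat.pow_le_pow_right (by norm_num) (by omega)
      rw [h2, h2]
  rw [gC, dif_pos hex, hi]
  congr 1
  funext j
  have hj : l ≤ l + (j : ℕ) := Nat.le_add_right _ _
  simp only [blk, inpC, hj, dif_pos]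
  congr 1
  exact Fin.ext (by simp)

theorem blk_inpC {n l : ℕ} (w w' : Fin n → (Fin (n - l) → Bool)) (i : Fin n) (h : w i = w' i) :
    blk (inpC n l w) i = blk (inpC n l w') i := by
  funext j
  simp only [blk, inpC, h]

end MP979
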