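import Pool.Agent.Lib.MP_979eef_lc.Q.Defs

/-!
# MP_979eef_lc, protocols, module Out: formulas of outer functions
`exists_fml4`: induction on the number of variables or a DNF: `f` is the OR over the `a` with `f a = true` of the AND of `n` literals; `n 2^n ≤ 4^n`; the constant `false` is
`x_0 ∧ ¬ x_0`.
`exists_hard_fun`: `Fml.exists_finset` with `ι = Fin n`, `s = ⌊2 ^ ((1 - ε) n)⌋`: `(2 n + 3) ^ (2 s) + 2 < 2 ^ (2 ^ n)` for large `n` (`2 s log2 (2 n + 3) ≤ 2^n / 2`), so some
non-constant `f` is not computed by formulas of size `≤ s`.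
-/

set_option autoImplicit false

namespace MP979

open Finset

private theorem out_point {n : ℕ} (a : Fin n → Bool) (J : Finset (Fin n)) (hJ : J.Nonempty) :
    ∃ φ : Fml (Fin n), (∀ x, φ.eval x = true ↔ ∀ i ∈ J, x i = a i) ∧ φ.size = J.card := by
  classical
  induction hJ using Finset.Nonempty.cons_induction with
  | singleton i =>
    refine ⟨Fml.lit i (a i), fun x => ?_, by simp [Fml.size]⟩
    simp [Fml.eval]
  | cons i s hi hs ih =>
    obtain ⟨φ, h1, h2⟩ := ih
    refine ⟨Fml.and (Fml.lit i (a i)) φ, fun x => ?_, ?_⟩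
    · simp only [Fml.eval, Bool.and_eq_true, h1 x, beq_iff_eq, mem_cons, forall_eq_or_imp]
    · simp only [Fml.size, h2, card_cons]
      omega

private theorem out_set {n : ℕ} (hn : 0 < n) (S : Finset (Fin n → Bool)) :
    ∃ φ : Fml (Fin n), (∀ x, φ.eval x = true ↔ x ∈ S) ∧ φ.size = n * S.card + 2 := by
  classical
  induction S using Finset.induction_on with
  | empty =>
    refine ⟨Fml.and (Fml.lit ⟨0, hn⟩ true) (Fml.lit ⟨0, hn⟩ false), fun x => ?_, by simp [Fml.size]⟩
    simp only [Fml.eval, Bool.and_eq_true, beq_iff_eq, notMem_empty, iff_false, not_and]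
    intro h
    rw [h]
    decide
  | insert a s ha ih =>
    obtain ⟨φ, h1, h2⟩ := ih
    have hne : (univ : Finset (Fin n)).Nonempty := ⟨⟨0, hn⟩, mem_univ _⟩
    obtain ⟨ψ, h3, h4⟩ := out_point a univ hne
    refine ⟨Fml.or ψ φ, fun x => ?_, ?_⟩
    · simp only [Fml.eval, Bool.or_eq_true, h1 x, h3 x, mem_univ, true_implies, mem_insert]
      rw [funext_iff]
    · simp only [Fml.size, h2, h4, card_insert_of_notMem ha, card_univ, Fintype.card_fin]
      ring

theorem exists_fml4 {n : ℕ} (hn : 0 < n) (f : (Fin n → Bool) → Bool) :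
    ∃ φ : Fml (Fin n), (∀ a, φ.eval a = f a) ∧ φ.size ≤ 4 ^ n := by
  classical
  obtain ⟨φ, h1, h2⟩ := out_set hn (univ.filter fun a => f a = true)
  refine ⟨φ, fun a => ?_, ?_⟩
  · rw [Bool.eq_iff_iff, h1 a, mem_filter]
    simp
  · have h3 : (univ.filter fun a : Fin n → Bool => f a = true).card ≤ 2 ^ n := by
      refine (card_filter_le _ _).trans ?_
      rw [card_univ, Fintype.card_fun, Fintype.card_bool, Fintype.card_fin]
    have h4 : n + 1 ≤ 2 ^ n := Nat.lt_two_pow_self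
    have h5 : 2 ≤ 2 ^ n := by
      calc 2 = 2 ^ 1 := rfl
        _ ≤ 2 ^ n := Nat.pow_le_pow_right (by norm_num) hn
    calc φ.size = n * (univ.filter fun a : Fin n → Bool => f a = true).card + 2 := h2
      _ ≤ n * 2 ^ n + 2 ^ n := Nat.add_le_add (Nat.mul_le_mul_left _ h3) h5
      _ = (n + 1) * 2 ^ n := by ring
      _ ≤ 2 ^ n * 2 ^ n := Nat.mul_le_mul_right _ h4
      _ = 4 ^ n := by
        rw [← mul_pow]
        norm_num

theorem exists_hard_fun (ε : ℝ) (hε : 0 < ε) : ∃ n₀ : ℕ, ∀ n ≥ n₀,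
    ∃ f : (Fin n → Bool) → Bool, NonConst f ∧
      ∀ φ : Fml (Fin n), (∀ a, φ.eval a = f a) → (2 : ℝ) ^ ((1 - ε) * n) ≤ φ.size := by
  classical
  have hr0 : (0 : ℝ) < (2 : ℝ) ^ (-ε) := by positivity
  have hr1 : (2 : ℝ) ^ (-ε) < 1 := by
    have h := Real.rpow_lt_rpow_of_exponent_lt (show (1 : ℝ) < 2 by norm_num) (show -ε < 0 by linarith)
    rwa [Real.rpow_zero] at h
  have ht := tendsto_pow_const_mul_const_pow_of_abs_lt_one 1
    (show |(2 : ℝ) ^ (-ε)| < 1 by rwa [abs_of_pos hr0])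
  have hev : ∀ᶠ n : ℕ in Filter.atTop, (n : ℝ) ^ 1 * ((2 : ℝ) ^ (-ε)) ^ n < 1 / 4 :=
    ht.eventually (gt_mem_nhds (by norm_num))
  obtain ⟨N, hN⟩ := Filter.eventually_atTop.1 hev
  refine ⟨max N 4, fun n hn => ?_⟩
  have hnN : N ≤ n := le_trans (le_max_left _ _) hn
  have hn4 : 4 ≤ n := le_trans (le_max_right _ _) hn
  have h1 := hN n hnN
  rw [pow_one] at h1
  have hpow : (2 : ℝ) ^ ((1 - ε) * n) = 2 ^ n * ((2 : ℝ) ^ (-ε)) ^ n := by
    rw [← Real.rpow_natCast ((2 : ℝ) ^ (-ε)) n, ← Real.rpow_mul (by norm_num), ← Real.rpow_natCast (2 : ℝ) n,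
      ← Real.rpow_add (by norm_num)]
    congr 1
    ring
  have h2n : (16 : ℝ) ≤ 2 ^ n := by
    calc (16 : ℝ) = 2 ^ 4 := by norm_num
      _ ≤ 2 ^ n := pow_le_pow_right₀ (by norm_num) hn4
  set s : ℕ := ⌊(2 : ℝ) ^ ((1 - ε) * n)⌋₊ with hs
  have hsle : (s : ℝ) ≤ (2 : ℝ) ^ ((1 - ε) * n) := Nat.floor_le (by positivity)
  have hkey : 2 * n * s + 2 ≤ 2 ^ n := by
    have h3 : (2 * n * s + 2 : ℝ) ≤ 2 ^ n := by
      have h4 : (2 * n * s : ℝ) ≤ 2 * n * (2 ^ n * ((2 : ℝ) ^ (-ε)) ^ n) := by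
        rw [← hpow]
        exact mul_le_mul_of_nonneg_left hsle (by positivity)
      have h5 : (2 * n * (2 ^ n * ((2 : ℝ) ^ (-ε)) ^ n) : ℝ) = 2 ^ n * (2 * (n * ((2 : ℝ) ^ (-ε)) ^ n)) := by ring
      have h6 : (2 : ℝ) ^ n * (2 * (n * ((2 : ℝ) ^ (-ε)) ^ n)) ≤ 2 ^ n * (1 / 2) :=
        mul_le_mul_of_nonneg_left (by linarith) (by positivity)
      linarith
    exact_mod_cast h3
  obtain ⟨S, hScard, hS⟩ := Fml.exists_finset (ι := Fin n) s
  rw [Fintype.card_fin] at hScard
  have hbase : 2 * n + 3 ≤ 2 ^ n := by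
    have h7 : ∀ m : ℕ, 4 ≤ m → 2 * m + 3 ≤ 2 ^ m := by
      intro m hm
      induction m, hm using Nat.le_induction with
      | base => norm_num
      | succ m hm ih =>
        rw [pow_succ]
        omega
    exact h7 n hn4
  have hcard : S.card + 2 < 2 ^ (2 ^ n) := by
    have h8 : S.card ≤ 2 ^ (2 * n * s) := by
      refine hScard.trans ((Nat.pow_le_pow_left hbase _).trans (le_of_eq ?_))
      rw [← pow_mul]
      congr 1
      ring
    have h9 : 1 ≤ 2 ^ (2 * n * s) := Nat.one_le_two_pow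
    calc S.card + 2 ≤ 2 ^ (2 * n * s) + 2 := by omega
      _ < 2 ^ (2 * n * s) * 4 := by omega
      _ = 2 ^ (2 * n * s + 2) := by
        rw [pow_add]
        norm_num
      _ ≤ 2 ^ (2 ^ n) := Nat.pow_le_pow_right (by norm_num) hkey
  have hex : ∃ f : (Fin n → Bool) → Bool, f ∉ insert (fun _ => true) (insert (fun _ => false) S) := by
    by_contra hcon
    push Not at hcon
    have h10 : (univ : Finset ((Fin n → Bool) → Bool)).card ≤
        (insert (fun _ => true) (insert (fun _ => false) S) : Finset ((Fin n → Bool) → Bool)).card :=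
      card_le_card fun f _ => hcon f
    have h11 := card_insert_le (fun _ : Fin n → Bool => true) (insert (fun _ => false) S)
    have h12 := card_insert_le (fun _ : Fin n → Bool => false) S
    rw [card_univ, Fintype.card_fun, Fintype.card_bool, Fintype.card_fun, Fintype.card_bool, Fintype.card_fin] at h10
    omega
  obtain ⟨f, hf⟩ := hex
  rw [mem_insert, mem_insert, not_or, not_or] at hf
  refine ⟨f, ⟨?_, ?_⟩, fun φ hφ => ?_⟩
  · by_contra hcon
    push Not at hcon
    exact hf.2.1 (funext fun x => by simpa using hcon x)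
  · by_contra hcon
    push Not at hcon
    exact hf.1 (funext fun x => by simpa using hcon x)
  · have h13 : ¬ φ.size ≤ s := by
      intro h14
      have h15 := hS φ h14
      rw [show (fun x => φ.eval x) = f from funext hφ] at h15
      exact hf.2.2 h15
    have h16 : (2 : ℝ) ^ ((1 - ε) * n) < (s : ℝ) + 1 := Nat.lt_floor_add_one _
    have h17 : (s : ℝ) + 1 ≤ φ.size := by exact_mod_cast (by omega : s + 1 ≤ φ.size)
    linarith

end MP979
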