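import Mathlib

/-!
# MP_979eef_lc, protocols, module PaA: the parameters of the union bound
`q = 2 ^ (n - l)`, `l = clog n`, so `2 ^ l ≤ 2 n` and `q ≥ 2^n / (2 n)`; `t0 = ⌊η n⌋`. `q / (16 n 2^(3 t0)) ≥ 2 ^ ((1 - 3 η) n) / (32 n^2)`, `3 η ≤ δ / 2`. The logarithm of the
first factors: `1 + (...) ≤ 2 ^ (2 s' log2 (2 n^2 + 3) + n^2 + n + 4)` (each summand is at most that with room to spare), so `tm * log (...) + 2 n log 2 + log 2` is at most
`(4 n^2 + 8 n) (2 * 2 ^ ((1 - δ) n) * log (2 n^2 + 3) + n^2 + n + 4) + 2 n + 1 ≤ 2 ^ ((1 - 3 δ / 4) n)` for large `n`. (Compare with `2 ^ ((1 - δ / 2) n) / (32 n^2)`.)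
-/

set_option autoImplicit false

namespace MP979

theorem par_exp (δ η : ℝ) (hδ : 0 < δ) (hδ1 : δ ≤ 1) (hη : 0 < η) (hηδ : 6 * η ≤ δ) :
    ∃ n₀ : ℕ, ∀ n ≥ n₀, ∀ s' S tm : ℕ, (s' : ℝ) ≤ 2 ^ ((1 - δ) * n) →
      S ≤ (2 * n ^ 2 + 3) ^ (2 * s') → tm ≤ 4 * n ^ 2 + 8 * n →
      Nat.clog 2 n ≤ n ∧ 2 ≤ ⌊η * n⌋₊ ∧
      n * 2 ^ (3 * ⌊η * n⌋₊) ≤ 2 ^ (n - Nat.clog 2 n) ∧
      (1 + ((n : ℝ) * 2 ^ (n - Nat.clog 2 n) + 2 * S + n + 2 ^ n +
        2 ^ n * (2 ^ (n - Nat.clog 2 n)) ^ n)) ^ tm * 2 ^ n * 2 ^ n *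
        (2 * Real.exp (-(2 ^ (n - Nat.clog 2 n) / (16 * n * 2 ^ (3 * ⌊η * n⌋₊))))) < 1 := by
  have hr : (1 : ℝ) < 2 ^ (δ / 2) := Real.one_lt_rpow (by norm_num) (by positivity)
  have h1 := (isLittleO_pow_const_const_pow_of_one_lt (R := ℝ) 6 hr).def
    (c := 1 / 5089) (by norm_num)
  obtain ⟨N, hN⟩ := Filter.eventually_atTop.1 h1
  refine ⟨max (max N 1) ⌈2 / η⌉₊, fun n hn s' S tm hs hS htm => ?_⟩
  have hnN : N ≤ n := (le_max_left _ _).trans ((le_max_left _ _).trans hn)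
  have hn1 : 1 ≤ n := (le_max_right _ _).trans ((le_max_left _ _).trans hn)
  have hnη : 2 / η ≤ n := (Nat.le_ceil _).trans (by exact_mod_cast (le_max_right _ _).trans hn)
  have hnr : (1 : ℝ) ≤ n := by exact_mod_cast hn1
  have hnn : (n : ℝ) ≤ (n : ℝ) ^ 2 := le_self_pow₀ hnr (by norm_num)
  have hn21 : (1 : ℝ) ≤ (n : ℝ) ^ 2 := one_le_pow₀ hnr
  set X : ℝ := (2 : ℝ) ^ ((1 - δ) * n) with hX
  set Y : ℝ := (2 : ℝ) ^ (δ / 2 * n) with hY
  have hY6 : 5088 * (n : ℝ) ^ 6 < Y := by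
    have h2 := hN n hnN
    rw [Real.norm_of_nonneg (by positivity), Real.norm_of_nonneg (by positivity),
      ← Real.rpow_natCast ((2 : ℝ) ^ (δ / 2)) n, ← Real.rpow_mul (by norm_num), ← hY] at h2
    have h3 : (1 : ℝ) ≤ (n : ℝ) ^ 6 := one_le_pow₀ hnr
    linarith
  have hX1 : 1 ≤ X := Real.one_le_rpow (by norm_num) (mul_nonneg (by linarith) (by positivity))
  have hY0 : 0 < Y := by positivity
  have hXYY : (2 : ℝ) ^ n = X * Y * Y := by
    rw [hX, hY, ← Real.rpow_add (by norm_num), ← Real.rpow_add (by norm_num), ← Real.rpow_natCast]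
    congr 1
    ring
  set t0 := ⌊η * n⌋₊ with ht0
  have ht0r : (t0 : ℝ) ≤ η * n := Nat.floor_le (by positivity)
  have ht0Y : (2 : ℝ) ^ (3 * t0) ≤ Y := by
    rw [hY, ← Real.rpow_natCast]
    refine Real.rpow_le_rpow_of_exponent_le (by norm_num) ?_
    push_cast
    nlinarith
  set l := Nat.clog 2 n with hl
  have hln : l ≤ n := by
    rw [hl]
    exact Nat.clog_le_of_le_pow (Nat.lt_two_pow_self).le
  have hl2 : 2 ^ l ≤ 2 * n := by
    rcases Nat.eq_or_lt_of_le hn1 with h | h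
    · rw [hl, ← h]
      simp
    · have h4 : 0 < Nat.clog 2 n := Nat.clog_pos (by norm_num) h
      have h5 : 2 ^ (Nat.clog 2 n).pred < n := Nat.pow_pred_clog_lt_self (by norm_num) h
      rw [← hl] at h4 h5
      have h6 : 2 ^ l = 2 ^ l.pred * 2 := by
        rw [← pow_succ]
        congr 1
        exact (Nat.succ_pred_eq_of_pos h4).symm
      omega
  have hsplit : (2 : ℝ) ^ l * 2 ^ (n - l) = 2 ^ n := by
    rw [← pow_add, Nat.add_sub_cancel' hln]
  have hl2r : (2 : ℝ) ^ l ≤ 2 * n := by exact_mod_cast hl2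
  have hq : X * Y * Y / (2 * n) ≤ (2 : ℝ) ^ (n - l) := by
    rw [div_le_iff₀ (by positivity), ← hXYY, ← hsplit, mul_comm]
    exact mul_le_mul_of_nonneg_left hl2r (by positivity)
  have hn6 : (n : ℝ) ^ 2 ≤ (n : ℝ) ^ 6 := pow_le_pow_right₀ hnr (by norm_num)
  refine ⟨hln, ?_, ?_, ?_⟩
  · refine Nat.le_floor ?_
    rw [div_le_iff₀ hη] at hnη
    push_cast
    linarith
  · have h4 : (n : ℝ) * 2 ^ (3 * t0) ≤ 2 ^ (n - l) := by
      refine le_trans ?_ hq
      rw [le_div_iff₀ (by positivity)]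
      have h5 : (n : ℝ) * 2 ^ (3 * t0) * (2 * n) ≤ 2 * (n : ℝ) ^ 2 * Y := by
        have : (n : ℝ) * 2 ^ (3 * t0) * (2 * n) = 2 * (n : ℝ) ^ 2 * 2 ^ (3 * t0) := by ring
        rw [this]
        exact mul_le_mul_of_nonneg_left ht0Y (by positivity)
      have h6 : 2 * (n : ℝ) ^ 2 ≤ X * Y := by nlinarith
      exact h5.trans (mul_le_mul_of_nonneg_right h6 hY0.le)
    exact_mod_cast h4
  · have hE : X * Y / (32 * (n : ℝ) ^ 2) ≤ 2 ^ (n - l) / (16 * n * 2 ^ (3 * t0)) := by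
      rw [div_le_div_iff₀ (by positivity) (by positivity)]
      have h5 := mul_le_mul_of_nonneg_right hq (by positivity : (0 : ℝ) ≤ 32 * (n : ℝ) ^ 2)
      have h6 : X * Y * (16 * n * 2 ^ (3 * t0)) ≤ X * Y * (16 * n * Y) := by
        refine mul_le_mul_of_nonneg_left (mul_le_mul_of_nonneg_left ht0Y (by positivity)) (by positivity)
      have h7 : X * Y * Y / (2 * n) * (32 * (n : ℝ) ^ 2) = X * Y * (16 * n * Y) := by
        field_simp
        ring
      linarith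
    set E : ℝ := 2 ^ (n - l) / (16 * n * 2 ^ (3 * t0)) with hEdef
    -- the base
    set B : ℝ := 2 * s' * (2 * n ^ 2 + 2) + (n ^ 2 + n + 3) with hB
    have he2 : (2 : ℝ) ≤ Real.exp 1 := by
      have := Real.add_one_le_exp (1 : ℝ)
      linarith
    have hpow : ∀ k : ℕ, (2 : ℝ) ^ k ≤ Real.exp k := by
      intro k
      calc (2 : ℝ) ^ k ≤ Real.exp 1 ^ k := pow_le_pow_left₀ (by norm_num) he2 k
        _ = Real.exp k := by rw [← Real.exp_nat_mul, mul_one]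
    have ha : (S : ℝ) ≤ Real.exp (2 * s' * (2 * n ^ 2 + 2)) := by
      have h5 : (S : ℝ) ≤ (2 * (n : ℝ) ^ 2 + 3) ^ (2 * s') := by exact_mod_cast hS
      refine h5.trans ?_
      have h6 : (2 * (n : ℝ) ^ 2 + 3) ≤ Real.exp (2 * n ^ 2 + 2) := by
        have := Real.add_one_le_exp (2 * (n : ℝ) ^ 2 + 2)
        linarith
      calc (2 * (n : ℝ) ^ 2 + 3) ^ (2 * s') ≤ Real.exp (2 * n ^ 2 + 2) ^ (2 * s') :=
            pow_le_pow_left₀ (by positivity) h6 _
        _ = Real.exp (2 * s' * (2 * n ^ 2 + 2)) := by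
            rw [← Real.exp_nat_mul]
            push_cast
            ring_nf
    have ha1 : 1 ≤ Real.exp (2 * s' * (2 * n ^ 2 + 2)) := Real.one_le_exp (by positivity)
    set a : ℝ := Real.exp (2 * s' * (2 * n ^ 2 + 2)) with hadef
    have hqn : (2 : ℝ) ^ (n - l) ≤ 2 ^ n := pow_le_pow_right₀ (by norm_num) (Nat.sub_le _ _)
    have hnp : (n : ℝ) ≤ 2 ^ n := by exact_mod_cast (Nat.lt_two_pow_self (n := n)).le
    set Q : ℝ := (2 : ℝ) ^ (n ^ 2 + n) with hQ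
    have hQ2 : (2 : ℝ) ^ n * 2 ^ n ≤ Q := by
      rw [← pow_add, hQ]
      refine pow_le_pow_right₀ (by norm_num) ?_
      nlinarith
    have h2n1 : (1 : ℝ) ≤ 2 ^ n := one_le_pow₀ (by norm_num)
    have hQ1 : (2 : ℝ) ^ n ≤ Q := by nlinarith
    have hQn : (2 : ℝ) ^ n * (2 ^ (n - l)) ^ n ≤ Q := by
      have h5 : ((2 : ℝ) ^ (n - l)) ^ n ≤ 2 ^ (n * n) := by
        rw [← pow_mul]
        exact pow_le_pow_right₀ (by norm_num) (Nat.mul_le_mul_right n (Nat.sub_le _ _))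
      calc (2 : ℝ) ^ n * (2 ^ (n - l)) ^ n ≤ 2 ^ n * 2 ^ (n * n) :=
            mul_le_mul_of_nonneg_left h5 (by positivity)
        _ = Q := by
            rw [hQ, ← pow_add]
            congr 1
            ring
    have hQn' : (n : ℝ) * 2 ^ (n - l) ≤ Q := by
      refine le_trans ?_ hQ2
      exact mul_le_mul hnp hqn (by positivity) (by positivity)
    have hM : 1 + ((n : ℝ) * 2 ^ (n - l) + 2 * S + n + 2 ^ n + 2 ^ n * (2 ^ (n - l)) ^ n) ≤
        Real.exp B := by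
      have h5 : 1 + ((n : ℝ) * 2 ^ (n - l) + 2 * S + n + 2 ^ n + 2 ^ n * (2 ^ (n - l)) ^ n) ≤
          5 * Q + 2 * a := by linarith
      have h6 : 5 * Q + 2 * a ≤ a * (Q * 2 ^ 3) := by
        have hQ0 : 1 ≤ Q := by linarith
        nlinarith
      have h7 : Q * 2 ^ 3 ≤ Real.exp (n ^ 2 + n + 3) := by
        rw [hQ, ← pow_add]
        refine (hpow _).trans_eq ?_
        push_cast
        ring_nf
      calc _ ≤ 5 * Q + 2 * a := h5
        _ ≤ a * (Q * 2 ^ 3) := h6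
        _ ≤ a * Real.exp (n ^ 2 + n + 3) := mul_le_mul_of_nonneg_left h7 (by positivity)
        _ = Real.exp B := by rw [hadef, hB, ← Real.exp_add]
    have hB0 : 0 ≤ B := by positivity
    have hBX : B ≤ 13 * n ^ 2 * X := by
      have h5 : 2 * (s' : ℝ) * (2 * n ^ 2 + 2) ≤ 2 * X * (4 * n ^ 2) := by
        refine mul_le_mul (by linarith) ?_ (by positivity) (by positivity)
        linarith
      have h6 : (n : ℝ) ^ 2 + n + 3 ≤ 5 * n ^ 2 * X := by
        have h7 : (n : ℝ) ^ 2 + n + 3 ≤ 5 * n ^ 2 := by linarith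
        exact h7.trans (le_mul_of_one_le_right (by positivity) hX1)
      rw [hB]
      linarith
    have htm' : (tm : ℝ) ≤ 12 * n ^ 2 := by
      have : (tm : ℝ) ≤ 4 * n ^ 2 + 8 * n := by exact_mod_cast htm
      linarith
    have hfin : (tm : ℝ) * B + n + n + 1 < E := by
      have h5 : (tm : ℝ) * B ≤ 12 * n ^ 2 * (13 * n ^ 2 * X) :=
        mul_le_mul htm' hBX hB0 (by positivity)
      have h6 : (n : ℝ) + n + 1 ≤ 3 * n ^ 4 * X := by
        have h7 : (n : ℝ) ≤ n ^ 4 := le_self_pow₀ hnr (by norm_num)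
        have h8 : 3 * (n : ℝ) ^ 4 ≤ 3 * n ^ 4 * X := le_mul_of_one_le_right (by positivity) hX1
        linarith
      have h9 : 159 * (n : ℝ) ^ 4 * X < X * Y / (32 * (n : ℝ) ^ 2) := by
        rw [lt_div_iff₀ (by positivity)]
        have h10 : 159 * (n : ℝ) ^ 4 * X * (32 * (n : ℝ) ^ 2) = X * (5088 * n ^ 6) := by ring
        rw [h10]
        exact mul_lt_mul_of_pos_left hY6 (by linarith)
      have h11 : 12 * (n : ℝ) ^ 2 * (13 * n ^ 2 * X) = 156 * n ^ 4 * X := by ring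
      linarith
    have hM0 : 0 ≤ 1 + ((n : ℝ) * 2 ^ (n - l) + 2 * S + n + 2 ^ n + 2 ^ n * (2 ^ (n - l)) ^ n) := by
      positivity
    calc (1 + ((n : ℝ) * 2 ^ (n - l) + 2 * S + n + 2 ^ n + 2 ^ n * (2 ^ (n - l)) ^ n)) ^ tm *
          2 ^ n * 2 ^ n * (2 * Real.exp (-E))
        ≤ Real.exp (tm * B) * Real.exp n * Real.exp n * (Real.exp 1 * Real.exp (-E)) := by
          have h5 : (1 + ((n : ℝ) * 2 ^ (n - l) + 2 * S + n + 2 ^ n +
              2 ^ n * (2 ^ (n - l)) ^ n)) ^ tm ≤ Real.exp (tm * B) := by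
            rw [Real.exp_nat_mul]
            exact pow_le_pow_left₀ hM0 hM tm
          have h6 := hpow n
          gcongr
      _ = Real.exp (tm * B + n + n + 1 - E) := by
          rw [← Real.exp_add, ← Real.exp_add, ← Real.exp_add, ← Real.exp_add]
          congr 1
          ring
      _ < 1 := by
          rw [Real.exp_lt_one_iff]
          linarith

end MP979
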