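import Pool.Agent.Lib.MP_979eef_lc.Q.PaB

/-!
# MP_979eef_lc, protocols, module PaC: parameters, second form
-/

set_option autoImplicit false

namespace MP979

theorem par_num2 (ε η : ℝ) (hε : 0 < ε) (hη : 0 < η) : ∃ (ρ : ℝ) (n₀ : ℕ), 0 < ρ ∧ ∀ n ≥ n₀,
    ∃ C : ℕ, 1 ≤ C ∧ (∀ Q T v : ℕ, (Q : ℝ) * Real.log n ≤ ρ * n ^ 2 → T ≤ 2 * n →
        (v : ℝ) ≤ ρ * n → Q ≤ n ^ 2 ∧ v ≤ n ∧
        2 ^ (2 * T + 2 * Q + 2 * v) < (2 ^ ⌊η * n⌋₊) ^ (C + 1)) ∧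
      ∀ v : ℕ, (v : ℝ) ≤ ρ * n →
        (8 * (n : ℝ)) ^ C * (2 ^ v * (4 * (2 * (C : ℝ) ^ 2 * (2 * n) ^ C + 4))) ≤
          2 ^ (ε * n) := by
  obtain ⟨ρ0, n1, hρ0, h1⟩ := par_num (ε / 3) η (by linarith) hη
  have hlog : ∃ n2 : ℕ, ∀ n ≥ n2, Real.log n ≤ ρ0 / 4 * n := by
    have h := Real.isLittleO_log_id_atTop.bound (show 0 < ρ0 / 4 by positivity)
    have h' := tendsto_natCast_atTop_atTop.eventually h
    obtain ⟨n2, hn2⟩ := Filter.eventually_atTop.1 h'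
    refine ⟨max n2 1, fun n hn => ?_⟩
    have h3 := hn2 n (le_trans (le_max_left _ _) hn)
    simp only [id] at h3
    have h4 : (0 : ℝ) ≤ n := Nat.cast_nonneg n
    rw [Real.norm_of_nonneg h4] at h3
    exact le_trans (le_abs_self _) h3
  obtain ⟨n2, h2⟩ := hlog
  refine ⟨min (min (ρ0 / 4) (ε / 3)) 1, max (max n1 n2) (max 3 ⌈6 / ε⌉₊), by positivity,
    fun n hn => ?_⟩
  have hn1 : n1 ≤ n := le_trans (le_trans (le_max_left _ _) (le_max_left _ _)) hn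
  have hn2 : n2 ≤ n := le_trans (le_trans (le_max_right _ _) (le_max_left _ _)) hn
  have hn3 : 3 ≤ n := le_trans (le_trans (le_max_left _ _) (le_max_right _ _)) hn
  have hn4 : ⌈6 / ε⌉₊ ≤ n := le_trans (le_trans (le_max_right _ _) (le_max_right _ _)) hn
  have hn3r : (3 : ℝ) ≤ n := by exact_mod_cast hn3
  have hlog1 : 1 ≤ Real.log n := by
    rw [Real.le_log_iff_exp_le (by linarith)]
    have := Real.exp_one_lt_d9
    linarith
  obtain ⟨C, hC, hCr, hCc⟩ := h1 n hn1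
  have hρ1 : min (min (ρ0 / 4) (ε / 3)) 1 ≤ ρ0 / 4 := (min_le_left _ _).trans (min_le_left _ _)
  have hρ3 : min (min (ρ0 / 4) (ε / 3)) 1 ≤ ε / 3 := (min_le_left _ _).trans (min_le_right _ _)
  have hρ2 : min (min (ρ0 / 4) (ε / 3)) 1 ≤ 1 := min_le_right _ _
  refine ⟨C, hC, ?_, ?_⟩
  · intro Q T v hQ hT hv
    have hn2' : (0 : ℝ) ≤ (n : ℝ) ^ 2 := by positivity
    have hQ0 : (0 : ℝ) ≤ Q := Nat.cast_nonneg Q
    have hQn : (Q : ℝ) ≤ (n : ℝ) ^ 2 := by nlinarith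
    have hvn : (v : ℝ) ≤ (n : ℝ) := by nlinarith
    have hvn' : v ≤ n := by exact_mod_cast hvn
    refine ⟨by exact_mod_cast hQn, hvn', ?_⟩
    set r : ℕ := Q / n + 2 with hr
    have hnr : Q + v ≤ n * r := by
      have := Nat.lt_mul_div_succ Q (show 0 < n by omega)
      have h5 : n * r = n * (Q / n + 1) + n := by rw [hr]; ring
      omega
    have hrl : (r : ℝ) * Real.log n ≤ ρ0 * n := by
      have h5 : ((Q / n : ℕ) : ℝ) ≤ (Q : ℝ) / n := Nat.cast_div_le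
      have h6 : (Q : ℝ) / n * Real.log n ≤ ρ0 / 4 * n := by
        rw [div_mul_eq_mul_div, div_le_iff₀ (by linarith)]
        nlinarith
      have h7 := h2 n hn2
      rw [hr]
      push_cast
      have h8 : ((Q / n : ℕ) : ℝ) * Real.log n ≤ (Q : ℝ) / n * Real.log n :=
        mul_le_mul_of_nonneg_right h5 (by linarith)
      nlinarith
    obtain ⟨-, h9⟩ := hCr r hrl
    have h10 := h9 (2 * n) T (le_refl _) hT
    refine lt_of_le_of_lt (Nat.pow_le_pow_right (by norm_num) ?_) h10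
    nlinarith
  · intro v hv
    have h5 : (4 : ℝ) ≤ 2 ^ (ε / 3 * n) := by
      have h6 : (4 : ℝ) = (2 : ℝ) ^ (2 : ℝ) := by norm_num
      rw [h6]
      refine Real.rpow_le_rpow_of_exponent_le (by norm_num) ?_
      have h7 : 6 / ε ≤ n := le_trans (Nat.le_ceil _) (by exact_mod_cast hn4)
      rw [div_le_iff₀ hε] at h7
      linarith
    have h6 : (2 : ℝ) ^ v ≤ 2 ^ (ε / 3 * n) := by
      rw [← Real.rpow_natCast]
      refine Real.rpow_le_rpow_of_exponent_le (by norm_num) ?_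
      nlinarith
    have h8 : (2 : ℝ) ^ (ε * n) = 2 ^ (ε / 3 * n) * 2 ^ (ε / 3 * n) * 2 ^ (ε / 3 * n) := by
      rw [← Real.rpow_add (by norm_num), ← Real.rpow_add (by norm_num)]
      congr 1
      ring
    rw [h8]
    calc (8 * (n : ℝ)) ^ C * (2 ^ v * (4 * (2 * (C : ℝ) ^ 2 * (2 * n) ^ C + 4)))
        = 4 * 2 ^ v * ((8 * (n : ℝ)) ^ C * (2 * (C : ℝ) ^ 2 * (2 * n) ^ C + 4)) := by ring
      _ ≤ 2 ^ (ε / 3 * n) * 2 ^ (ε / 3 * n) * 2 ^ (ε / 3 * n) := by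
        refine mul_le_mul (mul_le_mul h5 h6 (by positivity) (by positivity)) hCc
          (by positivity) (by positivity)

end MP979
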