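import Pool.Agent.Lib.MP_979eef_lc.Q.IndA
import Pool.Agent.Lib.MP_979eef_lc.Q.Exh
import Pool.Agent.Lib.MP_979eef_lc.Q.Inn
import Pool.Agent.Lib.MP_979eef_lc.Q.Out
import Pool.Agent.Lib.MP_979eef_lc.Q.PaA
import Pool.Agent.Lib.MP_979eef_lc.Q.PaC

/-!
# MP_979eef_lc, protocols, module Fin2: assembly
-/

set_option autoImplicit false

namespace MP979

open Finset

/-- the theorem of Karchmer and Wigderson for sizes -/
theorem kw_size {ι : Type} (h : (ι → Bool) → Bool) (h1 : ∃ x, h x = true) (h0 : ∃ x, h x = false)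
    (s : ℕ) : (∃ P : Prot ι, P.Solves h ∧ P.leaves ≤ s) ↔
      ∃ φ : Fml ι, (∀ x, φ.eval x = h x) ∧ φ.size ≤ s := by
  constructor
  · rintro ⟨P, hP, hd⟩
    obtain ⟨φ, f1, f2, f3⟩ := exists_fml_size P (X := {x | h x = true}) (Y := {y | h y = false})
      h1 h0 hP
    refine ⟨φ, fun x => ?_, f1.trans hd⟩
    cases hx : h x with
    | true => exact f2 x hx
    | false => exact f3 x hx
  · rintro ⟨φ, hφ, hd⟩
    suffices key : ∀ (φ : Fml ι) (X Y : Set (ι → Bool)), (∀ x ∈ X, φ.eval x = true) →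
        (∀ y ∈ Y, φ.eval y = false) → ∃ P : Prot ι, P.leaves ≤ φ.size ∧ P.Correct X Y by
      obtain ⟨P, p1, p2⟩ := key φ {x | h x = true} {y | h y = false}
        (fun x hx => by rw [hφ]; exact hx) (fun y hy => by rw [hφ]; exact hy)
      exact ⟨P, p2, p1.trans hd⟩
    intro φ
    induction φ with
    | lit i b =>
      intro X Y hX hY
      refine ⟨.leaf i, le_refl _, ?_⟩
      intro x hx y hy
      have h1 := hX x hx
      have h2 := hY y hy
      simp only [Fml.eval] at h1 h2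
      simp only [Prot.run]
      intro h3
      rw [h3, h2] at h1
      exact absurd h1 (by decide)
    | and p q hp hq =>
      intro X Y hX hY
      obtain ⟨P, p1, p2⟩ := hp X {y | y ∈ Y ∧ p.eval y = false}
        (fun x hx => by
          have := hX x hx
          simp only [Fml.eval, Bool.and_eq_true] at this
          exact this.1) (fun y hy => hy.2)
      obtain ⟨Q, q1, q2⟩ := hq X {y | y ∈ Y ∧ p.eval y = true}
        (fun x hx => by
          have := hX x hx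
          simp only [Fml.eval, Bool.and_eq_true] at this
          exact this.2) (fun y hy => by
          have := hY y hy.1
          have h2 : p.eval y = true := hy.2
          simpa [Fml.eval, h2] using this)
      refine ⟨.bob (fun y => p.eval y) Q P, ?_, ?_⟩
      · simp only [Prot.leaves, Fml.size]; omega
      · intro x hx y hy
        cases hm : p.eval y with
        | true =>
          have := q2 x hx y ⟨hy, hm⟩
          simpa [Prot.run, hm] using this
        | false =>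
          have := p2 x hx y ⟨hy, hm⟩
          simpa [Prot.run, hm] using this
    | or p q hp hq =>
      intro X Y hX hY
      obtain ⟨P, p1, p2⟩ := hp {x | x ∈ X ∧ p.eval x = true} Y
        (fun x hx => hx.2) (fun y hy => by
          have := hY y hy
          simp only [Fml.eval, Bool.or_eq_false_iff] at this
          exact this.1)
      obtain ⟨Q, q1, q2⟩ := hq {x | x ∈ X ∧ p.eval x = false} Y
        (fun x hx => by
          have := hX x hx.1
          have h2 : p.eval x = false := hx.2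
          simpa [Fml.eval, h2] using this) (fun y hy => by
          have := hY y hy
          simp only [Fml.eval, Bool.or_eq_false_iff] at this
          exact this.2)
      refine ⟨.alice (fun x => p.eval x) P Q, ?_, ?_⟩
      · simp only [Prot.leaves, Fml.size]; omega
      · intro x hx y hy
        cases hm : p.eval x with
        | true =>
          have := p2 x ⟨hx, hm⟩ y hy
          simpa [Prot.run, hm] using this
        | false =>
          have := q2 x ⟨hx, hm⟩ y hy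
          simpa [Prot.run, hm] using this

theorem par_fam (δ0 : ℝ) (hδ0 : 0 < δ0) (hδ1 : δ0 ≤ 1) : ∃ n₀ : ℕ, ∀ n ≥ n₀,
    ((⌊(2 : ℝ) ^ ((1 - δ0) * n)⌋₊ + (⌊(2 : ℝ) ^ ((1 - δ0) * n)⌋₊ + 1) : ℕ) : ℝ) ≤
      2 ^ ((1 - δ0 / 2) * n) := by
  refine ⟨⌈4 / δ0⌉₊, fun n hn => ?_⟩
  have h1 : 4 / δ0 ≤ n := le_trans (Nat.le_ceil _) (by exact_mod_cast hn)
  rw [div_le_iff₀ hδ0] at h1
  have hnn : (0 : ℝ) ≤ n := Nat.cast_nonneg n
  set X : ℝ := (2 : ℝ) ^ ((1 - δ0) * n) with hX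
  have hX1 : 1 ≤ X := Real.one_le_rpow (by norm_num) (mul_nonneg (by linarith) hnn)
  have h2 : (⌊X⌋₊ : ℝ) ≤ X := Nat.floor_le (by linarith)
  have h3 : (2 : ℝ) ^ ((1 - δ0 / 2) * n) = X * 2 ^ (δ0 / 2 * n) := by
    rw [hX, ← Real.rpow_add (by norm_num)]
    congr 1
    ring
  have h4 : (4 : ℝ) ≤ 2 ^ (δ0 / 2 * n) := by
    have h6 : (4 : ℝ) = (2 : ℝ) ^ (2 : ℝ) := by norm_num
    rw [h6]
    exact Real.rpow_le_rpow_of_exponent_le (by norm_num) (by linarith)
  rw [h3]
  push_cast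
  nlinarith

theorem fin2_core (δ ε : ℝ) (hδ : 0 < δ) (hε : 0 < ε) : ∃ (ρ : ℝ) (n₀ : ℕ), 0 < ρ ∧ ∀ n ≥ n₀,
    ∀ 𝓗 : Finset ((Fin n × Fin n → Bool) → Bool),
    (𝓗.card : ℝ) ≤ 2 ^ ((2 : ℝ) ^ ((1 - δ) * n)) →
    ∃ g : (Fin n → Bool) → Bool, NonConst g ∧
      (∀ (f : (Fin n → Bool) → Bool) (P : Prot (Fin n × Fin n)) (k T Q v : ℕ),
        P.Solves (comp f g) → (Q : ℝ) * Real.log n ≤ ρ * n ^ 2 → (v : ℝ) ≤ ρ * n →
        Simple g 𝓗 T Q v k ∅ [] P →
        (∀ φ : Fml (Fin n), (∀ a, φ.eval a = f a) → (2 : ℝ) ^ (k + T + ε * n) ≤ φ.size) →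
        k + (1 - ε) * n ≤ P.depth) ∧
      (∀ (f : (Fin n → Bool) → Bool) (P : Prot (Fin n × Fin n)) (T Q v : ℕ) (c : ℝ),
        NonConst f → P.Solves (comp f g) → (Q : ℝ) * Real.log n ≤ ρ * n ^ 2 →
        (v : ℝ) ≤ ρ * n → T ≤ n → Simple g 𝓗 T Q v P.depth ∅ [] P →
        (∀ φ : Fml (Fin n), (∀ a, φ.eval a = f a) → c ≤ φ.size) → 0 ≤ c →
        c * 2 ^ ((1 - ε) * n) ≤ 2 * (2 ^ T * 2 ^ (ε * n) * P.leaves)) := by
  classical
  obtain ⟨δ0, hδ0, hδ01, hδ0δ, hδ0ε⟩ : ∃ δ0 : ℝ, 0 < δ0 ∧ δ0 ≤ 1 ∧ δ0 ≤ δ ∧ δ0 ≤ ε :=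
    ⟨min 1 (min δ ε), by positivity, min_le_left _ _,
      le_trans (min_le_right _ _) (min_le_left _ _), le_trans (min_le_right _ _) (min_le_right _ _)⟩
  obtain ⟨η, hη, hη6⟩ : ∃ η : ℝ, 0 < η ∧ 6 * η ≤ δ0 / 2 := ⟨δ0 / 12, by positivity, by linarith⟩
  obtain ⟨n1, h1⟩ := par_exp (δ0 / 2) η (by linarith) (by linarith) hη hη6
  obtain ⟨n3, h3'⟩ := par_fam δ0 hδ0 hδ01
  obtain ⟨ρ, n2, hρ, h2⟩ := par_num2 ε η hε hη
  refine ⟨ρ, max (max n1 n2) (max n3 1), hρ, fun n hn 𝓗 h𝓗 => ?_⟩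
  have hn1 : n1 ≤ n := le_trans (le_trans (le_max_left _ _) (le_max_left _ _)) hn
  have hn2 : n2 ≤ n := le_trans (le_trans (le_max_right _ _) (le_max_left _ _)) hn
  have hn3 : n3 ≤ n := le_trans (le_trans (le_max_left _ _) (le_max_right _ _)) hn
  have hn0 : 0 < n := lt_of_lt_of_le Nat.one_pos
    (le_trans (le_trans (le_max_right _ _) (le_max_right _ _)) hn)
  obtain ⟨C, hC, hCr, hCc⟩ := h2 n hn2
  set l := Nat.clog 2 n with hl
  set t0 := ⌊η * n⌋₊ with ht0
  set s' : ℕ := ⌊(2 : ℝ) ^ ((1 - δ0) * n)⌋₊ with hs'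
  have hpos : (0 : ℝ) ≤ (2 : ℝ) ^ ((1 - δ0) * n) := Real.rpow_nonneg (by norm_num) _
  have hs'le : (s' : ℝ) ≤ 2 ^ ((1 - δ0) * n) := Nat.floor_le hpos
  obtain ⟨S0, hS0c, hS0⟩ := Fml.exists_finset (ι := Fin n × Fin n) s'
  set S : Finset ((Fin n → (Fin (n - l) → Bool)) → Bool) :=
    S0.image (fun F w => F (inpC n l w)) ∪ 𝓗.image (fun F w => F (inpC n l w)) with hS
  have h𝓗' : 𝓗.card ≤ 2 ^ (s' + 1) := by
    have e1 : (𝓗.card : ℝ) ≤ (2 : ℝ) ^ ((s' + 1 : ℕ) : ℝ) := by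
      refine le_trans h𝓗 (Real.rpow_le_rpow_of_exponent_le (by norm_num) ?_)
      have e2 : (2 : ℝ) ^ ((1 - δ0) * n) < (s' : ℝ) + 1 := Nat.lt_floor_add_one _
      have e3 : (2 : ℝ) ^ ((1 - δ) * (n : ℝ)) ≤ 2 ^ ((1 - δ0) * n) := by
        refine Real.rpow_le_rpow_of_exponent_le (by norm_num) ?_
        have : (0 : ℝ) ≤ n := Nat.cast_nonneg n
        nlinarith
      push_cast
      linarith
    rw [Real.rpow_natCast] at e1
    exact_mod_cast e1
  have hSc : S.card ≤ (2 * n ^ 2 + 3) ^ (2 * (s' + (s' + 1))) := by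
    have e1 : S.card ≤ (2 * n ^ 2 + 3) ^ (2 * s') + 2 ^ (s' + 1) := by
      refine le_trans (card_union_le _ _) (Nat.add_le_add ?_ ?_)
      · refine le_trans Finset.card_image_le (le_trans hS0c ?_)
        rw [Fintype.card_prod, Fintype.card_fin, ← pow_two]
      · exact le_trans Finset.card_image_le h𝓗'
    have e2 : 1 + 2 ^ (s' + 1) ≤ (2 * n ^ 2 + 3) ^ (2 * (s' + 1)) := by
      calc 1 + 2 ^ (s' + 1) ≤ 2 ^ (s' + 1) + 2 ^ (s' + 1) :=
            Nat.add_le_add_right Nat.one_le_two_pow _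
        _ = 2 ^ (s' + 2) := by rw [pow_succ 2 (s' + 1)]; ring
        _ ≤ 2 ^ (2 * (s' + 1)) := Nat.pow_le_pow_right (by norm_num) (by omega)
        _ ≤ (2 * n ^ 2 + 3) ^ (2 * (s' + 1)) := Nat.pow_le_pow_left (by omega) _
    have e3 : 1 ≤ (2 * n ^ 2 + 3) ^ (2 * s') := Nat.one_le_pow _ _ (by omega)
    rw [Nat.mul_add 2 s' (s' + 1), pow_add]
    calc S.card ≤ (2 * n ^ 2 + 3) ^ (2 * s') + 2 ^ (s' + 1) := e1
      _ ≤ (2 * n ^ 2 + 3) ^ (2 * s') * (1 + 2 ^ (s' + 1)) := by nlinarith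
      _ ≤ _ := Nat.mul_le_mul_left _ e2
  have hSm : ∀ φ : Fml (Fin n × Fin n), φ.size ≤ s' → (fun w => φ.eval (inpC n l w)) ∈ S := by
    intro φ hφ
    rw [hS, mem_union, mem_image]
    exact Or.inl ⟨fun x => φ.eval x, hS0 φ hφ, rfl⟩
  have hSm' : ∀ φ ∈ 𝓗, (fun w => φ (inpC n l w)) ∈ S := by
    intro φ hφ
    rw [hS, mem_union]
    exact Or.inr (mem_image.2 ⟨φ, hφ, rfl⟩)
  have hcardZ : Fintype.card (Fin (n - l) → Bool) = 2 ^ (n - l) := by
    rw [Fintype.card_fun, Fintype.card_bool, Fintype.card_fin]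
  obtain ⟨hln, ht02, hq, hexp⟩ := h1 n hn1 (s' + (s' + 1)) S.card
    (4 * n ^ 2 + 8 * n) (h3' n hn3) hSc (le_refl _)
  have hnl : n ≤ 2 ^ l := Nat.le_pow_clog (by norm_num) n
  obtain ⟨G, hG⟩ := exists_hits S (2 ^ t0) (2 ^ (3 * t0)) (4 * n ^ 2 + 8 * n) hn0
    Nat.one_le_two_pow (by rw [hcardZ]; exact hq) (by
      refine lt_of_le_of_lt ?_ hexp
      have hop := ops_card S (2 ^ t0)
      have hfc := fam_card S (2 ^ t0) (4 * n ^ 2 + 8 * n)
      rw [hcardZ] at hop
      have h3 : ((Fam S (2 ^ t0) (4 * n ^ 2 + 8 * n)).card : ℝ) ≤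
          (1 + ((n : ℝ) * 2 ^ (n - l) + 2 * S.card + n + 2 ^ n + 2 ^ n * (2 ^ (n - l)) ^ n)) ^
            (4 * n ^ 2 + 8 * n) := by
        refine le_trans (Nat.cast_le.mpr hfc) ?_
        push_cast
        refine pow_le_pow_left₀ (by positivity) ?_ _
        have := (Nat.cast_le (α := ℝ)).mpr hop
        push_cast at this
        linarith
      rw [hcardZ]
      push_cast
      gcongr)
  have hG' : ∀ t ≤ 4 * n ^ 2 + 8 * n, Hits G (2 ^ (3 * t0)) (Fam S (2 ^ t0) t) :=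
    fun t ht E hE => hG E (fam_mono S _ ht hE)
  have hgi := fun w i => gC_inpC hln hnl G w i
  have hval : ∀ b : Bool, ∃ x, gC n l G x = b := by
    intro b
    obtain ⟨w, -, hw⟩ := hG' 0 (Nat.zero_le _) univ (fam_univ S _) univ_nonempty ∅
      (dense_univ _ Nat.one_le_two_pow) (fun _ => b)
    exact ⟨blk (inpC n l w) ⟨0, hn0⟩, by rw [hgi]; exact hw _ (notMem_empty _)⟩
  have hnn : (0 : ℝ) ≤ n := Nat.cast_nonneg n
  set D : ℕ := ⌊(1 - ε) * n⌋₊ with hD
  have hDs : 2 ^ D ≤ s' := by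
    rw [hs']
    apply Nat.le_floor
    push_cast
    rw [← Real.rpow_natCast]
    refine Real.rpow_le_rpow_of_exponent_le (by norm_num) ?_
    rcases le_total ε 1 with h | h
    · have h7 : ((D : ℕ) : ℝ) ≤ (1 - ε) * n := Nat.floor_le (mul_nonneg (by linarith) hnn)
      nlinarith
    · have h7 : D = 0 := Nat.floor_of_nonpos (mul_nonpos_of_nonpos_of_nonneg (by linarith) hnn)
      rw [h7]
      push_cast
      exact mul_nonneg (by linarith) hnn
  have ht0n : t0 ≤ n := by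
    have h8 : ((t0 : ℕ) : ℝ) ≤ η * n := Nat.floor_le (by positivity)
    have : (t0 : ℝ) ≤ n := by nlinarith
    exact_mod_cast this
  have hθθ : (2 ^ t0) ^ 2 * 4 ≤ 2 ^ (3 * t0) := by
    have h9 : (2 ^ t0) ^ 2 * 4 = 2 ^ (2 * t0 + 2) := by rw [pow_add, ← pow_mul, mul_comm t0 2]; norm_num
    rw [h9]
    exact Nat.pow_le_pow_right (by norm_num) (by omega)
  have hθ2 : 2 ≤ 2 ^ t0 := by
    calc 2 = 2 ^ 1 := by norm_num
      _ ≤ 2 ^ t0 := Nat.pow_le_pow_right (by norm_num) (by omega)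
  have hcomp : ∀ (f : (Fin n → Bool) → Bool) w,
      comp f (gC n l G) (inpC n l w) = f (fun i => G i (w i)) := by
    intro f w
    show f (fun i => gC n l G (blk (inpC n l w) i)) = _
    congr 1
    funext i
    exact hgi w i
  have hDlt : (1 - ε) * n < (D : ℝ) + 1 := Nat.lt_floor_add_one _
  have hthr := thr_ge n C
  have hst : ∀ (f : (Fin n → Bool) → Bool) (c : ℝ),
      (∀ φ : Fml (Fin n), (∀ a, φ.eval a = f a) → c - 2 ≤ φ.size) →
      St G (inpC n l) S (2 ^ t0) {x | comp f (gC n l G) x = true}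
        {y | comp f (gC n l G) y = false} ∅ univ {a | f a = true} {a | f a = false}
        (2 ^ t0) 0 0 0 c := by
    intro f c hf
    refine ⟨univ_nonempty, by simp, by simp, by simp, ?_, ?_, fam_univ S _,
      dense_univ _ (by omega), ?_, ?_⟩
    · intro w _ a ha h
      show comp f (gC n l G) (inpC n l w) = true
      rw [hcomp, show (fun i => G i (w i)) = a from funext h]
      exact ha
    · intro w _ b hb' h
      show comp f (gC n l G) (inpC n l w) = false
      rw [hcomp, show (fun i => G i (w i)) = b from funext h]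
      exact hb'
    · simp
    · intro φ h1 h0
      refine hf φ (fun a => ?_)
      cases hfa : f a with
      | true => exact h1 a hfa
      | false => exact h0 a hfa
  refine ⟨gC n l G, ⟨hval true, hval false⟩, ?_, ?_⟩
  · intro f P k T Q v hP hQ hv hM hf
    obtain ⟨φ4, hφ4, hφ4s⟩ := exists_fml4 hn0 f
    have hkT2 : (k : ℝ) + T ≤ 2 * n := by
      have h4 := hf φ4 hφ4
      have h5 : (φ4.size : ℝ) ≤ (2 : ℝ) ^ ((2 * n : ℕ) : ℝ) := by
        rw [Real.rpow_natCast, pow_mul]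
        exact_mod_cast hφ4s
      have h6 := (Real.rpow_le_rpow_left_iff (by norm_num : (1 : ℝ) < 2)).1 (le_trans h4 h5)
      push_cast at h6
      nlinarith
    have hT2 : T ≤ 2 * n := by
      have : (T : ℝ) ≤ (2 * n : ℕ) := by
        push_cast
        have : (0 : ℝ) ≤ k := Nat.cast_nonneg k
        linarith
      exact_mod_cast this
    obtain ⟨hQn, hvn, hpow⟩ := hCr Q T v hQ hT2 hv
    have hCc := hCc v hv
    have hmain := adv_depth (S := S) (θ := 2 ^ t0) (θh := 2 ^ (3 * t0)) (tm := 4 * n ^ 2 + 8 * n)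
      (C := C) (D := D) (s' := s') (Q := Q) (T := T) (v := v) (g := gC n l G) (G := G)
      (inp := inpC n l) hn0 hθ2 hG' (by linarith) hC hgi
      (fun w w' i h => blk_inpC w w' i h) hSm hSm' hDs (Φ := 2 ^ v * (4 * thr n C)) (le_refl _)
      k ∅ [] P _ _ ∅ univ {a | f a = true} {a | f a = false} 0 0 0 hM (Finset.Subset.refl _) hP
      (Nat.zero_le _) (by simp) (hst f _ (by
        intro φ hφ
        refine le_trans ?_ (hf φ hφ)
        unfold cp thr
        rw [Nat.sub_zero, card_empty, Nat.sub_zero]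
        have h10 : (2 : ℝ) ^ ((k : ℝ) + T + ε * n) = 2 ^ (k + T) * 2 ^ (ε * n) := by
          rw [Real.rpow_add (by norm_num), ← Nat.cast_add, Real.rpow_natCast]
        rw [h10, mul_assoc]
        have := mul_le_mul_of_nonneg_left hCc (show (0 : ℝ) ≤ 2 ^ (k + T) by positivity)
        linarith)) (by
        simp only [card_empty, List.length_nil, Nat.sub_zero, Nat.zero_add]
        nlinarith)
      (by
        simp only [card_empty, List.length_nil, Nat.sub_zero, Nat.zero_add]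
        exact hpow)
    have h13 : (k : ℝ) + D + 1 ≤ P.depth := by exact_mod_cast hmain
    linarith
  · intro f P T Q v c hfc hP hQ hv hT hM hf hc0
    obtain ⟨hQn, hvn, hpow⟩ := hCr Q T v hQ (by omega) hv
    have hCc := hCc v hv
    have hK : (0 : ℝ) < 2 ^ T * (8 * (n : ℝ)) ^ C := by
      have : (0 : ℝ) < n := by exact_mod_cast hn0
      positivity
    have hmain := adv_size (S := S) (θ := 2 ^ t0) (θh := 2 ^ (3 * t0)) (tm := 4 * n ^ 2 + 8 * n)
      (C := C) (D := D) (s' := s') (Q := Q) (T := T) (v := v) (g := gC n l G) (G := G)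
      (inp := inpC n l) hn0 hθ2 hG' (by linarith) hC hgi
      (fun w w' i h => blk_inpC w w' i h) hSm hSm' hDs (Ψ := 2 ^ v * (4 * thr n C)) (le_refl _)
      P P.depth ∅ [] _ _ ∅ univ {a | f a = true} {a | f a = false} 0 0 0
      (c / (2 ^ T * (8 * (n : ℝ)) ^ C)) (le_refl _) hM (Finset.Subset.refl _) hP
      (Nat.zero_le _) (by simp) hfc.1 hfc.2 (hst f _ (by
        intro φ hφ
        have := hf φ hφ
        unfold cp
        rw [Nat.sub_zero, card_empty, Nat.sub_zero, mul_div_cancel₀ _ hK.ne']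
        linarith)) (by
        simp only [card_empty, List.length_nil, Nat.sub_zero, Nat.zero_add]
        nlinarith)
      (by
        simp only [card_empty, List.length_nil, Nat.sub_zero, Nat.zero_add]
        exact hpow)
    rw [div_mul_eq_mul_div, div_le_iff₀ hK] at hmain
    have h20 : (2 : ℝ) ^ ((1 - ε) * n) ≤ 2 * 2 ^ D := by
      have h21 : (2 : ℝ) ^ ((1 - ε) * (n : ℝ)) ≤ 2 ^ ((D : ℝ) + 1) :=
        Real.rpow_le_rpow_of_exponent_le (by norm_num) hDlt.le
      rw [Real.rpow_add (by norm_num), Real.rpow_natCast, Real.rpow_one] at h21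
      linarith
    have h22 : (P.leaves : ℝ) * (2 ^ v * (4 * thr n C)) * (2 ^ T * (8 * (n : ℝ)) ^ C) ≤
        2 ^ T * 2 ^ (ε * n) * P.leaves := by
      have h23 := mul_le_mul_of_nonneg_left hCc
        (show (0 : ℝ) ≤ 2 ^ T * P.leaves by positivity)
      unfold thr
      linarith
    calc c * 2 ^ ((1 - ε) * (n : ℝ)) ≤ c * (2 * 2 ^ D) := mul_le_mul_of_nonneg_left h20 hc0
      _ = 2 * (c * 2 ^ D) := by ring
      _ ≤ 2 * ((P.leaves : ℝ) * (2 ^ v * (4 * thr n C)) * (2 ^ T * (8 * (n : ℝ)) ^ C)) := by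
        linarith
      _ ≤ _ := by linarith

end MP979
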