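import Pool.Agent.Lib.MP_979eef_lc.Q.Defs2

/-!
# MP_979eef_lc, protocols, module Upp: the usual protocol is in the class
-/

set_option autoImplicit false

namespace MP979

open Finset

theorem upp_block {n : ℕ} (i : Fin n) (ψ : Fml (Fin n)) (X Y : Set (Fin n × Fin n → Bool))
    (hX : ∀ x ∈ X, ψ.eval (blk x i) = true) (hY : ∀ y ∈ Y, ψ.eval (blk y i) = false) :
    ∃ P : Prot (Fin n × Fin n), InBlocks {i} P ∧ P.depth ≤ ψ.depth ∧ P.leaves ≤ ψ.size ∧
      P.Correct X Y := by
  induction ψ generalizing X Y with
  | lit j b =>
    refine ⟨.leaf (i, j), mem_singleton_self _, le_refl _, le_refl _, ?_⟩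
    intro x hx y hy
    have h1 := hX x hx
    have h2 := hY y hy
    simp only [Fml.eval, blk] at h1 h2
    simp only [Prot.run]
    intro h3
    rw [h3, h2] at h1
    exact absurd h1 (by decide)
  | and p q hp hq =>
    obtain ⟨P, p0, p1, p3, p2⟩ := hp X {y | y ∈ Y ∧ p.eval (blk y i) = false}
      (fun x hx => by
        have := hX x hx
        simp only [Fml.eval, Bool.and_eq_true] at this
        exact this.1) (fun y hy => hy.2)
    obtain ⟨Q, q0, q1, q3, q2⟩ := hq X {y | y ∈ Y ∧ p.eval (blk y i) = true}
      (fun x hx => by
        have := hX x hx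
        simp only [Fml.eval, Bool.and_eq_true] at this
        exact this.2) (fun y hy => by
        have := hY y hy.1
        have h2 : p.eval (blk y i) = true := hy.2
        simpa [Fml.eval, h2] using this)
    refine ⟨.bob (fun y => p.eval (blk y i)) Q P, ⟨q0, p0⟩, ?_, ?_, ?_⟩
    · simp only [Prot.depth, Fml.depth]; omega
    · simp only [Prot.leaves, Fml.size]; omega
    · intro x hx y hy
      cases hm : p.eval (blk y i) with
      | true =>
        have := q2 x hx y ⟨hy, hm⟩
        simpa [Prot.run, hm] using this
      | false =>
        have := p2 x hx y ⟨hy, hm⟩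
        simpa [Prot.run, hm] using this
  | or p q hp hq =>
    obtain ⟨P, p0, p1, p3, p2⟩ := hp {x | x ∈ X ∧ p.eval (blk x i) = true} Y
      (fun x hx => hx.2) (fun y hy => by
        have := hY y hy
        simp only [Fml.eval, Bool.or_eq_false_iff] at this
        exact this.1)
    obtain ⟨Q, q0, q1, q3, q2⟩ := hq {x | x ∈ X ∧ p.eval (blk x i) = false} Y
      (fun x hx => by
        have := hX x hx.1
        have h2 : p.eval (blk x i) = false := hx.2
        simpa [Fml.eval, h2] using this) (fun y hy => by
        have := hY y hy
        simp only [Fml.eval, Bool.or_eq_false_iff] at this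
        exact this.2)
    refine ⟨.alice (fun x => p.eval (blk x i)) P Q, ⟨p0, q0⟩, ?_, ?_, ?_⟩
    · simp only [Prot.depth, Fml.depth]; omega
    · simp only [Prot.leaves, Fml.size]; omega
    · intro x hx y hy
      cases hm : p.eval (blk x i) with
      | true =>
        have := p2 x ⟨hx, hm⟩ y hy
        simpa [Prot.run, hm] using this
      | false =>
        have := q2 x ⟨hx, hm⟩ y hy
        simpa [Prot.run, hm] using this

theorem simple_inBlock {n : ℕ} {g : (Fin n → Bool) → Bool} {k : ℕ} {j : Fin n}
    {P : Prot (Fin n × Fin n)} (h : InBlocks {j} P) : Simple g ∅ 0 0 1 k ∅ [] P := by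
  cases k with
  | zero => trivial
  | succ k =>
    cases P with
    | leaf i => trivial
    | alice m P P' => exact Or.inl ⟨{j}, by simp, h⟩
    | bob m P P' => exact Or.inl ⟨{j}, by simp, h⟩

/-- The protocol which first solves the game of `f` on the values of `g`, and then the game of `g`,
is in the class: no block and no function is opened. -/
theorem upp_main {n : ℕ} (g : (Fin n → Bool) → Bool) (ψ : Fml (Fin n))
    (hψ : ∀ x, ψ.eval x = g x) (φ : Fml (Fin n)) (X Y : Set (Fin n × Fin n → Bool))
    (hX : ∀ x ∈ X, φ.eval (fun i => g (blk x i)) = true)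
    (hY : ∀ y ∈ Y, φ.eval (fun i => g (blk y i)) = false) :
    ∃ P : Prot (Fin n × Fin n), P.depth ≤ φ.depth + ψ.depth ∧ P.leaves ≤ φ.size * ψ.size ∧
      P.Correct X Y ∧ ∀ k, Simple g ∅ 0 0 1 k ∅ [] P := by
  induction φ generalizing X Y with
  | lit i b =>
    cases b with
    | true =>
      obtain ⟨P, h0, h1, h2, h3⟩ := upp_block i ψ X Y
        (fun x hx => by
          have := hX x hx
          simp only [Fml.eval, beq_iff_eq] at this
          rw [hψ]; exact this)
        (fun y hy => by
          have := hY y hy
          simp only [Fml.eval] at this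
          rw [hψ]
          revert this
          cases g (blk y i) <;> simp)
      exact ⟨P, by simp only [Fml.depth]; omega, by simp only [Fml.size]; omega, h3,
        fun k => simple_inBlock h0⟩
    | false =>
      obtain ⟨P, h0, h1, h2, h3⟩ := upp_block i ψ.dual X Y
        (fun x hx => by
          have := hX x hx
          simp only [Fml.eval, beq_iff_eq] at this
          rw [Fml.eval_dual, hψ, this]; rfl)
        (fun y hy => by
          have := hY y hy
          simp only [Fml.eval] at this
          rw [Fml.eval_dual, hψ]
          revert this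
          cases g (blk y i) <;> simp)
      rw [Fml.depth_dual] at h1
      rw [Fml.size_dual] at h2
      exact ⟨P, by simp only [Fml.depth]; omega, by simp only [Fml.size]; omega, h3,
        fun k => simple_inBlock h0⟩
  | and p q hp hq =>
    obtain ⟨P, p1, p3, p2, p4⟩ := hp X {y | y ∈ Y ∧ p.eval (fun i => g (blk y i)) = false}
      (fun x hx => by
        have := hX x hx
        simp only [Fml.eval, Bool.and_eq_true] at this
        exact this.1) (fun y hy => hy.2)
    obtain ⟨Q, q1, q3, q2, q4⟩ := hq X {y | y ∈ Y ∧ p.eval (fun i => g (blk y i)) = true}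
      (fun x hx => by
        have := hX x hx
        simp only [Fml.eval, Bool.and_eq_true] at this
        exact this.2) (fun y hy => by
        have := hY y hy.1
        have h2 : p.eval (fun i => g (blk y i)) = true := hy.2
        simpa [Fml.eval, h2] using this)
    refine ⟨.bob (fun y => p.eval (fun i => g (blk y i))) Q P, ?_, ?_, ?_, ?_⟩
    · simp only [Prot.depth, Fml.depth]; omega
    · simp only [Prot.leaves, Fml.size]
      rw [add_mul]
      omega
    · intro x hx y hy
      cases hm : p.eval (fun i => g (blk y i)) with
      | true =>
        have := q2 x hx y ⟨hy, hm⟩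
        simpa [Prot.run, hm] using this
      | false =>
        have := p2 x hx y ⟨hy, hm⟩
        simpa [Prot.run, hm] using this
    · intro k
      cases k with
      | zero => trivial
      | succ k =>
        refine Or.inr ⟨∅, [], Subset.refl _, by simp, by simp, by simp, ?_, q4 k, p4 k⟩
        intro x y h _ _
        have : (fun i => g (blk x i)) = fun i => g (blk y i) := funext h
        simp only [this]
  | or p q hp hq =>
    obtain ⟨P, p1, p3, p2, p4⟩ := hp {x | x ∈ X ∧ p.eval (fun i => g (blk x i)) = true} Y
      (fun x hx => hx.2) (fun y hy => by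
        have := hY y hy
        simp only [Fml.eval, Bool.or_eq_false_iff] at this
        exact this.1)
    obtain ⟨Q, q1, q3, q2, q4⟩ := hq {x | x ∈ X ∧ p.eval (fun i => g (blk x i)) = false} Y
      (fun x hx => by
        have := hX x hx.1
        have h2 : p.eval (fun i => g (blk x i)) = false := hx.2
        simpa [Fml.eval, h2] using this) (fun y hy => by
        have := hY y hy
        simp only [Fml.eval, Bool.or_eq_false_iff] at this
        exact this.2)
    refine ⟨.alice (fun x => p.eval (fun i => g (blk x i))) P Q, ?_, ?_, ?_, ?_⟩
    · simp only [Prot.depth, Fml.depth]; omega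
    · simp only [Prot.leaves, Fml.size]
      rw [add_mul]
      omega
    · intro x hx y hy
      cases hm : p.eval (fun i => g (blk x i)) with
      | true =>
        have := p2 x ⟨hx, hm⟩ y hy
        simpa [Prot.run, hm] using this
      | false =>
        have := q2 x ⟨hx, hm⟩ y hy
        simpa [Prot.run, hm] using this
    · intro k
      cases k with
      | zero => trivial
      | succ k =>
        refine Or.inr ⟨∅, [], Subset.refl _, by simp, by simp, by simp, ?_, p4 k, q4 k⟩
        intro x y h _ _
        have : (fun i => g (blk x i)) = fun i => g (blk y i) := funext h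
        simp only [this]

end MP979
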