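import Pool.Agent.Lib.MP_979eef_lc.Q.Fin2
import Pool.Agent.Lib.MP_979eef_lc.Q.Upp

/-!
# MP_979eef_lc, protocols, module Fin3: final form
-/

set_option autoImplicit false

namespace MP979

open Finset

theorem simple_cap {n : ℕ} {g : (Fin n → Bool) → Bool}
    {𝓗 : Finset ((Fin n × Fin n → Bool) → Bool)} {T Q v : ℕ} (k : ℕ) :
    ∀ (O : Finset (Fin n)) (H : List ((Fin n × Fin n → Bool) → Bool)) (P : Prot (Fin n × Fin n)),
      Simple g 𝓗 T Q v k O H P → Simple g 𝓗 (min T n) Q v k O H P := by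
  induction k with
  | zero => intro O H P _; trivial
  | succ k ih =>
    intro O H P h
    have hcap : ∀ I : Finset (Fin n), I.card ≤ T → I.card ≤ min T n := fun I hI =>
      le_min hI (by simpa using card_le_univ I)
    cases P with
    | leaf i => trivial
    | alice m P P' =>
      rcases h with h | ⟨I, L, h1, h2, h3, h4, h5, h6, h7⟩
      · exact Or.inl h
      · exact Or.inr ⟨I, L, h1, hcap I h2, h3, h4, h5, ih _ _ _ h6, ih _ _ _ h7⟩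
    | bob m P P' =>
      rcases h with h | ⟨I, L, h1, h2, h3, h4, h5, h6, h7⟩
      · exact Or.inl h
      · exact Or.inr ⟨I, L, h1, hcap I h2, h3, h4, h5, ih _ _ _ h6, ih _ _ _ h7⟩

theorem fin3 (δ ε : ℝ) (hδ : 0 < δ) (hε : 0 < ε) : ∃ (ρ : ℝ) (n₀ : ℕ), 0 < ρ ∧ ∀ n ≥ n₀,
    (∀ 𝓗 : Finset ((Fin n × Fin n → Bool) → Bool),
      (𝓗.card : ℝ) ≤ 2 ^ ((2 : ℝ) ^ ((1 - δ) * n)) →
      ∃ g : (Fin n → Bool) → Bool, NonConst g ∧
      (∀ (f : (Fin n → Bool) → Bool) (P : Prot (Fin n × Fin n)) (k T Q v : ℕ),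
        P.Solves (comp f g) → (Q : ℝ) * Real.log n ≤ ρ * n ^ 2 → (v : ℝ) ≤ ρ * n →
        Simple g 𝓗 T Q v k ∅ [] P →
        (∀ φ : Fml (Fin n), (∀ a, φ.eval a = f a) → (2 : ℝ) ^ (k + T + ε * n) ≤ φ.size) →
        k + (1 - ε) * n ≤ P.depth) ∧
      ∀ (f : (Fin n → Bool) → Bool) (P : Prot (Fin n × Fin n)) (T Q v : ℕ) (c : ℝ),
        NonConst f → P.Solves (comp f g) → (Q : ℝ) * Real.log n ≤ ρ * n ^ 2 →
        (v : ℝ) ≤ ρ * n → Simple g 𝓗 T Q v P.depth ∅ [] P →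
        (∀ φ : Fml (Fin n), (∀ a, φ.eval a = f a) → c ≤ φ.size) →
        c * 2 ^ ((1 - ε) * n) ≤ 2 ^ T * P.leaves) ∧
    ∃ f : (Fin n → Bool) → Bool, NonConst f ∧
      ∀ φ : Fml (Fin n), (∀ a, φ.eval a = f a) → (2 : ℝ) ^ ((1 - ε) * n) ≤ φ.size := by
  obtain ⟨ρ, n1, hρ, h1⟩ := fin2_core δ (ε / 4) hδ (by linarith)
  obtain ⟨n2, h2⟩ := exists_hard_fun ε hε
  refine ⟨ρ, max (max n1 n2) ⌈2 / ε⌉₊, hρ, fun n hn => ?_⟩
  obtain ⟨f0, hf0, hf0s⟩ := h2 n (le_trans (le_trans (le_max_right _ _) (le_max_left _ _)) hn)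
  have hnn : (0 : ℝ) ≤ n := Nat.cast_nonneg n
  have hn3 : 2 ≤ ε * n := by
    have h7 : 2 / ε ≤ n := le_trans (Nat.le_ceil _)
      (by exact_mod_cast le_trans (le_max_right _ _) hn)
    rw [div_le_iff₀ hε] at h7
    linarith
  refine ⟨fun 𝓗 h𝓗 => ?_, f0, hf0, hf0s⟩
  obtain ⟨g, hg, hA, hB⟩ := h1 n (le_trans (le_trans (le_max_left _ _) (le_max_left _ _)) hn) 𝓗 h𝓗
  refine ⟨g, hg, ?_, ?_⟩
  · intro f P k T Q v hP hQ hv hM hφ
    have h3 := hA f P k T Q v hP hQ hv hM (fun φ h => le_trans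
      (Real.rpow_le_rpow_of_exponent_le (by norm_num) (by nlinarith)) (hφ φ h))
    nlinarith
  · intro f P T Q v c hfc hP hQ hv hM hφ
    rcases lt_or_ge c 0 with hc | hc
    · have h5 : c * 2 ^ ((1 - ε) * (n : ℝ)) ≤ 0 :=
        mul_nonpos_of_nonpos_of_nonneg hc.le (Real.rpow_nonneg (by norm_num) _)
      exact le_trans h5 (by positivity)
    · have h3 := hB f P (min T n) Q v c hfc hP hQ hv (min_le_right _ _) (simple_cap _ _ _ _ hM) hφ hc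
      have h4 : (2 : ℝ) ^ (min T n) ≤ 2 ^ T :=
        pow_le_pow_right₀ (by norm_num) (min_le_left _ _)
      have hL : (0 : ℝ) ≤ P.leaves := Nat.cast_nonneg _
      set x : ℝ := (2 : ℝ) ^ ((1 - ε) * (n : ℝ)) with hx
      have e1 : (2 : ℝ) ^ ((1 - ε / 4) * (n : ℝ)) = x * 2 ^ (3 * ε / 4 * n) := by
        rw [hx, ← Real.rpow_add (by norm_num)]
        congr 1
        ring
      have e2 : 2 * (2 : ℝ) ^ (ε / 4 * (n : ℝ)) ≤ 2 ^ (3 * ε / 4 * n) := by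
        have e3 : 2 * (2 : ℝ) ^ (ε / 4 * (n : ℝ)) = 2 ^ (1 + ε / 4 * (n : ℝ)) := by
          rw [Real.rpow_add (by norm_num), Real.rpow_one]
        rw [e3]
        exact Real.rpow_le_rpow_of_exponent_le (by norm_num) (by nlinarith)
      have e4 : (0 : ℝ) < 2 ^ (3 * ε / 4 * (n : ℝ)) := Real.rpow_pos_of_pos (by norm_num) _
      have hx0 : 0 ≤ x := Real.rpow_nonneg (by norm_num) _
      rw [e1] at h3
      have e5 : c * x * 2 ^ (3 * ε / 4 * (n : ℝ)) ≤ (2 ^ T * P.leaves) * 2 ^ (3 * ε / 4 * n) := by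
        calc c * x * 2 ^ (3 * ε / 4 * (n : ℝ)) = c * (x * 2 ^ (3 * ε / 4 * (n : ℝ))) := by ring
          _ ≤ 2 * (2 ^ (min T n) * 2 ^ (ε / 4 * (n : ℝ)) * P.leaves) := h3
          _ = (2 ^ (min T n) * P.leaves) * (2 * 2 ^ (ε / 4 * (n : ℝ))) := by ring
          _ ≤ (2 ^ T * P.leaves) * 2 ^ (3 * ε / 4 * n) :=
            mul_le_mul (mul_le_mul_of_nonneg_right h4 hL) e2 (by positivity) (by positivity)
      exact le_of_mul_le_mul_right e5 e4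

/-- The functions with formulas of size at most `2 ^ ((1 - 2 δ) n)` form an allowed family. -/
theorem fam_small (δ : ℝ) (hδ : 0 < δ) : ∃ n₀ : ℕ, ∀ n ≥ n₀,
    ∃ 𝓗 : Finset ((Fin n × Fin n → Bool) → Bool),
      (𝓗.card : ℝ) ≤ 2 ^ ((2 : ℝ) ^ ((1 - δ) * n)) ∧
      ∀ φ : Fml (Fin n × Fin n), (φ.size : ℝ) ≤ 2 ^ ((1 - 2 * δ) * n) → φ.eval ∈ 𝓗 := by
  have hr : (1 : ℝ) < 2 ^ δ := Real.one_lt_rpow (by norm_num) hδ
  have h1 := (isLittleO_pow_const_const_pow_of_one_lt (R := ℝ) 1 hr).def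
    (c := 1 / 2) (by norm_num)
  obtain ⟨N, hN⟩ := Filter.eventually_atTop.1 h1
  refine ⟨max N 7, fun n hn => ?_⟩
  have hnN : N ≤ n := (le_max_left _ _).trans hn
  have hn7 : 7 ≤ n := (le_max_right _ _).trans hn
  have h2 : 2 * (n : ℝ) ≤ 2 ^ (δ * n) := by
    have h3 := hN n hnN
    rw [Real.norm_of_nonneg (by positivity), Real.norm_of_nonneg (by positivity),
      ← Real.rpow_natCast ((2 : ℝ) ^ δ) n, ← Real.rpow_mul (by norm_num), pow_one] at h3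
    linarith
  have hbase : 2 * n ^ 2 + 3 ≤ 2 ^ n := by
    have h7 : ∀ m : ℕ, 7 ≤ m → 2 * m ^ 2 + 3 ≤ 2 ^ m := by
      intro m hm
      induction m, hm using Nat.le_induction with
      | base => norm_num
      | succ m hm ih =>
        rw [pow_succ 2 m]
        nlinarith
    exact h7 n hn7
  set X : ℝ := (2 : ℝ) ^ ((1 - 2 * δ) * n) with hX
  have hX0 : 0 ≤ X := Real.rpow_nonneg (by norm_num) _
  obtain ⟨𝓗, hc, hm⟩ := Fml.exists_finset (ι := Fin n × Fin n) ⌊X⌋₊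
  rw [Fintype.card_prod, Fintype.card_fin, ← pow_two] at hc
  refine ⟨𝓗, ?_, fun φ hφ => hm φ (Nat.le_floor hφ)⟩
  have h4 : 𝓗.card ≤ 2 ^ (n * (2 * ⌊X⌋₊)) := by
    rw [pow_mul]
    exact le_trans hc (Nat.pow_le_pow_left hbase _)
  have h5 : (𝓗.card : ℝ) ≤ (2 : ℝ) ^ ((n * (2 * ⌊X⌋₊) : ℕ) : ℝ) := by
    rw [Real.rpow_natCast]
    exact_mod_cast h4
  refine le_trans h5 (Real.rpow_le_rpow_of_exponent_le (by norm_num) ?_)
  have h6 : (2 : ℝ) ^ ((1 - δ) * (n : ℝ)) = 2 ^ (δ * n) * X := by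
    rw [hX, ← Real.rpow_add (by norm_num)]
    congr 1
    ring
  rw [h6]
  push_cast
  have h7 : ((⌊X⌋₊ : ℕ) : ℝ) ≤ X := Nat.floor_le hX0
  have hn0 : (0 : ℝ) ≤ n := Nat.cast_nonneg n
  calc (n : ℝ) * (2 * (⌊X⌋₊ : ℝ)) = 2 * n * ⌊X⌋₊ := by ring
    _ ≤ 2 * n * X := mul_le_mul_of_nonneg_left h7 (by positivity)
    _ ≤ 2 ^ (δ * n) * X := mul_le_mul_of_nonneg_right h2 hX0

end MP979
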