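import Pool.Agent.Lib.MP_979eef_lc.Q.Cel

/-!
# MP_979eef_lc, protocols, module Goo: a popular cell with a dense remainder
`good_exists`: among the pairs `(J, ζ)` with `J` disjoint from `F` and `|R| θ ^ |J| ≤ |cell R J ζ| q ^ |J|` (`J = ∅` is one) take one with `|J|` maximal. If `J'` (disjoint from
`F ∪ J`), `ζ'` violates the density of `cell R J ζ` then `J' ≠ ∅` and `(J ∪ J', ζ on J, ζ' on J')` is a pair with a larger set.
-/

set_option autoImplicit false

namespace MP979

open Finset

variable {n : ℕ} {Z : Type} [Fintype Z] [DecidableEq Z]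

private theorem goo_empty (R : Finset (Fin n → Z)) (ζ : Fin n → Z) : cell R ∅ ζ = R := by
  unfold cell
  rw [filter_eq_self]
  intro w _ i hi
  exact absurd hi (notMem_empty i)

private theorem goo_union (R : Finset (Fin n → Z)) {J J' : Finset (Fin n)} (h : Disjoint J' J)
    (ζ ζ' : Fin n → Z) :
    cell R (J ∪ J') (fun i => if i ∈ J then ζ i else ζ' i) = cell (cell R J ζ) J' ζ' := by
  unfold cell
  ext w
  rw [mem_filter, mem_filter, mem_filter]
  constructor
  · rintro ⟨hw, h1⟩
    refine ⟨⟨hw, fun i hi => ?_⟩, fun i hi => ?_⟩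
    · have h2 : w i = if i ∈ J then ζ i else ζ' i := h1 i (mem_union_left _ hi)
      rwa [if_pos hi] at h2
    · have h2 : w i = if i ∈ J then ζ i else ζ' i := h1 i (mem_union_right _ hi)
      have h3 : i ∉ J := fun h4 => (disjoint_left.mp h) hi h4
      rwa [if_neg h3] at h2
  · rintro ⟨⟨hw, h1⟩, h2⟩
    refine ⟨hw, fun i hi => ?_⟩
    show w i = if i ∈ J then ζ i else ζ' i
    by_cases h3 : i ∈ J
    · rw [if_pos h3]
      exact h1 i h3
    · rw [if_neg h3]
      rcases mem_union.mp hi with h4 | h4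
      · exact absurd h4 h3
      · exact h2 i h4

theorem good_exists {θ : ℕ} (hθ : 1 ≤ θ) (F : Finset (Fin n)) {R : Finset (Fin n → Z)}
    (hR : R.Nonempty) : ∃ c, GoodCell θ F R c := by
  classical
  set P : Finset (Finset (Fin n)) := univ.filter (fun J => Disjoint J F ∧
    ∃ ζ : Fin n → Z, R.card * θ ^ J.card ≤ (cell R J ζ).card * Fintype.card Z ^ J.card) with hP
  have h0 : (∅ : Finset (Fin n)) ∈ P := by
    rw [hP, mem_filter]
    obtain ⟨w, hw⟩ := hR
    refine ⟨mem_univ _, disjoint_empty_left _, w, ?_⟩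
    rw [goo_empty, card_empty, pow_zero, pow_zero]
  obtain ⟨J, hJ, hmax⟩ := exists_max_image P (fun J => J.card) ⟨∅, h0⟩
  rw [hP, mem_filter] at hJ
  obtain ⟨-, hJF, ζ, hζ⟩ := hJ
  refine ⟨(J, ζ), hJF, hζ, ?_⟩
  intro J' hJ' ζ'
  show (cell (cell R J ζ) J' ζ').card * Fintype.card Z ^ J'.card ≤ (cell R J ζ).card * θ ^ J'.card
  by_contra hcon
  push Not at hcon
  rw [disjoint_union_right] at hJ'
  have hne : 0 < J'.card := by
    rcases Nat.eq_zero_or_pos J'.card with h1 | h1
    · exfalso
      rw [card_eq_zero] at h1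
      subst h1
      rw [goo_empty, card_empty, pow_zero, pow_zero] at hcon
      exact absurd hcon (lt_irrefl _)
    · exact h1
  have hcard : (J ∪ J').card = J.card + J'.card := card_union_of_disjoint hJ'.2.symm
  have hmem : J ∪ J' ∈ P := by
    rw [hP, mem_filter]
    refine ⟨mem_univ _, disjoint_union_left.mpr ⟨hJF, hJ'.1⟩, fun i => if i ∈ J then ζ i else ζ' i, ?_⟩
    rw [goo_union R hJ'.2 ζ ζ', hcard, pow_add, pow_add]
    calc R.card * (θ ^ J.card * θ ^ J'.card) = R.card * θ ^ J.card * θ ^ J'.card := by ring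
      _ ≤ (cell R J ζ).card * Fintype.card Z ^ J.card * θ ^ J'.card := Nat.mul_le_mul_right _ hζ
      _ = (cell R J ζ).card * θ ^ J'.card * Fintype.card Z ^ J.card := by ring
      _ ≤ (cell (cell R J ζ) J' ζ').card * Fintype.card Z ^ J'.card * Fintype.card Z ^ J.card :=
        Nat.mul_le_mul_right _ hcon.le
      _ = (cell (cell R J ζ) J' ζ').card * (Fintype.card Z ^ J.card * Fintype.card Z ^ J'.card) := by ring
  have := hmax _ hmem
  rw [hcard] at this
  omega

end MP979
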