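import Pool.Agent.Lib.MP_979eef_lc.Q.Defs

/-!
# MP_979eef_lc, protocols, module Hd: rectangles without small separating formulas
`hard_nonempty`: if `A` is empty then `x_0 ∧ ¬ x_0` (size 2) separates; if `B` is empty `x_0 ∨ ¬ x_0`.
`hard_splitA`: otherwise formulas `φ0`, `φ1` of size `< c / 2`; `φ0 ∨ φ1` separates `A` from `B`. `hard_splitB`: AND.
`hard_open`: otherwise `φ_b` separates `(A, a_i = b)` from `(B, b_i = b)` with size `< (c - 2) / 2`; then `(x_i ∧ φ_1) ∨ (¬ x_i ∧ φ_0)` has size `< c`.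
-/

set_option autoImplicit false

namespace MP979

open Finset

variable {n : ℕ} {A B : Set (Fin n → Bool)} {c : ℝ}

theorem hard_nonempty (hn : 0 < n) (h : HardQ A B c) (hc : 2 < c) : A.Nonempty ∧ B.Nonempty := by
  constructor
  · by_contra hA
    rw [Set.not_nonempty_iff_eq_empty] at hA
    have h1 := h (Fml.and (Fml.lit ⟨0, hn⟩ true) (Fml.lit ⟨0, hn⟩ false))
      (fun a ha => by rw [hA] at ha; exact absurd ha (Set.notMem_empty a))
      (fun b _ => by simp only [Fml.eval]; cases b ⟨0, hn⟩ <;> rfl)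
    simp only [Fml.size] at h1
    norm_num at h1
    linarith
  · by_contra hB
    rw [Set.not_nonempty_iff_eq_empty] at hB
    have h1 := h (Fml.or (Fml.lit ⟨0, hn⟩ true) (Fml.lit ⟨0, hn⟩ false))
      (fun a _ => by simp only [Fml.eval]; cases a ⟨0, hn⟩ <;> rfl)
      (fun b hb => by rw [hB] at hb; exact absurd hb (Set.notMem_empty b))
    simp only [Fml.size] at h1
    norm_num at h1
    linarith

theorem hard_mono {c' : ℝ} (h : HardQ A B c) (hc : c' ≤ c) : HardQ A B c' :=
  fun φ h1 h2 => hc.trans (h φ h1 h2)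

theorem hard_splitA (h : HardQ A B c) {A0 A1 : Set (Fin n → Bool)} (hA : ∀ a ∈ A, a ∈ A0 ∨ a ∈ A1) :
    HardQ A0 B (c / 2) ∨ HardQ A1 B (c / 2) := by
  by_contra hcon
  rw [not_or] at hcon
  obtain ⟨h0, h1⟩ := hcon
  unfold HardQ at h0 h1
  push Not at h0 h1
  obtain ⟨φ0, a0, b0, s0⟩ := h0
  obtain ⟨φ1, a1, b1, s1⟩ := h1
  have h2 := h (Fml.or φ0 φ1)
    (fun a ha => by
      simp only [Fml.eval, Bool.or_eq_true]
      rcases hA a ha with h3 | h3
      · exact Or.inl (a0 a h3)
      · exact Or.inr (a1 a h3))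
    (fun b hb => by simp only [Fml.eval, b0 b hb, b1 b hb, Bool.or_false])
  simp only [Fml.size, Nat.cast_add] at h2
  linarith

theorem hard_splitB (h : HardQ A B c) {B0 B1 : Set (Fin n → Bool)} (hB : ∀ b ∈ B, b ∈ B0 ∨ b ∈ B1) :
    HardQ A B0 (c / 2) ∨ HardQ A B1 (c / 2) := by
  by_contra hcon
  rw [not_or] at hcon
  obtain ⟨h0, h1⟩ := hcon
  unfold HardQ at h0 h1
  push Not at h0 h1
  obtain ⟨φ0, a0, b0, s0⟩ := h0
  obtain ⟨φ1, a1, b1, s1⟩ := h1
  have h2 := h (Fml.and φ0 φ1)
    (fun a ha => by simp only [Fml.eval, a0 a ha, a1 a ha, Bool.and_true])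
    (fun b hb => by
      simp only [Fml.eval, Bool.and_eq_false_iff]
      rcases hB b hb with h3 | h3
      · exact Or.inl (b0 b h3)
      · exact Or.inr (b1 b h3))
  simp only [Fml.size, Nat.cast_add] at h2
  linarith

theorem hard_open (h : HardQ A B c) (i : Fin n) :
    ∃ b : Bool, HardQ (onJ A {i} (fun _ => b)) (onJ B {i} (fun _ => b)) ((c - 2) / 2) := by
  by_contra hcon
  rw [not_exists] at hcon
  have h0 := hcon false
  have h1 := hcon true
  unfold HardQ at h0 h1
  push Not at h0 h1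
  obtain ⟨φ0, a0, b0, s0⟩ := h0
  obtain ⟨φ1, a1, b1, s1⟩ := h1
  have hon : ∀ (S : Set (Fin n → Bool)) (a : Fin n → Bool) (v : Bool), a ∈ S → a i = v →
      a ∈ onJ S {i} (fun _ => v) := by
    intro S a v ha hv
    refine ⟨ha, fun k hk => ?_⟩
    rw [mem_singleton] at hk
    subst hk
    exact hv
  have h2 := h (Fml.or (Fml.and (Fml.lit i true) φ1) (Fml.and (Fml.lit i false) φ0))
    (fun a ha => by
      simp only [Fml.eval]
      rcases hv : a i with _ | _
      · rw [a0 a (hon A a false ha hv)]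
        simp
      · rw [a1 a (hon A a true ha hv)]
        simp)
    (fun b hb => by
      simp only [Fml.eval]
      rcases hv : b i with _ | _
      · rw [b0 b (hon B b false hb hv)]
        simp
      · rw [b1 b (hon B b true hb hv)]
        simp)
  simp only [Fml.size, Nat.cast_add, Nat.cast_one] at h2
  linarith

end MP979
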