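import Pool.Agent.Lib.MP_979eef_lc.Q.StC

/-!
# MP_979eef_lc, protocols, module Ind: the induction along the protocol
`adversary`: induction on `k`. `k = 0` and `P` a leaf: `st_end` (for a leaf `D < 0` is absurd). `alice m P Q`, `k + 1`: `Mild` gives `I`; `st_openAll` for `I \ O`
(`|I \ O| = |I| - |O|`, `k + 1 + (T - |O|) = (k + 1 + (T - |I|)) + |I \ O|`), `st_funs` for `f j w = (h j).eval (inp w)` (`(h j).size ≤ s ≤ s'`), then `st_alice`: for
`w, w' ∈ W'` with equal `G`-values `m (inp w) = m (inp w')` by `Msg`: `hg`, `con` and `hb` on `I ⊆ F'`, the functions are constant. `Correct.alice1`, induction hypothesis for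
`P` or `Q` with `O := I`.
`core`: the first state: `F = ∅`, `W = univ`, `A = {f = true}`, `B = {f = false}`, `t = e = R = 0`; `dense_univ`; `comp f g (inp w) = f (fun i => G i (w i))` by `hg`
(`comp f g x = f (fun i => g (blk x i))` by `rfl`); a formula which separates `A` from `B` computes `f`.
-/

set_option autoImplicit false

namespace MP979

open Finset

variable {n : ℕ} {Z : Type} [Fintype Z] [DecidableEq Z] [Nonempty Z]
  {G : Fin n → Z → Bool} {inp : (Fin n → Z) → (Fin n × Fin n → Bool)}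
  {S : Finset ((Fin n → Z) → Bool)} {θ θh tm C D s s' r T : ℕ} {g : (Fin n → Bool) → Bool}

omit [Nonempty Z] in
/-- One round: open the blocks, fix the simple functions; afterwards the message is a function of
the values `G i (w i)`. -/
private theorem ind_round (hn : 0 < n) (hθ : 2 ≤ θ) (hG : ∀ t ≤ tm, Hits G θh (Fam S θ t))
    (hθ1 : 4 * θ ^ 2 ≤ θh) (hθ2 : 2 ^ (r + 1) * θ ≤ θh) (hC : 1 ≤ C)
    (hg : ∀ w i, g (blk (inp w) i) = G i (w i))
    (hb : ∀ w w' i, w i = w' i → blk (inp w) i = blk (inp w') i)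
    (hS : ∀ φ : Fml (Fin n × Fin n), φ.size ≤ s' → (fun w => φ.eval (inp w)) ∈ S)
    (hs : s ≤ s') {k : ℕ} {O I : Finset (Fin n)} {m : (Fin n × Fin n → Bool) → Bool}
    {X Y : Set (Fin n × Fin n → Bool)} {F : Finset (Fin n)} {W : Finset (Fin n → Z)}
    {A B : Set (Fin n → Bool)} {t e R : ℕ} (hOI : O ⊆ I) (hIT : I.card ≤ T) (hm : Msg g I r s m)
    (hOF : O ⊆ F) (hR : R ≤ C)
    (h : St G inp S θ X Y F W A B θ t e R (cc n C (k + 1 + (T - O.card)) R))
    (ht : t + 2 * (T - O.card) + (k + 1) * (r + 1) + 1 ≤ tm)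
    (he : 2 ^ (e + 2 * (T - O.card) + (k + 1) * (r + 1)) < θ ^ (C + 1)) :
    ∃ F' W' A' B' t' e' R', I ⊆ F' ∧ R' ≤ C ∧
      t' + 2 * (T - I.card) + k * (r + 1) + 1 ≤ tm ∧
      2 ^ (e' + 2 * (T - I.card) + k * (r + 1)) < θ ^ (C + 1) ∧
      (∀ w ∈ W', ∀ w' ∈ W', (∀ i, G i (w i) = G i (w' i)) → m (inp w) = m (inp w')) ∧
      St G inp S θ X Y F' W' A' B' θ t' e' R' (cc n C (k + (T - I.card) + 1) R') := by
  have hcard : (I \ O).card = I.card - O.card := card_sdiff_of_subset hOI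
  have hle : O.card ≤ I.card := card_le_card hOI
  have hk : (k + 1) * (r + 1) = k * (r + 1) + (r + 1) := by ring
  have h1 : k + 1 + (T - O.card) = (k + (T - I.card) + 1) + (I \ O).card := by omega
  rw [h1] at h
  have hlt : ∀ {a b : ℕ}, a ≤ b → 2 ^ b < θ ^ (C + 1) → 2 ^ a < θ ^ (C + 1) :=
    fun hab hlt => lt_of_le_of_lt (Nat.pow_le_pow_right (by norm_num) hab) hlt
  obtain ⟨F1, W1, A1, B1, R1, hF1, hI1, hW1, hR1, st1⟩ :=
    st_openAll hn hθ hG (I \ O) (by omega) hθ1 hC (hlt (by omega) he) hR h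
  obtain ⟨φ, hφs, hφ⟩ := hm
  obtain ⟨F2, W2, A2, B2, R2, hF2, hW2, hR2, hc2, st2⟩ :=
    st_funs hn hθ hG (r := r) (by omega) hθ2 hC (hlt (by omega) he) hR1 st1
      (fun j w => (φ j).eval (inp w)) (fun j => hS (φ j) ((hφs j).trans hs))
  have hIF : I ⊆ F2 := by
    intro i hi
    apply hF2
    by_cases hiO : i ∈ O
    · exact hF1 (hOF hiO)
    · exact hI1 (mem_sdiff.2 ⟨hi, hiO⟩)
  refine ⟨F2, W2, A2, B2, t + 2 * (I \ O).card + r + 1, e + 2 * (I \ O).card + r + 1, R2, hIF, hR2,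
    by omega, hlt (by omega) he, ?_, st2⟩
  intro w hw w' hw' hGw
  refine hφ _ _ (fun i => by rw [hg, hg, hGw i]) (fun i hi => ?_) (fun j => hc2 w hw w' hw' j)
  exact hb _ _ _ (st2.con w hw w' hw' i (hIF hi))

theorem adversary (hn : 0 < n) (hθ : 2 ≤ θ) (hG : ∀ t ≤ tm, Hits G θh (Fam S θ t))
    (hθ1 : 4 * θ ^ 2 ≤ θh) (hθ2 : 2 ^ (r + 1) * θ ≤ θh) (hC : 1 ≤ C)
    (hg : ∀ w i, g (blk (inp w) i) = G i (w i))
    (hb : ∀ w w' i, w i = w' i → blk (inp w) i = blk (inp w') i)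
    (hS : ∀ φ : Fml (Fin n × Fin n), φ.size ≤ s' → (fun w => φ.eval (inp w)) ∈ S)
    (hs : s ≤ s') (hD : 2 ^ D ≤ s') (k : ℕ) :
    ∀ (O : Finset (Fin n)) (P : Prot (Fin n × Fin n)) (X Y : Set (Fin n × Fin n → Bool))
      (F : Finset (Fin n)) (W : Finset (Fin n → Z)) (A B : Set (Fin n → Bool)) (t e R : ℕ),
      Mild g T r s k O P → O ⊆ F → P.Correct X Y → R ≤ C →
      St G inp S θ X Y F W A B θ t e R (cc n C (k + (T - O.card)) R) →
      t + 2 * (T - O.card) + k * (r + 1) + 1 ≤ tm →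
      2 ^ (e + 2 * (T - O.card) + k * (r + 1)) < θ ^ (C + 1) → k + D < P.depth := by
  have hθh : 2 * θ ≤ θh := by nlinarith
  induction k with
  | zero =>
    intro O P X Y F W A B t e R _ _ hP _ h ht _
    have := st_end hn hG (by omega) hθh (by omega) hC hD hS h P hP
    omega
  | succ k ih =>
    intro O P X Y F W A B t e R hM hOF hP hR h ht he
    cases P with
    | leaf i =>
      have := st_end hn hG (by omega) hθh (by omega) hC hD hS h _ hP
      simp [Prot.depth] at this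
    | alice m P Q =>
      obtain ⟨I, hOI, hIT, hm, hMP, hMQ⟩ := hM
      obtain ⟨F1, W1, A1, B1, t1, e1, R1, hIF, hR1, ht1, he1, hm1, st1⟩ :=
        ind_round hn hθ hG hθ1 hθ2 hC hg hb hS hs hOI hIT hm hOF hR h ht he
      obtain ⟨b, A2, st2⟩ := st_alice m st1 hm1
      have hc := Correct.alice1 hP
      cases b with
      | true =>
        have := ih I P _ Y F1 W1 A2 B1 t1 e1 R1 hMP hIF hc.1 hR1 st2 ht1 he1
        simp only [Prot.depth]
        omega
      | false =>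
        have := ih I Q _ Y F1 W1 A2 B1 t1 e1 R1 hMQ hIF hc.2 hR1 st2 ht1 he1
        simp only [Prot.depth]
        omega
    | bob m P Q =>
      obtain ⟨I, hOI, hIT, hm, hMP, hMQ⟩ := hM
      obtain ⟨F1, W1, A1, B1, t1, e1, R1, hIF, hR1, ht1, he1, hm1, st1⟩ :=
        ind_round hn hθ hG hθ1 hθ2 hC hg hb hS hs hOI hIT hm hOF hR h ht he
      obtain ⟨b, B2, st2⟩ := st_bob m st1 hm1
      have hc := Correct.bob1 hP
      cases b with
      | true =>
        have := ih I P X _ F1 W1 A1 B2 t1 e1 R1 hMP hIF hc.1 hR1 st2 ht1 he1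
        simp only [Prot.depth]
        omega
      | false =>
        have := ih I Q X _ F1 W1 A1 B2 t1 e1 R1 hMQ hIF hc.2 hR1 st2 ht1 he1
        simp only [Prot.depth]
        omega

theorem core (hn : 0 < n) (hθ : 2 ≤ θ) (hG : ∀ t ≤ tm, Hits G θh (Fam S θ t))
    (hθ1 : 4 * θ ^ 2 ≤ θh) (hθ2 : 2 ^ (r + 1) * θ ≤ θh) (hC : 1 ≤ C)
    (hg : ∀ w i, g (blk (inp w) i) = G i (w i))
    (hb : ∀ w w' i, w i = w' i → blk (inp w) i = blk (inp w') i)
    (hS : ∀ φ : Fml (Fin n × Fin n), φ.size ≤ s' → (fun w => φ.eval (inp w)) ∈ S)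
    (hs : s ≤ s') (hD : 2 ^ D ≤ s') (f : (Fin n → Bool) → Bool) (k : ℕ)
    (hf : ∀ φ : Fml (Fin n), (∀ a, φ.eval a = f a) → cc n C (k + T) 0 ≤ φ.size)
    (ht : 2 * T + k * (r + 1) + 1 ≤ tm) (he : 2 ^ (2 * T + k * (r + 1)) < θ ^ (C + 1))
    (P : Prot (Fin n × Fin n)) (hP : P.Solves (comp f g)) (hM : Mild g T r s k ∅ P) :
    k + D < P.depth := by
  have hcomp : ∀ w, comp f g (inp w) = f (fun i => G i (w i)) := by
    intro w
    show f (fun i => g (blk (inp w) i)) = _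
    congr 1
    funext i
    exact hg w i
  refine adversary hn hθ hG hθ1 hθ2 hC hg hb hS hs hD k ∅ P _ _ ∅ univ {a | f a = true}
    {a | f a = false} 0 0 0 hM (Finset.Subset.refl _) hP (Nat.zero_le _) ?_ (by simpa using ht)
    (by simpa using he)
  refine ⟨univ_nonempty, by simp, by simp, by simp, ?_, ?_, fam_univ S θ,
    dense_univ θ (by omega), ?_, ?_⟩
  · intro w _ a ha h
    show comp f g (inp w) = true
    rw [hcomp, show (fun i => G i (w i)) = a from funext h]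
    exact ha
  · intro w _ b hb' h
    show comp f g (inp w) = false
    rw [hcomp, show (fun i => G i (w i)) = b from funext h]
    exact hb'
  · simp
  · intro φ h1 h0
    have hφ : ∀ a, φ.eval a = f a := by
      intro a
      cases hfa : f a with
      | true => exact h1 a hfa
      | false => exact h0 a hfa
    have := hf φ hφ
    simp only [card_empty, Nat.sub_zero]
    linarith

end MP979
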