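import Pool.Agent.Lib.MP_979eef_lc.Q.Si

/-!
# MP_979eef_lc, protocols, module IndA: the two inductions along the protocol
-/

set_option autoImplicit false

namespace MP979

open Finset

variable {n : ℕ} {Z : Type} [Fintype Z] [DecidableEq Z] [Nonempty Z]
  {G : Fin n → Z → Bool} {inp : (Fin n → Z) → (Fin n × Fin n → Bool)}
  {S : Finset ((Fin n → Z) → Bool)} {θ θh tm C D s' Q T v : ℕ} {g : (Fin n → Bool) → Bool}
  {𝓗 : Finset ((Fin n × Fin n → Bool) → Bool)}

/-- the threshold -/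
noncomputable def thr (n C : ℕ) : ℝ := 2 * (C : ℝ) ^ 2 * (2 * n) ^ C + 4

theorem thr_ge (n C : ℕ) : 4 ≤ thr n C := by
  unfold thr
  have : (0 : ℝ) ≤ 2 * (C : ℝ) ^ 2 * (2 * n) ^ C := by positivity
  linarith

/-- depth: the first `k` messages are simple -/
theorem adv_depth (hn : 0 < n) (hθ : 2 ≤ θ) (hG : ∀ t ≤ tm, Hits G θh (Fam S θ t))
    (hθ1 : 4 * θ ^ 2 ≤ θh) (hC : 1 ≤ C)
    (hg : ∀ w i, g (blk (inp w) i) = G i (w i))
    (hb : ∀ w w' i, w i = w' i → blk (inp w) i = blk (inp w') i)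
    (hS : ∀ φ : Fml (Fin n × Fin n), φ.size ≤ s' → (fun w => φ.eval (inp w)) ∈ S)
    (hS' : ∀ φ ∈ 𝓗, (fun w => φ (inp w)) ∈ S) (hD : 2 ^ D ≤ s') {Φ : ℝ}
    (hΦv : 2 ^ v * (4 * thr n C) ≤ Φ) (k : ℕ) :
    ∀ (O : Finset (Fin n)) (H : List ((Fin n × Fin n → Bool) → Bool)) (P : Prot (Fin n × Fin n))
      (X Y : Set (Fin n × Fin n → Bool)) (F : Finset (Fin n)) (W : Finset (Fin n → Z))
      (A B : Set (Fin n → Bool)) (t e R : ℕ),
      Simple g 𝓗 T Q v k O H P → O ⊆ F → P.Correct X Y → R ≤ C →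
      (∀ h ∈ H, ∀ w ∈ W, ∀ w' ∈ W, h (inp w) = h (inp w')) →
      St G inp S θ X Y F W A B θ t e R (cp n C (k + (T - O.card)) R Φ) →
      t + 2 * (T - O.card) + 2 * (Q - H.length) + 2 * v + 1 ≤ tm →
      2 ^ (e + 2 * (T - O.card) + 2 * (Q - H.length) + 2 * v) < θ ^ (C + 1) →
      k + D < P.depth := by
  have hθh : 2 * θ ≤ θh := by nlinarith
  have hthr := thr_ge n C
  have h2v : (1 : ℝ) ≤ 2 ^ v := one_le_pow₀ (by norm_num)
  have hΦ : thr n C ≤ Φ := by nlinarith
  have hΦ8 : 8 < Φ := by nlinarith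
  have hΦ0 : 0 ≤ Φ := by linarith
  have hend : ∀ (P : Prot (Fin n × Fin n)) (X Y : Set (Fin n × Fin n → Bool)) (F : Finset (Fin n))
      (W : Finset (Fin n → Z)) (A B : Set (Fin n → Bool)) (t e R κ : ℕ), P.Correct X Y →
      St G inp S θ X Y F W A B θ t e R (cp n C κ R Φ) → t + 1 ≤ tm → D < P.depth := by
    intro P X Y F W A B t e R κ hP h ht
    obtain ⟨hA, hB⟩ := hard_nonempty hn h.hard (by
      have := cp_ge (n := n) (C := C) (κ := κ) (R := R) hn hΦ0
      linarith)
    have h1 := sp_end hG ht hθh hS h hA hB P hP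
    have h2 := leaves_le P
    have h3 : 2 ^ D < 2 ^ P.depth := by omega
    exact (Nat.pow_lt_pow_iff_right (by norm_num)).1 h3
  have hblk : ∀ (O : Finset (Fin n)) (P : Prot (Fin n × Fin n))
      (X Y : Set (Fin n × Fin n → Bool)) (F : Finset (Fin n))
      (W : Finset (Fin n → Z)) (A B : Set (Fin n → Bool)) (t e R κ : ℕ), O ⊆ F → R ≤ C →
      P.Correct X Y → St G inp S θ X Y F W A B θ t e R (cp n C κ R Φ) → t + 2 * v ≤ tm →
      2 ^ (e + 2 * v) < θ ^ (C + 1) → (∃ J, (J \ O).card ≤ v ∧ InBlocks J P) → False := by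
    rintro O P X Y F W A B t e R κ hOF hR hP h ht he ⟨J, hJ, hj⟩
    exact sp_inBlocks hn hθ hG hθ1 hC hΦv hb h hR hJ hOF ht he hj hP
  have hlt : ∀ {a b : ℕ}, a ≤ b → 2 ^ b < θ ^ (C + 1) → 2 ^ a < θ ^ (C + 1) :=
    fun hab hlt => lt_of_le_of_lt (Nat.pow_le_pow_right (by norm_num) hab) hlt
  induction k with
  | zero =>
    intro O H P X Y F W A B t e R _ _ hP _ _ h ht _
    have := hend P X Y F W A B t e R _ hP h (by omega)
    omega
  | succ k ih =>
    intro O H P X Y F W A B t e R hM hOF hP hR hH h ht he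
    cases P with
    | leaf i =>
      have := hend _ X Y F W A B t e R _ hP h (by omega)
      simp [Prot.depth] at this
    | alice m P P' =>
      rcases hM with hM | ⟨I, L, hOI, hIT, hLQ, hLs, hm, hMP, hMQ⟩
      · exact (hblk O _ X Y F W A B t e R _ hOF hR hP h (by omega) (hlt (by omega) he) hM).elim
      obtain ⟨F1, W1, A1, B1, t1, e1, R1, hIF, hR1, ht1, he1, hH1, hm1, st1⟩ :=
        sp_round hn hθ hG hθ1 hC hΦ hg hb hS' hOI hIT hLQ hLs hm hOF hH hR h ht he
      have hk1 : k + 1 + (T - I.card) = (k + (T - I.card)) + 1 := by omega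
      rw [hk1] at st1
      have hc := Correct.alice1 hP
      have hle : cp n C (k + (T - I.card)) R1 Φ - 2 ≤
          (cp n C (k + (T - I.card) + 1) R1 Φ - 2) / 2 := by
        have := cp_half n C (k + (T - I.card)) R1 Φ
        linarith
      rcases hard_splitA st1.hard (A0 := sends G inp m W1 A1 true)
        (A1 := sends G inp m W1 A1 false) (fun a ha => sends_cases inp m a ha) with h0 | h0
      · have := ih I (H ++ L) P _ Y F1 W1 _ B1 t1 e1 R1 hMP hIF hc.1 hR1 hH1
          (sp_alice st1 hm1 true (hard_mono h0 hle)) ht1 he1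
        simp only [Prot.depth]
        omega
      · have := ih I (H ++ L) P' _ Y F1 W1 _ B1 t1 e1 R1 hMQ hIF hc.2 hR1 hH1
          (sp_alice st1 hm1 false (hard_mono h0 hle)) ht1 he1
        simp only [Prot.depth]
        omega
    | bob m P P' =>
      rcases hM with hM | ⟨I, L, hOI, hIT, hLQ, hLs, hm, hMP, hMQ⟩
      · exact (hblk O _ X Y F W A B t e R _ hOF hR hP h (by omega) (hlt (by omega) he) hM).elim
      obtain ⟨F1, W1, A1, B1, t1, e1, R1, hIF, hR1, ht1, he1, hH1, hm1, st1⟩ :=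
        sp_round hn hθ hG hθ1 hC hΦ hg hb hS' hOI hIT hLQ hLs hm hOF hH hR h ht he
      have hk1 : k + 1 + (T - I.card) = (k + (T - I.card)) + 1 := by omega
      rw [hk1] at st1
      have hc := Correct.bob1 hP
      have hle : cp n C (k + (T - I.card)) R1 Φ - 2 ≤
          (cp n C (k + (T - I.card) + 1) R1 Φ - 2) / 2 := by
        have := cp_half n C (k + (T - I.card)) R1 Φ
        linarith
      rcases hard_splitB st1.hard (B0 := sends G inp m W1 B1 true)
        (B1 := sends G inp m W1 B1 false) (fun a ha => sends_cases inp m a ha) with h0 | h0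
      · have := ih I (H ++ L) P X _ F1 W1 A1 _ t1 e1 R1 hMP hIF hc.1 hR1 hH1
          (sp_bob st1 hm1 true (hard_mono h0 hle)) ht1 he1
        simp only [Prot.depth]
        omega
      · have := ih I (H ++ L) P' X _ F1 W1 A1 _ t1 e1 R1 hMQ hIF hc.2 hR1 hH1
          (sp_bob st1 hm1 false (hard_mono h0 hle)) ht1 he1
        simp only [Prot.depth]
        omega

/-- splitting a hard rectangle according to two bounds -/
theorem hard_two {A A0 A1 B : Set (Fin n → Bool)} {c c0 c1 : ℝ} (h : HardQ A B c)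
    (hA : ∀ a ∈ A, a ∈ A0 ∨ a ∈ A1) (h0 : ¬ HardQ A0 B c0) (h1 : ¬ HardQ A1 B c1) : c < c0 + c1 := by
  unfold HardQ at h0 h1
  push Not at h0 h1
  obtain ⟨φ0, a0, b0, s0⟩ := h0
  obtain ⟨φ1, a1, b1, s1⟩ := h1
  have h2 := h (.or φ0 φ1) (by
    intro a ha
    rcases hA a ha with h | h
    · simp [Fml.eval, a0 a h]
    · simp [Fml.eval, a1 a h]) (by
    intro b hb
    simp [Fml.eval, b0 b hb, b1 b hb])
  simp only [Fml.size] at h2
  push_cast at h2
  linarith

theorem hard_twoB {A B B0 B1 : Set (Fin n → Bool)} {c c0 c1 : ℝ} (h : HardQ A B c)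
    (hB : ∀ b ∈ B, b ∈ B0 ∨ b ∈ B1) (h0 : ¬ HardQ A B0 c0) (h1 : ¬ HardQ A B1 c1) : c < c0 + c1 := by
  unfold HardQ at h0 h1
  push Not at h0 h1
  obtain ⟨φ0, a0, b0, s0⟩ := h0
  obtain ⟨φ1, a1, b1, s1⟩ := h1
  have h2 := h (.and φ0 φ1) (by
    intro a ha
    simp [Fml.eval, a0 a ha, a1 a ha]) (by
    intro b hb
    rcases hB b hb with h | h
    · simp [Fml.eval, b0 b h]
    · simp [Fml.eval, b1 b h])
  simp only [Fml.size] at h2
  push_cast at h2
  linarith

/-- size: all messages are simple -/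
theorem adv_size (hn : 0 < n) (hθ : 2 ≤ θ) (hG : ∀ t ≤ tm, Hits G θh (Fam S θ t))
    (hθ1 : 4 * θ ^ 2 ≤ θh) (hC : 1 ≤ C)
    (hg : ∀ w i, g (blk (inp w) i) = G i (w i))
    (hb : ∀ w w' i, w i = w' i → blk (inp w) i = blk (inp w') i)
    (hS : ∀ φ : Fml (Fin n × Fin n), φ.size ≤ s' → (fun w => φ.eval (inp w)) ∈ S)
    (hS' : ∀ φ ∈ 𝓗, (fun w => φ (inp w)) ∈ S) (hD : 2 ^ D ≤ s') {Ψ : ℝ}
    (hΨv : 2 ^ v * (4 * thr n C) ≤ Ψ) (P : Prot (Fin n × Fin n)) :
    ∀ (k : ℕ) (O : Finset (Fin n)) (H : List ((Fin n × Fin n → Bool) → Bool))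
      (X Y : Set (Fin n × Fin n → Bool)) (F : Finset (Fin n)) (W : Finset (Fin n → Z))
      (A B : Set (Fin n → Bool)) (t e R : ℕ) (Φ : ℝ),
      P.depth ≤ k → Simple g 𝓗 T Q v k O H P → O ⊆ F → P.Correct X Y → R ≤ C →
      (∀ h ∈ H, ∀ w ∈ W, ∀ w' ∈ W, h (inp w) = h (inp w')) →
      A.Nonempty → B.Nonempty →
      St G inp S θ X Y F W A B θ t e R (cp n C (T - O.card) R Φ) →
      t + 2 * (T - O.card) + 2 * (Q - H.length) + 2 * v + 1 ≤ tm →
      2 ^ (e + 2 * (T - O.card) + 2 * (Q - H.length) + 2 * v) < θ ^ (C + 1) →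
      Φ * 2 ^ D ≤ P.leaves * Ψ := by
  have hθh : 2 * θ ≤ θh := by nlinarith
  have hthr := thr_ge n C
  have h2v : (1 : ℝ) ≤ 2 ^ v := one_le_pow₀ (by norm_num)
  have hΨ : thr n C ≤ Ψ := by nlinarith
  have hΨ8 : 8 < Ψ := by nlinarith
  have hΨ0 : 0 ≤ Ψ := by linarith
  have hsmall : ∀ (P : Prot (Fin n × Fin n)) (X Y : Set (Fin n × Fin n → Bool))
      (F : Finset (Fin n)) (W : Finset (Fin n → Z)) (A B : Set (Fin n → Bool)) (t e R : ℕ)
      (c Φ : ℝ), P.Correct X Y → St G inp S θ X Y F W A B θ t e R c → A.Nonempty → B.Nonempty →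
      t + 1 ≤ tm → Φ ≤ Ψ → Φ * 2 ^ D ≤ P.leaves * Ψ := by
    intro P X Y F W A B t e R c Φ hP h hA hB ht hΦ
    have h1 := sp_end hG ht hθh hS h hA hB P hP
    have h2 : ((2 : ℝ)) ^ D ≤ P.leaves := by
      have : 2 ^ D ≤ P.leaves := by omega
      exact_mod_cast this
    have h3 : (0 : ℝ) ≤ 2 ^ D := by positivity
    calc Φ * 2 ^ D ≤ Ψ * 2 ^ D := mul_le_mul_of_nonneg_right hΦ h3
      _ = 2 ^ D * Ψ := by ring
      _ ≤ _ := mul_le_mul_of_nonneg_right h2 hΨ0
  have hblk : ∀ (O : Finset (Fin n)) (P : Prot (Fin n × Fin n))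
      (X Y : Set (Fin n × Fin n → Bool)) (F : Finset (Fin n))
      (W : Finset (Fin n → Z)) (A B : Set (Fin n → Bool)) (t e R κ : ℕ) (Φ : ℝ), Ψ < Φ →
      O ⊆ F → R ≤ C →
      P.Correct X Y → St G inp S θ X Y F W A B θ t e R (cp n C κ R Φ) → t + 2 * v ≤ tm →
      2 ^ (e + 2 * v) < θ ^ (C + 1) → (∃ J, (J \ O).card ≤ v ∧ InBlocks J P) → False := by
    rintro O P X Y F W A B t e R κ Φ hΦ hOF hR hP h ht he ⟨J, hJ, hj⟩
    exact sp_inBlocks hn hθ hG hθ1 hC (le_trans hΨv hΦ.le) hb h hR hJ hOF ht he hj hP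
  have hlt : ∀ {a b : ℕ}, a ≤ b → 2 ^ b < θ ^ (C + 1) → 2 ^ a < θ ^ (C + 1) :=
    fun hab hlt => lt_of_le_of_lt (Nat.pow_le_pow_right (by norm_num) hab) hlt
  have h2D : (0 : ℝ) < 2 ^ D := by positivity
  induction P with
  | leaf i =>
    intro k O H X Y F W A B t e R Φ _ _ _ hP _ _ hA hB h ht _
    have h1 := sp_end hG (by omega) hθh hS h hA hB _ hP
    simp only [Prot.leaves] at h1
    have := Nat.one_le_two_pow (n := D)
    omega
  | alice m P P' ihP ihQ =>
    intro k O H X Y F W A B t e R Φ hk hM hOF hP hR hH hA hB h ht he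
    rcases le_or_gt Φ Ψ with hΦ | hΦ
    · exact hsmall _ X Y F W A B t e R _ Φ hP h hA hB (by omega) hΦ
    obtain ⟨k, rfl⟩ : ∃ k', k = k' + 1 := ⟨k - 1, by simp only [Prot.depth] at hk; omega⟩
    simp only [Prot.depth] at hk
    rcases hM with hM | ⟨I, L, hOI, hIT, hLQ, hLs, hm, hMP, hMQ⟩
    · exact (hblk O _ X Y F W A B t e R _ Φ hΦ hOF hR hP h (by omega)
        (hlt (by omega) he) hM).elim
    obtain ⟨F1, W1, A1, B1, t1, e1, R1, hIF, hR1, ht1, he1, hH1, hm1, st1⟩ :=
      sp_round (κ := 0) (Φ := Φ) hn hθ hG hθ1 hC (le_trans hΨ hΦ.le) hg hb hS' hOI hIT hLQ hLs hm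
        hOF hH hR (by rw [Nat.zero_add]; exact h) ht he
    rw [Nat.zero_add] at st1
    have hc := Correct.alice1 hP
    have hB1 : B1.Nonempty := (hard_nonempty hn st1.hard (by
      have := cp_ge (n := n) (C := C) (κ := T - I.card) (R := R1) hn (by linarith : (0 : ℝ) ≤ Φ)
      linarith)).2
    have hA1 : A1.Nonempty := (hard_nonempty hn st1.hard (by
      have := cp_ge (n := n) (C := C) (κ := T - I.card) (R := R1) hn (by linarith : (0 : ℝ) ≤ Φ)
      linarith)).1
    -- the two parts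
    have hT : ∀ Φ', (sends G inp m W1 A1 true).Nonempty →
        HardQ (sends G inp m W1 A1 true) B1 (cp n C (T - I.card) R1 Φ' - 2) →
        Φ' * 2 ^ D ≤ P.leaves * Ψ := fun Φ' hne hh =>
      ihP k I (H ++ L) _ Y F1 W1 _ B1 t1 e1 R1 Φ' (by omega) hMP hIF hc.1 hR1 hH1 hne hB1
        (sp_alice st1 hm1 true hh) ht1 he1
    have hF : ∀ Φ', (sends G inp m W1 A1 false).Nonempty →
        HardQ (sends G inp m W1 A1 false) B1 (cp n C (T - I.card) R1 Φ' - 2) →
        Φ' * 2 ^ D ≤ P'.leaves * Ψ := fun Φ' hne hh =>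
      ihQ k I (H ++ L) _ Y F1 W1 _ B1 t1 e1 R1 Φ' (by omega) hMQ hIF hc.2 hR1 hH1 hne hB1
        (sp_alice st1 hm1 false hh) ht1 he1
    have hcases : ∀ a ∈ A1, a ∈ sends G inp m W1 A1 true ∨ a ∈ sends G inp m W1 A1 false :=
      fun a ha => sends_cases inp m a ha
    simp only [Prot.leaves]
    push_cast
    have l1 : (0 : ℝ) ≤ P.leaves := Nat.cast_nonneg _
    have l2 : (0 : ℝ) ≤ P'.leaves := Nat.cast_nonneg _
    by_cases e1' : (sends G inp m W1 A1 true).Nonempty
    · by_cases e2' : (sends G inp m W1 A1 false).Nonempty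
      · by_contra hcon
        push Not at hcon
        set ν : ℝ := (Φ - (P.leaves + P'.leaves) * Ψ / 2 ^ D) / 2 with hν
        have hνpos : 0 < ν := by
          have : (P.leaves + P'.leaves) * Ψ / 2 ^ D < Φ := by
            rw [div_lt_iff₀ h2D]; exact hcon
          rw [hν]; linarith
        have k0 : ¬ HardQ (sends G inp m W1 A1 true) B1
            (cp n C (T - I.card) R1 (P.leaves * Ψ / 2 ^ D + ν) - 2) := by
          intro hh
          have h5 := hT _ e1' hh
          rw [add_mul, div_mul_cancel₀ _ h2D.ne'] at h5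
          nlinarith
        have k1 : ¬ HardQ (sends G inp m W1 A1 false) B1
            (cp n C (T - I.card) R1 (P'.leaves * Ψ / 2 ^ D + ν) - 2) := by
          intro hh
          have h5 := hF _ e2' hh
          rw [add_mul, div_mul_cancel₀ _ h2D.ne'] at h5
          nlinarith
        have h6 := hard_two st1.hard hcases k0 k1
        have h7 : cp n C (T - I.card) R1 (P.leaves * Ψ / 2 ^ D + ν) +
            cp n C (T - I.card) R1 (P'.leaves * Ψ / 2 ^ D + ν) = cp n C (T - I.card) R1 Φ := by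
          unfold cp
          rw [← mul_add]
          congr 1
          rw [hν]
          ring
        linarith
      · have hh : HardQ (sends G inp m W1 A1 true) B1 (cp n C (T - I.card) R1 Φ - 2) := by
          intro φ h1 h2
          refine st1.hard φ (fun a ha => ?_) h2
          rcases hcases a ha with h | h
          · exact h1 a h
          · exact absurd ⟨a, h⟩ e2'
        have := hT Φ e1' hh
        nlinarith
    · have e2' : (sends G inp m W1 A1 false).Nonempty := by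
        obtain ⟨a, ha⟩ := hA1
        rcases hcases a ha with h | h
        · exact absurd ⟨a, h⟩ e1'
        · exact ⟨a, h⟩
      have hh : HardQ (sends G inp m W1 A1 false) B1 (cp n C (T - I.card) R1 Φ - 2) := by
        intro φ h1 h2
        refine st1.hard φ (fun a ha => ?_) h2
        rcases hcases a ha with h | h
        · exact absurd ⟨a, h⟩ e1'
        · exact h1 a h
      have := hF Φ e2' hh
      nlinarith
  | bob m P P' ihP ihQ =>
    intro k O H X Y F W A B t e R Φ hk hM hOF hP hR hH hA hB h ht he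
    rcases le_or_gt Φ Ψ with hΦ | hΦ
    · exact hsmall _ X Y F W A B t e R _ Φ hP h hA hB (by omega) hΦ
    obtain ⟨k, rfl⟩ : ∃ k', k = k' + 1 := ⟨k - 1, by simp only [Prot.depth] at hk; omega⟩
    simp only [Prot.depth] at hk
    rcases hM with hM | ⟨I, L, hOI, hIT, hLQ, hLs, hm, hMP, hMQ⟩
    · exact (hblk O _ X Y F W A B t e R _ Φ hΦ hOF hR hP h (by omega)
        (hlt (by omega) he) hM).elim
    obtain ⟨F1, W1, A1, B1, t1, e1, R1, hIF, hR1, ht1, he1, hH1, hm1, st1⟩ :=
      sp_round (κ := 0) (Φ := Φ) hn hθ hG hθ1 hC (le_trans hΨ hΦ.le) hg hb hS' hOI hIT hLQ hLs hm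
        hOF hH hR (by rw [Nat.zero_add]; exact h) ht he
    rw [Nat.zero_add] at st1
    have hc := Correct.bob1 hP
    have hB1 : B1.Nonempty := (hard_nonempty hn st1.hard (by
      have := cp_ge (n := n) (C := C) (κ := T - I.card) (R := R1) hn (by linarith : (0 : ℝ) ≤ Φ)
      linarith)).2
    have hA1 : A1.Nonempty := (hard_nonempty hn st1.hard (by
      have := cp_ge (n := n) (C := C) (κ := T - I.card) (R := R1) hn (by linarith : (0 : ℝ) ≤ Φ)
      linarith)).1
    have hT : ∀ Φ', (sends G inp m W1 B1 true).Nonempty →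
        HardQ A1 (sends G inp m W1 B1 true) (cp n C (T - I.card) R1 Φ' - 2) →
        Φ' * 2 ^ D ≤ P.leaves * Ψ := fun Φ' hne hh =>
      ihP k I (H ++ L) X _ F1 W1 A1 _ t1 e1 R1 Φ' (by omega) hMP hIF hc.1 hR1 hH1 hA1 hne
        (sp_bob st1 hm1 true hh) ht1 he1
    have hF : ∀ Φ', (sends G inp m W1 B1 false).Nonempty →
        HardQ A1 (sends G inp m W1 B1 false) (cp n C (T - I.card) R1 Φ' - 2) →
        Φ' * 2 ^ D ≤ P'.leaves * Ψ := fun Φ' hne hh =>
      ihQ k I (H ++ L) X _ F1 W1 A1 _ t1 e1 R1 Φ' (by omega) hMQ hIF hc.2 hR1 hH1 hA1 hne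
        (sp_bob st1 hm1 false hh) ht1 he1
    have hcases : ∀ a ∈ B1, a ∈ sends G inp m W1 B1 true ∨ a ∈ sends G inp m W1 B1 false :=
      fun a ha => sends_cases inp m a ha
    simp only [Prot.leaves]
    push_cast
    have l1 : (0 : ℝ) ≤ P.leaves := Nat.cast_nonneg _
    have l2 : (0 : ℝ) ≤ P'.leaves := Nat.cast_nonneg _
    by_cases e1' : (sends G inp m W1 B1 true).Nonempty
    · by_cases e2' : (sends G inp m W1 B1 false).Nonempty
      · by_contra hcon
        push Not at hcon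
        set ν : ℝ := (Φ - (P.leaves + P'.leaves) * Ψ / 2 ^ D) / 2 with hν
        have hνpos : 0 < ν := by
          have : (P.leaves + P'.leaves) * Ψ / 2 ^ D < Φ := by
            rw [div_lt_iff₀ h2D]; exact hcon
          rw [hν]; linarith
        have k0 : ¬ HardQ A1 (sends G inp m W1 B1 true)
            (cp n C (T - I.card) R1 (P.leaves * Ψ / 2 ^ D + ν) - 2) := by
          intro hh
          have h5 := hT _ e1' hh
          rw [add_mul, div_mul_cancel₀ _ h2D.ne'] at h5
          nlinarith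
        have k1 : ¬ HardQ A1 (sends G inp m W1 B1 false)
            (cp n C (T - I.card) R1 (P'.leaves * Ψ / 2 ^ D + ν) - 2) := by
          intro hh
          have h5 := hF _ e2' hh
          rw [add_mul, div_mul_cancel₀ _ h2D.ne'] at h5
          nlinarith
        have h6 := hard_twoB st1.hard hcases k0 k1
        have h7 : cp n C (T - I.card) R1 (P.leaves * Ψ / 2 ^ D + ν) +
            cp n C (T - I.card) R1 (P'.leaves * Ψ / 2 ^ D + ν) = cp n C (T - I.card) R1 Φ := by
          unfold cp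
          rw [← mul_add]
          congr 1
          rw [hν]
          ring
        linarith
      · have hh : HardQ A1 (sends G inp m W1 B1 true) (cp n C (T - I.card) R1 Φ - 2) := by
          intro φ h1 h2
          refine st1.hard φ h1 (fun a ha => ?_)
          rcases hcases a ha with h | h
          · exact h2 a h
          · exact absurd ⟨a, h⟩ e2'
        have := hT Φ e1' hh
        nlinarith
    · have e2' : (sends G inp m W1 B1 false).Nonempty := by
        obtain ⟨a, ha⟩ := hB1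
        rcases hcases a ha with h | h
        · exact absurd ⟨a, h⟩ e1'
        · exact ⟨a, h⟩
      have hh : HardQ A1 (sends G inp m W1 B1 false) (cp n C (T - I.card) R1 Φ - 2) := by
        intro φ h1 h2
        refine st1.hard φ h1 (fun a ha => ?_)
        rcases hcases a ha with h | h
        · exact absurd ⟨a, h⟩ e1'
        · exact h2 a h
      have := hF Φ e2' hh
      nlinarith

end MP979
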