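import Pool.Agent.Lib.MP_979eef_lc.Q.Defs
import Mathlib.Combinatorics.SetFamily.HarrisKleitman

/-!
# MP_979eef_lc, protocols, module Jan: one step of Janson's inequality
PROOF of `avoid_insert`. Let `𝓕0` be the members of `𝓕` disjoint from `Q`, `N = 2 ^ |P|`. `avoid (insert Q 𝓕) = avoid 𝓕 \ {S ⊇ Q}`. A set `S ⊇ Q` which avoids `𝓕0` avoids `𝓕` unless it
contains some `Q' ∈ 𝓕` which meets `Q`. (1) `#{S ⊇ Q, S avoids 𝓕0} * 2 ^ |Q| ≥ #(avoid 𝓕0)`: the map `S ↦ S ∪ Q` from `avoid 𝓕0` has fibres of size at most `2 ^ |Q|` (`S \ Q` is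
determined) and lands in this set since the members of `𝓕0` are disjoint from `Q`. (2) `#{S ⊇ Q ∪ Q', S avoids 𝓕0} ≤ 2 ^ (-|Q ∪ Q'|) #(avoid 𝓕0)`: Harris-Kleitman for an upper
set and a lower set, `IsUpperSet.card_inter_le_finset` in `Mathlib/Combinatorics/SetFamily/HarrisKleitman.lean`, and `#{S ⊇ R} = 2 ^ (|P| - |R|)`. So
`#{S ⊇ Q, S avoids 𝓕} ≥ #(avoid 𝓕0) * (2 ^ (-|Q|) - ∑ 2 ^ (-|Q ∪ Q'|))`; if the bracket is `≥ 0` use `#(avoid 𝓕0) ≥ #(avoid 𝓕)`; if it is negative the claim is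
`avoid (insert Q 𝓕) ⊆ avoid 𝓕`.
-/

set_option autoImplicit false

namespace MP979

open Finset

variable {P : Type} [Fintype P] [DecidableEq P]

/-- the sets which contain no member of `𝓕` -/
def avoid (𝓕 : Finset (Finset P)) : Finset (Finset P) := univ.filter (fun S => ∀ Q ∈ 𝓕, ¬ Q ⊆ S)

private theorem jan_mem {𝓕 : Finset (Finset P)} {S : Finset P} : S ∈ avoid 𝓕 ↔ ∀ Q ∈ 𝓕, ¬ Q ⊆ S := by
  unfold avoid
  rw [mem_filter]
  exact ⟨fun h => h.2, fun h => ⟨mem_univ _, h⟩⟩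

/-- Harris-Kleitman -/
private theorem jan_up (𝓕 : Finset (Finset P)) (R : Finset P) :
    (((avoid 𝓕).filter fun S => R ⊆ S).card : ℝ) ≤ (avoid 𝓕).card * (1 / 2 : ℝ) ^ R.card := by
  have h1 : IsUpperSet ((univ.filter fun S : Finset P => R ⊆ S : Finset (Finset P)) : Set (Finset P)) := by
    intro S T hST hS
    rw [mem_coe, mem_filter] at hS ⊢
    exact ⟨mem_univ _, hS.2.trans hST⟩
  have h2 : IsLowerSet ((avoid 𝓕 : Finset (Finset P)) : Set (Finset P)) := by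
    intro S T hST hS
    rw [mem_coe, jan_mem] at hS ⊢
    exact fun Q hQ h => hS Q hQ (h.trans hST)
  have h3 := h1.card_inter_le_finset h2
  have h4 : (univ.filter fun S : Finset P => R ⊆ S) ∩ avoid 𝓕 = (avoid 𝓕).filter fun S => R ⊆ S := by
    ext S
    rw [mem_inter, mem_filter, mem_filter]
    exact ⟨fun h => ⟨h.2, h.1.2⟩, fun h => ⟨⟨mem_univ _, h.2⟩, h.1⟩⟩
  have h5 : (univ.filter fun S : Finset P => R ⊆ S) = Icc R univ := by
    ext S
    rw [mem_filter, mem_Icc]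
    exact ⟨fun h => ⟨h.2, subset_univ _⟩, fun h => ⟨mem_univ _, h.1⟩⟩
  rw [h4, h5, card_Icc_finset (subset_univ R), card_univ] at h3
  have h6 : R.card ≤ Fintype.card P := card_le_univ R
  have h7 : (2 : ℝ) ^ Fintype.card P * (((avoid 𝓕).filter fun S => R ⊆ S).card : ℝ) ≤
      2 ^ (Fintype.card P - R.card) * ((avoid 𝓕).card : ℝ) := by exact_mod_cast h3
  have h8 : (2 : ℝ) ^ Fintype.card P = 2 ^ (Fintype.card P - R.card) * 2 ^ R.card := by
    rw [← pow_add]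
    congr 1
    omega
  rw [h8, mul_assoc] at h7
  have h9 := le_of_mul_le_mul_left h7 (by positivity)
  rw [one_div, inv_pow, ← div_eq_mul_inv, le_div_iff₀ (by positivity), mul_comm]
  exact h9

/-- adding `Q` -/
private theorem jan_low (𝓕 : Finset (Finset P)) (Q : Finset P) (h : ∀ Q' ∈ 𝓕, Disjoint Q Q') :
    ((avoid 𝓕).card : ℝ) * (1 / 2 : ℝ) ^ Q.card ≤ ((avoid 𝓕).filter fun S => Q ⊆ S).card := by
  have h1 : (avoid 𝓕).card ≤ 2 ^ Q.card * ((avoid 𝓕).filter fun S => Q ⊆ S).card := by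
    refine card_le_mul_card_image_of_maps_to (f := fun S => S ∪ Q) ?_ _ ?_
    · intro S hS
      rw [mem_filter, jan_mem]
      refine ⟨fun Q' hQ' hsub => ?_, subset_union_right⟩
      refine jan_mem.1 hS Q' hQ' fun x hx => ?_
      rcases mem_union.1 (hsub hx) with h2 | h2
      · exact h2
      · exact absurd hx (Finset.disjoint_left.1 (h Q' hQ') h2)
    · intro T _
      rw [← card_powerset]
      refine card_le_card_of_injOn (fun S => S ∩ Q) ?_ ?_
      · intro S _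
        exact mem_coe.2 (mem_powerset.2 inter_subset_right)
      · intro S hS S' hS' he
        have h2 : S ∪ Q = T := (mem_filter.1 (mem_coe.1 hS)).2
        have h3 : S' ∪ Q = T := (mem_filter.1 (mem_coe.1 hS')).2
        have he' : S ∩ Q = S' ∩ Q := he
        ext x
        by_cases hx : x ∈ Q
        · constructor
          · intro h4
            exact (mem_inter.1 (he' ▸ mem_inter.2 ⟨h4, hx⟩)).1
          · intro h4
            exact (mem_inter.1 (he'.symm ▸ mem_inter.2 ⟨h4, hx⟩)).1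
        · constructor
          · intro h4
            have h5 : x ∈ S' ∪ Q := by
              rw [h3, ← h2]
              exact mem_union_left _ h4
            exact (mem_union.1 h5).resolve_right hx
          · intro h4
            have h5 : x ∈ S ∪ Q := by
              rw [h2, ← h3]
              exact mem_union_left _ h4
            exact (mem_union.1 h5).resolve_right hx
  have h2 : ((avoid 𝓕).card : ℝ) ≤ 2 ^ Q.card * (((avoid 𝓕).filter fun S => Q ⊆ S).card : ℝ) := by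
    exact_mod_cast h1
  rw [one_div, inv_pow, ← div_eq_mul_inv, div_le_iff₀ (by positivity), mul_comm]
  exact h2

theorem avoid_insert (𝓕 : Finset (Finset P)) (Q : Finset P) :
    ((avoid (insert Q 𝓕)).card : ℝ) ≤ (avoid 𝓕).card *
      (1 - (1 / 2 : ℝ) ^ Q.card +
        ∑ Q' ∈ 𝓕.filter (fun Q' => ¬ Disjoint Q Q'), (1 / 2 : ℝ) ^ (Q ∪ Q').card) := by
  obtain ⟨σ, hσ⟩ : ∃ σ : ℝ, σ = ∑ Q' ∈ 𝓕.filter (fun Q' => ¬ Disjoint Q Q'), (1 / 2 : ℝ) ^ (Q ∪ Q').card :=
    ⟨_, rfl⟩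
  rw [← hσ]
  -- split off the sets that contain `Q`
  have h1 : avoid (insert Q 𝓕) = (avoid 𝓕).filter fun S => ¬ Q ⊆ S := by
    ext S
    rw [mem_filter, jan_mem, jan_mem]
    constructor
    · intro h
      exact ⟨fun Q' hQ' => h Q' (mem_insert_of_mem hQ'), h Q (mem_insert_self _ _)⟩
    · rintro ⟨h2, h3⟩ Q' hQ'
      rcases mem_insert.1 hQ' with h4 | h4
      · rw [h4]
        exact h3
      · exact h2 Q' h4
  have h2 : ((avoid 𝓕).filter fun S => Q ⊆ S).card + (avoid (insert Q 𝓕)).card = (avoid 𝓕).card := by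
    rw [h1]
    exact card_filter_add_card_filter_not _
  have h3 : (((avoid 𝓕).filter fun S => Q ⊆ S).card : ℝ) + ((avoid (insert Q 𝓕)).card : ℝ) =
      (avoid 𝓕).card := by exact_mod_cast h2
  -- the members disjoint from `Q`
  obtain ⟨𝓖, h𝓖⟩ : ∃ 𝓖 : Finset (Finset P), 𝓖 = 𝓕.filter fun Q' => Disjoint Q Q' := ⟨_, rfl⟩
  have hsub : avoid 𝓕 ⊆ avoid 𝓖 := by
    intro S hS
    rw [jan_mem] at hS ⊢
    intro Q' hQ'
    rw [h𝓖] at hQ'
    exact hS Q' (mem_filter.1 hQ').1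
  have h4 : ((avoid 𝓕).card : ℝ) ≤ (avoid 𝓖).card := by exact_mod_cast card_le_card hsub
  have h5 := jan_low 𝓖 Q (fun Q' hQ' => by
    rw [h𝓖] at hQ'
    exact (mem_filter.1 hQ').2)
  have h6 : ((avoid 𝓖).filter fun S => Q ⊆ S) ⊆ ((avoid 𝓕).filter fun S => Q ⊆ S) ∪
      (𝓕.filter fun Q' => ¬ Disjoint Q Q').biUnion fun Q' => (avoid 𝓖).filter fun S => Q ∪ Q' ⊆ S := by
    intro S hS
    obtain ⟨h7, h8⟩ := mem_filter.1 hS
    by_cases h9 : S ∈ avoid 𝓕
    · exact mem_union_left _ (mem_filter.2 ⟨h9, h8⟩)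
    · rw [jan_mem] at h9
      push Not at h9
      obtain ⟨Q', hQ', hQS⟩ := h9
      refine mem_union_right _ (mem_biUnion.2 ⟨Q', mem_filter.2 ⟨hQ', fun hd => ?_⟩,
        mem_filter.2 ⟨h7, union_subset h8 hQS⟩⟩)
      refine jan_mem.1 h7 Q' ?_ hQS
      rw [h𝓖]
      exact mem_filter.2 ⟨hQ', hd⟩
  have h7 : (((avoid 𝓖).filter fun S => Q ⊆ S).card : ℝ) ≤
      ((avoid 𝓕).filter fun S => Q ⊆ S).card + (avoid 𝓖).card * σ := by
    have h8 := (card_le_card h6).trans (card_union_le _ _)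
    have h9 : (((avoid 𝓖).filter fun S => Q ⊆ S).card : ℝ) ≤ ((avoid 𝓕).filter fun S => Q ⊆ S).card +
        (((𝓕.filter fun Q' => ¬ Disjoint Q Q').biUnion fun Q' =>
          (avoid 𝓖).filter fun S => Q ∪ Q' ⊆ S).card : ℝ) := by exact_mod_cast h8
    refine h9.trans (add_le_add le_rfl ?_)
    have h10 : (((𝓕.filter fun Q' => ¬ Disjoint Q Q').biUnion fun Q' =>
        (avoid 𝓖).filter fun S => Q ∪ Q' ⊆ S).card : ℝ) ≤ ∑ Q' ∈ 𝓕.filter (fun Q' => ¬ Disjoint Q Q'),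
          (((avoid 𝓖).filter fun S => Q ∪ Q' ⊆ S).card : ℝ) := by
      exact_mod_cast card_biUnion_le
    refine h10.trans ?_
    rw [hσ, mul_sum]
    exact sum_le_sum fun Q' _ => jan_up 𝓖 (Q ∪ Q')
  have h8 : ((avoid 𝓖).card : ℝ) * ((1 / 2 : ℝ) ^ Q.card - σ) ≤ ((avoid 𝓕).filter fun S => Q ⊆ S).card := by
    linarith
  rcases le_or_gt ((1 / 2 : ℝ) ^ Q.card - σ) 0 with h9 | h9
  · have h10 : (0 : ℝ) ≤ (avoid 𝓕).card := Nat.cast_nonneg _
    have h11 : (0 : ℝ) ≤ ((avoid 𝓕).filter fun S => Q ⊆ S).card := Nat.cast_nonneg _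
    nlinarith
  · have h10 := mul_le_mul_of_nonneg_right h4 h9.le
    linarith

end MP979
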