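import Pool.Agent.Lib.MP_979eef_lc.Q.Defs

/-!
# MP_979eef_lc, protocols, module Kw: protocols and formulas (Karchmer-Wigderson)
`exists_fml`: induction on `P`. Leaf `i`: take `x0 ∈ X`, `y0 ∈ Y`: for all `x ∈ X`, `y ∈ Y` `x i ≠ y i`, so `x i = x0 i` for `x ∈ X` and `y i = ! x0 i` for `y ∈ Y`: the
literal `lit i (x0 i)`. `alice m P Q`: `X1 = X ∩ {m = true}`, `X2 = X ∩ {m = false}`; if `X1` is empty use the formula of `Q` for `X2 = X`, if `X2` is empty that of `P`; otherwise
the OR of the two. `bob`: AND. `Correct` of the parts follows from the definition of `run`.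
`exists_prot`: induction on `φ` (for all `X`, `Y` with `φ = 1` on `X`, `φ = 0` on `Y`): literal: leaf; OR: `alice (eval of the left part)`; AND: `bob (eval of the left part)`:
on `Y` one of the two parts is false: Bob sends the value of the left part, `true` means that the right part is false; so `bob (left part) Q' P'` with `Q'` for the right part.
-/

set_option autoImplicit false

namespace MP979

open Finset

theorem Correct.alice1 {ι : Type} {m : (ι → Bool) → Bool} {P Q : Prot ι} {X Y : Set (ι → Bool)}
    (h : (Prot.alice m P Q).Correct X Y) : P.Correct {x | x ∈ X ∧ m x = true} Y ∧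
      Q.Correct {x | x ∈ X ∧ m x = false} Y := by
  constructor
  · rintro x ⟨hx, hm⟩ y hy
    have := h x hx y hy
    simpa [Prot.run, hm] using this
  · rintro x ⟨hx, hm⟩ y hy
    have := h x hx y hy
    simpa [Prot.run, hm] using this

theorem Correct.bob1 {ι : Type} {m : (ι → Bool) → Bool} {P Q : Prot ι} {X Y : Set (ι → Bool)}
    (h : (Prot.bob m P Q).Correct X Y) : P.Correct X {y | y ∈ Y ∧ m y = true} ∧
      Q.Correct X {y | y ∈ Y ∧ m y = false} := by
  constructor
  · rintro x hx y ⟨hy, hm⟩
    have := h x hx y hy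
    simpa [Prot.run, hm] using this
  · rintro x hx y ⟨hy, hm⟩
    have := h x hx y hy
    simpa [Prot.run, hm] using this

theorem exists_fml {ι : Type} (P : Prot ι) {X Y : Set (ι → Bool)} (hX : X.Nonempty)
    (hY : Y.Nonempty) (h : P.Correct X Y) :
    ∃ φ : Fml ι, φ.depth ≤ P.depth ∧ (∀ x ∈ X, φ.eval x = true) ∧ ∀ y ∈ Y, φ.eval y = false := by
  induction P generalizing X Y with
  | leaf i =>
    obtain ⟨x0, hx0⟩ := hX
    obtain ⟨y0, hy0⟩ := hY
    have key : ∀ x ∈ X, ∀ y ∈ Y, x i ≠ y i := fun x hx y hy => h x hx y hy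
    refine ⟨.lit i (x0 i), le_refl _, ?_, ?_⟩
    · intro x hx
      have h1 := key x hx y0 hy0
      have h2 := key x0 hx0 y0 hy0
      simp only [Fml.eval]
      revert h1 h2
      cases x i <;> cases x0 i <;> cases y0 i <;> simp
    · intro y hy
      have h2 := key x0 hx0 y hy
      simp only [Fml.eval]
      revert h2
      cases x0 i <;> cases y i <;> simp
  | alice m P Q ihP ihQ =>
    obtain ⟨h1, h2⟩ := Correct.alice1 h
    by_cases e1 : ({x | x ∈ X ∧ m x = true} : Set (ι → Bool)).Nonempty
    · obtain ⟨φ, f1, f2, f3⟩ := ihP e1 hY h1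
      by_cases e2 : ({x | x ∈ X ∧ m x = false} : Set (ι → Bool)).Nonempty
      · obtain ⟨ψ, g1, g2, g3⟩ := ihQ e2 hY h2
        refine ⟨.or φ ψ, ?_, ?_, ?_⟩
        · simp only [Fml.depth, Prot.depth]; omega
        · intro x hx
          cases hm : m x with
          | false => simp only [Fml.eval, g2 x ⟨hx, hm⟩, Bool.or_true]
          | true => simp only [Fml.eval, f2 x ⟨hx, hm⟩, Bool.true_or]
        · intro y hy
          simp only [Fml.eval, f3 y hy, g3 y hy, Bool.or_false]
      · refine ⟨φ, ?_, ?_, f3⟩
        · simp only [Prot.depth]; omega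
        · intro x hx
          cases hm : m x with
          | false => exact absurd ⟨x, hx, hm⟩ e2
          | true => exact f2 x ⟨hx, hm⟩
    · have e2 : ({x | x ∈ X ∧ m x = false} : Set (ι → Bool)).Nonempty := by
        obtain ⟨x, hx⟩ := hX
        cases hm : m x with
        | false => exact ⟨x, hx, hm⟩
        | true => exact absurd ⟨x, hx, hm⟩ e1
      obtain ⟨ψ, g1, g2, g3⟩ := ihQ e2 hY h2
      refine ⟨ψ, ?_, ?_, g3⟩
      · simp only [Prot.depth]; omega
      · intro x hx
        cases hm : m x with
        | false => exact g2 x ⟨hx, hm⟩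
        | true => exact absurd ⟨x, hx, hm⟩ e1
  | bob m P Q ihP ihQ =>
    obtain ⟨h1, h2⟩ := Correct.bob1 h
    by_cases e1 : ({y | y ∈ Y ∧ m y = true} : Set (ι → Bool)).Nonempty
    · obtain ⟨φ, f1, f2, f3⟩ := ihP hX e1 h1
      by_cases e2 : ({y | y ∈ Y ∧ m y = false} : Set (ι → Bool)).Nonempty
      · obtain ⟨ψ, g1, g2, g3⟩ := ihQ hX e2 h2
        refine ⟨.and φ ψ, ?_, ?_, ?_⟩
        · simp only [Fml.depth, Prot.depth]; omega
        · intro x hx
          simp only [Fml.eval, f2 x hx, g2 x hx, Bool.and_true]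
        · intro y hy
          cases hm : m y with
          | false => simp only [Fml.eval, g3 y ⟨hy, hm⟩, Bool.and_false]
          | true => simp only [Fml.eval, f3 y ⟨hy, hm⟩, Bool.false_and]
      · refine ⟨φ, ?_, f2, ?_⟩
        · simp only [Prot.depth]; omega
        · intro y hy
          cases hm : m y with
          | false => exact absurd ⟨y, hy, hm⟩ e2
          | true => exact f3 y ⟨hy, hm⟩
    · have e2 : ({y | y ∈ Y ∧ m y = false} : Set (ι → Bool)).Nonempty := by
        obtain ⟨y, hy⟩ := hY
        cases hm : m y with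
        | false => exact ⟨y, hy, hm⟩
        | true => exact absurd ⟨y, hy, hm⟩ e1
      obtain ⟨ψ, g1, g2, g3⟩ := ihQ hX e2 h2
      refine ⟨ψ, ?_, g2, ?_⟩
      · simp only [Prot.depth]; omega
      · intro y hy
        cases hm : m y with
        | false => exact g3 y ⟨hy, hm⟩
        | true => exact absurd ⟨y, hy, hm⟩ e1

theorem exists_prot {ι : Type} (φ : Fml ι) {X Y : Set (ι → Bool)} (hX : ∀ x ∈ X, φ.eval x = true)
    (hY : ∀ y ∈ Y, φ.eval y = false) : ∃ P : Prot ι, P.depth ≤ φ.depth ∧ P.Correct X Y := by
  induction φ generalizing X Y with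
  | lit i b =>
    refine ⟨.leaf i, le_refl _, ?_⟩
    intro x hx y hy
    have h1 := hX x hx
    have h2 := hY y hy
    simp only [Fml.eval] at h1 h2
    simp only [Prot.run]
    intro h3
    rw [h3, h2] at h1
    exact absurd h1 (by decide)
  | and p q hp hq =>
    obtain ⟨P, p1, p2⟩ := hp (X := X) (Y := {y | y ∈ Y ∧ p.eval y = false})
      (fun x hx => by
        have := hX x hx
        simp only [Fml.eval, Bool.and_eq_true] at this
        exact this.1) (fun y hy => hy.2)
    obtain ⟨Q, q1, q2⟩ := hq (X := X) (Y := {y | y ∈ Y ∧ p.eval y = true})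
      (fun x hx => by
        have := hX x hx
        simp only [Fml.eval, Bool.and_eq_true] at this
        exact this.2) (fun y hy => by
        have := hY y hy.1
        have h2 : p.eval y = true := hy.2
        simpa [Fml.eval, h2] using this)
    refine ⟨.bob (fun y => p.eval y) Q P, ?_, ?_⟩
    · simp only [Prot.depth, Fml.depth]; omega
    · intro x hx y hy
      cases hm : p.eval y with
      | true =>
        have := q2 x hx y ⟨hy, hm⟩
        simpa [Prot.run, hm] using this
      | false =>
        have := p2 x hx y ⟨hy, hm⟩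
        simpa [Prot.run, hm] using this
  | or p q hp hq =>
    obtain ⟨P, p1, p2⟩ := hp (X := {x | x ∈ X ∧ p.eval x = true}) (Y := Y)
      (fun x hx => hx.2) (fun y hy => by
        have := hY y hy
        simp only [Fml.eval, Bool.or_eq_false_iff] at this
        exact this.1)
    obtain ⟨Q, q1, q2⟩ := hq (X := {x | x ∈ X ∧ p.eval x = false}) (Y := Y)
      (fun x hx => by
        have := hX x hx.1
        have h2 : p.eval x = false := hx.2
        simpa [Fml.eval, h2] using this) (fun y hy => by
        have := hY y hy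
        simp only [Fml.eval, Bool.or_eq_false_iff] at this
        exact this.2)
    refine ⟨.alice (fun x => p.eval x) P Q, ?_, ?_⟩
    · simp only [Prot.depth, Fml.depth]; omega
    · intro x hx y hy
      cases hm : p.eval x with
      | true =>
        have := p2 x ⟨hx, hm⟩ y hy
        simpa [Prot.run, hm] using this
      | false =>
        have := q2 x ⟨hx, hm⟩ y hy
        simpa [Prot.run, hm] using this

/-- the theorem of Karchmer and Wigderson -/
theorem kw_iff {ι : Type} (h : (ι → Bool) → Bool) (h1 : ∃ x, h x = true) (h0 : ∃ x, h x = false)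
    (d : ℕ) : (∃ P : Prot ι, P.Solves h ∧ P.depth ≤ d) ↔
      ∃ φ : Fml ι, (∀ x, φ.eval x = h x) ∧ φ.depth ≤ d := by
  constructor
  · rintro ⟨P, hP, hd⟩
    obtain ⟨φ, f1, f2, f3⟩ := exists_fml P (X := {x | h x = true}) (Y := {y | h y = false}) h1 h0 hP
    refine ⟨φ, fun x => ?_, f1.trans hd⟩
    cases hx : h x with
    | true => exact f2 x hx
    | false => exact f3 x hx
  · rintro ⟨φ, hφ, hd⟩
    obtain ⟨P, p1, p2⟩ := exists_prot φ (X := {x | h x = true}) (Y := {y | h y = false})
      (fun x hx => by rw [hφ]; exact hx) (fun y hy => by rw [hφ]; exact hy)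
    exact ⟨P, p2, p1.trans hd⟩

end MP979
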