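import Mathlib

/-!
# MP_979eef_lc, protocols, module PaB: the parameters of the restorations
-/

set_option autoImplicit false

namespace MP979

theorem par_num (ε η : ℝ) (hε : 0 < ε) (hη : 0 < η) : ∃ (ρ : ℝ) (n₀ : ℕ), 0 < ρ ∧ ∀ n ≥ n₀,
    ∃ C : ℕ, 1 ≤ C ∧ (∀ r : ℕ, (r : ℝ) * Real.log n ≤ ρ * n → r + 1 ≤ 2 * ⌊η * n⌋₊ ∧
      ∀ k T : ℕ, k ≤ 2 * n → T ≤ 2 * n →
        2 ^ (2 * T + k * (r + 1)) < (2 ^ ⌊η * n⌋₊) ^ (C + 1)) ∧
      (8 * (n : ℝ)) ^ C * (2 * (C : ℝ) ^ 2 * (2 * n) ^ C + 4) ≤ 2 ^ (ε * n) := by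
  set γ : ℝ := min ε 1 / 12 with hγ
  have hγ0 : 0 < γ := by
    have : 0 < min ε 1 := lt_min hε one_pos
    positivity
  have hγε : γ ≤ ε / 12 := by
    have : min ε 1 ≤ ε := min_le_left _ _
    linarith
  have hγ1 : γ ≤ 1 / 12 := by
    have : min ε 1 ≤ 1 := min_le_right _ _
    linarith
  set ρ : ℝ := min (η / 4) (η * γ / 8) with hρ
  have hρ0 : 0 < ρ := lt_min (by positivity) (by positivity)
  have hρ1 : ρ ≤ η / 4 := min_le_left _ _
  have hρ2 : ρ ≤ η * γ / 8 := min_le_right _ _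
  set κ : ℝ := min (η * γ) ε / 48 with hκ
  have hκ0 : 0 < κ := by
    have : 0 < min (η * γ) ε := lt_min (by positivity) hε
    positivity
  have hκ1 : 48 * κ ≤ η * γ := by
    have : min (η * γ) ε ≤ η * γ := min_le_left _ _
    linarith
  have hκ2 : 48 * κ ≤ ε := by
    have : min (η * γ) ε ≤ ε := min_le_right _ _
    linarith
  have hev : ∀ᶠ n : ℕ in Filter.atTop, Real.log n ≤ κ * n := by
    have h1 := (Real.isLittleO_log_id_atTop.bound hκ0)
    have h2 := (tendsto_natCast_atTop_atTop (R := ℝ)).eventually h1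
    filter_upwards [h2] with n hn
    simp only [id_eq, Real.norm_eq_abs] at hn
    rw [abs_of_nonneg (Nat.cast_nonneg n : (0 : ℝ) ≤ n)] at hn
    exact (le_abs_self _).trans hn
  obtain ⟨n₁, hn₁⟩ := Filter.eventually_atTop.1 hev
  refine ⟨ρ, max n₁ (max 8 ⌈4 / η⌉₊), hρ0, fun n hn => ?_⟩
  have hnn₁ : n₁ ≤ n := (le_max_left _ _).trans hn
  have hn8 : 8 ≤ n := ((le_max_left _ _).trans (le_max_right _ _)).trans hn
  have hn8' : (8 : ℝ) ≤ n := by exact_mod_cast hn8
  have hn0 : (0 : ℝ) < n := by linarith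
  have hnη : 4 ≤ η * n := by
    have h1 : ⌈4 / η⌉₊ ≤ n := ((le_max_right _ _).trans (le_max_right _ _)).trans hn
    have h2 : 4 / η ≤ n := (Nat.le_ceil _).trans (by exact_mod_cast h1)
    rw [div_le_iff₀ hη] at h2
    linarith
  set L : ℝ := Real.log n with hL
  have hL1 : 1 ≤ L := by
    rw [hL, Real.le_log_iff_exp_le hn0]
    have := Real.exp_one_lt_d9
    linarith
  have hL0 : 0 < L := by linarith
  have hLκ : L ≤ κ * n := hn₁ n hnn₁
  have hLa : 24 * L < η * γ * n := by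
    have h1 : 48 * κ * n ≤ η * γ * n := mul_le_mul_of_nonneg_right hκ1 hn0.le
    nlinarith
  have hLb : 24 * L ≤ ε * n := by
    have h1 : 48 * κ * n ≤ ε * n := mul_le_mul_of_nonneg_right hκ2 hn0.le
    nlinarith
  set C : ℕ := ⌊γ * n / L⌋₊ + 1 with hC
  have hC1 : γ * n / L < C := by
    rw [hC]
    push_cast
    exact Nat.lt_floor_add_one _
  have hC2 : (C : ℝ) ≤ γ * n / L + 1 := by
    rw [hC]
    push_cast
    have := Nat.floor_le (show 0 ≤ γ * n / L by positivity)
    linarith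
  refine ⟨C, by omega, fun r hr => ?_, ?_⟩
  · have hrL : (r : ℝ) ≤ ρ * n / L := (le_div_iff₀ hL0).2 hr
    set t0 : ℕ := ⌊η * n⌋₊ with ht0
    have ht : η * n / 2 ≤ t0 := by
      have := Nat.lt_floor_add_one (η * n)
      rw [← ht0] at this
      linarith
    constructor
    · have h1 : (r : ℝ) ≤ ρ * n := by
        refine hrL.trans ?_
        rw [div_le_iff₀ hL0]
        have : 0 ≤ ρ * n := by positivity
        nlinarith
      have h2 : ρ * n ≤ η / 4 * n := mul_le_mul_of_nonneg_right hρ1 hn0.le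
      have h3 : (r : ℝ) + 1 ≤ 2 * t0 := by linarith
      exact_mod_cast h3
    · intro k T hk hT
      rw [← pow_mul]
      refine Nat.pow_lt_pow_right (by norm_num) ?_
      have hk' : (k : ℝ) ≤ 2 * n := by exact_mod_cast hk
      have hT' : (T : ℝ) ≤ 2 * n := by exact_mod_cast hT
      have hr0 : (0 : ℝ) ≤ r := Nat.cast_nonneg r
      have h1 : 2 * (T : ℝ) + k * (r + 1) ≤ 6 * n + 2 * n * r := by
        have : (k : ℝ) * (r + 1) ≤ 2 * n * (r + 1) :=
          mul_le_mul_of_nonneg_right hk' (by linarith)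
        linarith
      have h2 : 2 * (n : ℝ) * r ≤ η * γ / 4 * (n * n / L) := by
        have h3 : (r : ℝ) ≤ η * γ / 8 * n / L := by
          refine hrL.trans ?_
          exact div_le_div_of_nonneg_right (mul_le_mul_of_nonneg_right hρ2 hn0.le) hL0.le
        calc 2 * (n : ℝ) * r ≤ 2 * n * (η * γ / 8 * n / L) :=
              mul_le_mul_of_nonneg_left h3 (by positivity)
          _ = η * γ / 4 * (n * n / L) := by ring
      have h3 : 6 * (n : ℝ) < η * γ / 4 * (n * n / L) := by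
        have h4 : η * γ / 4 * (n * n / L) = (η * γ * n) * n / (4 * L) := by
          field_simp
        rw [h4, lt_div_iff₀ (by positivity)]
        nlinarith
      have h4 : η * γ / 2 * (n * n / L) ≤ t0 * (C + 1) := by
        have h5 : η * γ / 2 * (n * n / L) = (η * n / 2) * (γ * n / L) := by ring
        rw [h5]
        exact mul_le_mul ht (by linarith) (by positivity) (Nat.cast_nonneg _)
      have h5 : 2 * (T : ℝ) + k * (r + 1) < t0 * (C + 1) := by linarith
      exact_mod_cast h5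
  · have hCn : (C : ℝ) ≤ n := by
      refine hC2.trans ?_
      have h1 : γ * n / L ≤ γ * n := by
        rw [div_le_iff₀ hL0]
        have : 0 ≤ γ * n := by positivity
        nlinarith
      have h2 : γ * n ≤ 1 / 12 * n := mul_le_mul_of_nonneg_right hγ1 hn0.le
      linarith
    have hC0 : (1 : ℝ) ≤ C := by
      have : 1 ≤ C := by omega
      exact_mod_cast this
    have h1 : (1 : ℝ) ≤ (2 * n) ^ C := one_le_pow₀ (by linarith)
    have h2 : 2 * (C : ℝ) ^ 2 * (2 * n) ^ C + 4 ≤ 6 * (C : ℝ) ^ 2 * (2 * n) ^ C := by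
      have h3 : 1 ≤ (C : ℝ) ^ 2 * (2 * n) ^ C := by
        have := one_le_pow₀ (n := 2) hC0
        nlinarith
      linarith
    have h3 : 6 * (C : ℝ) ^ 2 * (2 * n) ^ C ≤ (8 * n) ^ 2 * (8 * n) ^ C := by
      have h4 : 6 * (C : ℝ) ^ 2 ≤ (8 * n) ^ 2 := by nlinarith
      have h5 : (2 * (n : ℝ)) ^ C ≤ (8 * n) ^ C := pow_le_pow_left₀ (by positivity) (by linarith) _
      exact mul_le_mul h4 h5 (by positivity) (by positivity)
    have h4 : (8 * (n : ℝ)) ^ C * (2 * (C : ℝ) ^ 2 * (2 * n) ^ C + 4) ≤ (8 * n) ^ (2 * C + 2) := by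
      calc (8 * (n : ℝ)) ^ C * (2 * (C : ℝ) ^ 2 * (2 * n) ^ C + 4)
          ≤ (8 * (n : ℝ)) ^ C * ((8 * n) ^ 2 * (8 * n) ^ C) :=
            mul_le_mul_of_nonneg_left (h2.trans h3) (by positivity)
        _ = (8 * n) ^ (2 * C + 2) := by ring
    refine h4.trans ?_
    have h8n : (0 : ℝ) < 8 * n := by positivity
    have h5 : (8 * (n : ℝ)) ^ (2 * C + 2) = Real.exp ((2 * C + 2) * Real.log (8 * n)) := by
      rw [← Real.rpow_natCast, Real.rpow_def_of_pos h8n]
      congr 1
      push_cast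
      ring
    have h6 : (2 : ℝ) ^ (ε * n) = Real.exp (Real.log 2 * (ε * n)) :=
      Real.rpow_def_of_pos (by norm_num) _
    rw [h5, h6]
    refine Real.exp_le_exp.2 ?_
    have h7 : Real.log (8 * n) ≤ 2 * L := by
      have h8 : Real.log (8 * n) ≤ Real.log (n * n) :=
        Real.log_le_log h8n (mul_le_mul_of_nonneg_right hn8' hn0.le)
      rw [Real.log_mul hn0.ne' hn0.ne'] at h8
      linarith
    have h9 : (2 * (C : ℝ) + 2) * Real.log (8 * n) ≤ (2 * C + 2) * (2 * L) :=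
      mul_le_mul_of_nonneg_left h7 (by linarith)
    have h10 : (2 * (C : ℝ) + 2) * (2 * L) ≤ 4 * (γ * n) + 8 * L := by
      have h11 : (C : ℝ) * L ≤ γ * n + L := by
        calc (C : ℝ) * L ≤ (γ * n / L + 1) * L := mul_le_mul_of_nonneg_right hC2 hL0.le
          _ = γ * n + L := by field_simp
      linarith
    have h11 : 4 * (γ * n) ≤ ε / 3 * n := by
      have := mul_le_mul_of_nonneg_right hγε hn0.le
      linarith
    have h12 : 2 / 3 * (ε * n) ≤ Real.log 2 * (ε * n) := by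
      refine mul_le_mul_of_nonneg_right ?_ (by positivity)
      have := Real.log_two_gt_d9
      linarith
    linarith

end MP979
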