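import Pool.Agent.Lib.MP_979eef_lc.Q.Defs

/-!
# MP_979eef_lc, protocols, module Pat: a pattern which is good for all small sets of blocks
PROOF. Otherwise every `p : Fin n → Bool` lies in a bad cell `(J, K)`: `K ⊆ J`, `1 ≤ |J| ≤ C`, `p = true` exactly on `K` within `J`, and there is a formula `φ_(J,K)` of size
`< c / (8 n) ^ |J|` which separates `onJ A J 1_K` from `onJ B J 1_K`. The OR over all bad cells of (AND of the literals of the cell) AND `φ_(J,K)` separates `A` from `B` (every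
`a ∈ A` lies in some bad cell; `b ∈ B` in a bad cell is refuted by `φ_(J,K)`, otherwise by a literal). Its size is at most the sum over the bad cells of `|J| + |φ_(J,K)|`, and
there are at most `(2 n) ^ j` cells with `|J| = j` (`choose n j ≤ n ^ j`): less than `∑_(j=1..C) (2 n)^j (j + c / (8 n)^j) ≤ C ^ 2 (2 n) ^ C + c / 3 < c`. (The list of
bad cells is not empty, so the OR exists; formulas have no constants.) Lemmas on the OR and the AND of a nonempty list (or Finset) of formulas, with eval and size, are needed.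
-/

set_option autoImplicit false

namespace MP979

open Finset

variable {n : ℕ} {A B : Set (Fin n → Bool)} {c : ℝ}

/-- the AND of the literals of a cell and of a formula -/
private theorem pat_and (p : Fin n → Bool) (φ : Fml (Fin n)) (J : Finset (Fin n)) :
    ∃ ψ : Fml (Fin n), (∀ x, ψ.eval x = true ↔ (∀ i ∈ J, x i = p i) ∧ φ.eval x = true) ∧
      ψ.size = J.card + φ.size := by
  classical
  induction J using Finset.induction_on with
  | empty => exact ⟨φ, fun x => by simp, by simp⟩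
  | insert i J hi ih =>
    obtain ⟨ψ, h1, h2⟩ := ih
    refine ⟨Fml.and (Fml.lit i (p i)) ψ, fun x => ?_, ?_⟩
    · simp only [Fml.eval, Bool.and_eq_true, h1, Finset.mem_insert, forall_eq_or_imp, beq_iff_eq]
      tauto
    · simp only [Fml.size, h2, Finset.card_insert_of_notMem hi]
      omega

/-- the OR of the formulas of a nonempty set -/
private theorem pat_or {κ : Type} (s : Finset κ) (hs : s.Nonempty) (Ψ : κ → Fml (Fin n)) :
    ∃ ψ : Fml (Fin n), (∀ x, ψ.eval x = true ↔ ∃ k ∈ s, (Ψ k).eval x = true) ∧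
      ψ.size = ∑ k ∈ s, (Ψ k).size := by
  classical
  induction hs using Finset.Nonempty.cons_induction with
  | singleton k => exact ⟨Ψ k, fun x => by simp, by simp⟩
  | cons k s hk hs ih =>
    obtain ⟨ψ, h1, h2⟩ := ih
    refine ⟨Fml.or (Ψ k) ψ, fun x => ?_, ?_⟩
    · simp only [Fml.eval, Bool.or_eq_true, h1, Finset.mem_cons, exists_eq_or_imp]
    · simp only [Fml.size, h2, Finset.sum_cons]

private theorem pat_onJ (A : Set (Fin n → Bool)) (J : Finset (Fin n)) {p q : Fin n → Bool}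
    (h : ∀ i ∈ J, p i = q i) : onJ A J p = onJ A J q := by
  ext a
  unfold onJ
  constructor
  · rintro ⟨h1, h2⟩
    exact ⟨h1, fun i hi => (h2 i hi).trans (h i hi)⟩
  · rintro ⟨h1, h2⟩
    exact ⟨h1, fun i hi => (h2 i hi).trans (h i hi).symm⟩

private theorem pat_count (S : Finset (Finset (Fin n) × Finset (Fin n))) (j : ℕ)
    (hS : ∀ x ∈ S, x.2 ⊆ x.1 ∧ x.1.card = j) : S.card ≤ (2 * n) ^ j := by
  classical
  have h1 : S.card ≤ ((powersetCard j (univ : Finset (Fin n))).sigma
      (fun J => J.powerset)).card := by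
    apply Finset.card_le_card_of_injOn (fun x => (⟨x.1, x.2⟩ : (_ : Finset (Fin n)) × Finset (Fin n)))
    · intro x hx
      have := hS x hx
      simp only [Finset.coe_sigma, Set.mem_sigma_iff, Finset.mem_coe, Finset.mem_powersetCard,
        Finset.mem_powerset]
      exact ⟨⟨Finset.subset_univ _, this.2⟩, this.1⟩
    · intro x _ y _ hxy
      simp only [Sigma.mk.injEq, heq_eq_eq] at hxy
      exact Prod.ext hxy.1 hxy.2
  rw [Finset.card_sigma] at h1
  have h2 : ∑ J ∈ powersetCard j (univ : Finset (Fin n)), J.powerset.card = n.choose j * 2 ^ j := by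
    rw [Finset.sum_congr rfl (fun J hJ => by
      rw [Finset.card_powerset, (Finset.mem_powersetCard.1 hJ).2])]
    rw [Finset.sum_const, Finset.card_powersetCard, Finset.card_univ, Fintype.card_fin,
      smul_eq_mul]
  rw [h2] at h1
  have h3 : n.choose j ≤ n ^ j := Nat.choose_le_pow n j
  calc S.card ≤ n.choose j * 2 ^ j := h1
    _ ≤ n ^ j * 2 ^ j := Nat.mul_le_mul_right _ h3
    _ = (2 * n) ^ j := by rw [mul_pow, mul_comm]

private theorem pat_geom (C : ℕ) : ∑ j ∈ Icc 1 C, (1 / 4 : ℝ) ^ j ≤ 1 / 3 := by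
  have h : ∀ C : ℕ, ∑ j ∈ Icc 1 C, (1 / 4 : ℝ) ^ j = (1 - (1 / 4 : ℝ) ^ C) / 3 := by
    intro C
    induction C with
    | zero => simp
    | succ C ih =>
      rw [Finset.sum_Icc_succ_top (by omega), ih, pow_succ]
      ring
  rw [h]
  have : (0 : ℝ) ≤ (1 / 4 : ℝ) ^ C := by positivity
  linarith

theorem hard_pattern (hn : 0 < n) (h : HardQ A B c) (C : ℕ) (hC : 1 ≤ C)
    (hc : 2 * (C : ℝ) ^ 2 * (2 * n) ^ C ≤ c) :
    ∃ p : Fin n → Bool, ∀ J : Finset (Fin n), J.Nonempty → J.card ≤ C →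
      HardQ (onJ A J p) (onJ B J p) (c / (8 * n) ^ J.card) := by
  classical
  by_contra hcon
  push Not at hcon
  have hn' : (1 : ℝ) ≤ n := by exact_mod_cast hn
  have hc0 : 0 < c := by
    refine lt_of_lt_of_le ?_ hc
    have : (0 : ℝ) < C := by exact_mod_cast hC
    positivity
  -- the pattern of a cell
  let pt : Finset (Fin n) → (Fin n → Bool) := fun K i => decide (i ∈ K)
  let IsSep : Finset (Fin n) × Finset (Fin n) → Fml (Fin n) → Prop := fun x φ =>
    (∀ a ∈ onJ A x.1 (pt x.2), φ.eval a = true) ∧ (∀ b ∈ onJ B x.1 (pt x.2), φ.eval b = false) ∧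
      (φ.size : ℝ) < c / (8 * n) ^ x.1.card
  let Bad : Finset (Finset (Fin n) × Finset (Fin n)) :=
    univ.filter (fun x => x.1.Nonempty ∧ x.1.card ≤ C ∧ x.2 ⊆ x.1 ∧ ∃ φ, IsSep x φ)
  have hcov : ∀ p : Fin n → Bool, ∃ x ∈ Bad, ∀ i ∈ x.1, p i = pt x.2 i := by
    intro p
    obtain ⟨J, hJ1, hJ2, hJ3⟩ := hcon p
    have hag : ∀ i ∈ J, p i = pt (J.filter (fun i => p i = true)) i := by
      intro i hi
      show p i = decide (i ∈ J.filter (fun i => p i = true))
      by_cases hp : p i = true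
      · rw [hp]
        symm
        rw [decide_eq_true_iff, Finset.mem_filter]
        exact ⟨hi, hp⟩
      · have h2 : i ∉ J.filter (fun i => p i = true) := by
          rw [Finset.mem_filter]
          exact fun h => hp h.2
        rw [decide_eq_false h2]
        simpa using hp
    refine ⟨(J, J.filter (fun i => p i = true)), ?_, hag⟩
    simp only [Bad, Finset.mem_filter, Finset.mem_univ, true_and]
    refine ⟨hJ1, hJ2, Finset.filter_subset _ _, ?_⟩
    unfold HardQ at hJ3
    push Not at hJ3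
    obtain ⟨φ, h1, h2, h3⟩ := hJ3
    refine ⟨φ, ?_, ?_, h3⟩
    · intro a ha
      exact h1 a (by rw [pat_onJ A J hag]; exact ha)
    · intro b hb
      exact h2 b (by rw [pat_onJ B J hag]; exact hb)
  have hφ : ∀ x : Finset (Fin n) × Finset (Fin n), ∃ φ : Fml (Fin n), x ∈ Bad → IsSep x φ := by
    intro x
    by_cases hx : x ∈ Bad
    · have hx' := hx
      simp only [Bad, Finset.mem_filter, Finset.mem_univ, true_and] at hx'
      obtain ⟨φ, hφ⟩ := hx'.2.2.2
      exact ⟨φ, fun _ => hφ⟩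
    · exact ⟨Fml.lit ⟨0, hn⟩ true, fun h => absurd h hx⟩
  choose Φ hΦ using hφ
  choose Ψ hΨ1 hΨ2 using fun x : Finset (Fin n) × Finset (Fin n) => pat_and (pt x.2) (Φ x) x.1
  have hne : Bad.Nonempty := by
    obtain ⟨x, hx, _⟩ := hcov (fun _ => false)
    exact ⟨x, hx⟩
  obtain ⟨ψ, hψ1, hψ2⟩ := pat_or Bad hne Ψ
  have hle : c ≤ ψ.size := by
    apply h ψ
    · intro a ha
      rw [hψ1]
      obtain ⟨x, hx, hag⟩ := hcov a
      refine ⟨x, hx, ?_⟩
      rw [hΨ1]
      exact ⟨hag, (hΦ x hx).1 a ⟨ha, hag⟩⟩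
    · intro b hb
      rw [Bool.eq_false_iff]
      intro hb1
      rw [hψ1] at hb1
      obtain ⟨x, hx, h1⟩ := hb1
      rw [hΨ1] at h1
      have h2 := (hΦ x hx).2.1 b ⟨hb, h1.1⟩
      rw [h2] at h1
      exact absurd h1.2 (by simp)
  -- the size
  have hsz : (ψ.size : ℝ) ≤ ∑ x ∈ Bad, ((x.1.card : ℝ) + c / (8 * n) ^ x.1.card) := by
    rw [hψ2]
    push_cast
    apply Finset.sum_le_sum
    intro x hx
    rw [hΨ2]
    push_cast
    have := (hΦ x hx).2.2
    linarith
  have hfib : ∑ x ∈ Bad, ((x.1.card : ℝ) + c / (8 * n) ^ x.1.card) =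
      ∑ j ∈ Icc 1 C, ∑ x ∈ Bad.filter (fun x => x.1.card = j),
        ((x.1.card : ℝ) + c / (8 * n) ^ x.1.card) := by
    symm
    apply Finset.sum_fiberwise_of_maps_to
    intro x hx
    simp only [Bad, Finset.mem_filter, Finset.mem_univ, true_and] at hx
    rw [Finset.mem_Icc]
    exact ⟨Finset.card_pos.2 hx.1, hx.2.1⟩
  have hterm : ∀ j ∈ Icc 1 C, ∑ x ∈ Bad.filter (fun x => x.1.card = j),
      ((x.1.card : ℝ) + c / (8 * n) ^ x.1.card) ≤ C * (2 * n) ^ C + c * (1 / 4) ^ j := by
    intro j hj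
    rw [Finset.mem_Icc] at hj
    have h1 : ∑ x ∈ Bad.filter (fun x => x.1.card = j),
        ((x.1.card : ℝ) + c / (8 * n) ^ x.1.card) =
        ((Bad.filter (fun x => x.1.card = j)).card : ℝ) * ((j : ℝ) + c / (8 * n) ^ j) := by
      rw [Finset.sum_congr rfl (fun x hx => by rw [(Finset.mem_filter.1 hx).2]),
        Finset.sum_const, nsmul_eq_mul]
    have h2 : ((Bad.filter (fun x => x.1.card = j)).card : ℝ) ≤ (2 * n) ^ j := by
      have := pat_count (Bad.filter (fun x => x.1.card = j)) j (fun x hx => by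
        rw [Finset.mem_filter] at hx
        have h3 := hx.1
        simp only [Bad, Finset.mem_filter, Finset.mem_univ, true_and] at h3
        exact ⟨h3.2.2.1, hx.2⟩)
      exact_mod_cast this
    rw [h1]
    have h3 : (0 : ℝ) ≤ (j : ℝ) + c / (8 * n) ^ j := by positivity
    have h4 : ((2 * n : ℝ)) ^ j * ((j : ℝ) + c / (8 * n) ^ j) = j * (2 * n) ^ j + c * (1 / 4) ^ j := by
      have h5 : (8 * n : ℝ) ^ j = 4 ^ j * (2 * n) ^ j := by
        rw [← mul_pow]; ring
      have h6 : ((2 * n : ℝ)) ^ j ≠ 0 := by positivity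
      rw [h5, one_div, inv_pow]
      field_simp
    calc ((Bad.filter (fun x => x.1.card = j)).card : ℝ) * ((j : ℝ) + c / (8 * n) ^ j)
        ≤ (2 * n) ^ j * ((j : ℝ) + c / (8 * n) ^ j) := mul_le_mul_of_nonneg_right h2 h3
      _ = j * (2 * n) ^ j + c * (1 / 4) ^ j := h4
      _ ≤ C * (2 * n) ^ C + c * (1 / 4) ^ j := by
        have h7 : (j : ℝ) ≤ C := by exact_mod_cast hj.2
        have h8 : ((2 * n : ℝ)) ^ j ≤ (2 * n) ^ C := pow_le_pow_right₀ (by linarith) hj.2
        have h9 : (j : ℝ) * (2 * n) ^ j ≤ C * (2 * n) ^ C :=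
          mul_le_mul h7 h8 (by positivity) (by positivity)
        linarith
  have htot : (ψ.size : ℝ) ≤ C * (C * (2 * n) ^ C) + c * (1 / 3) := by
    refine hsz.trans (hfib.le.trans ((Finset.sum_le_sum hterm).trans ?_))
    rw [Finset.sum_add_distrib, Finset.sum_const, Nat.card_Icc, ← Finset.mul_sum, nsmul_eq_mul]
    have h1 := mul_le_mul_of_nonneg_left (pat_geom C) hc0.le
    have h2 : ((C + 1 - 1 : ℕ) : ℝ) = C := by simp
    rw [h2]
    linarith
  have h1 : (C : ℝ) * (C * (2 * n) ^ C) = C ^ 2 * (2 * n) ^ C := by ring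
  rw [h1] at htot
  nlinarith

end MP979
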