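import Pool.Agent.Lib.MP_979eef_lc.Q.Goo

/-!
# MP_979eef_lc, protocols, module Res: the density restoring partition
By `good_exists` `part θ F R` is a `GoodCell` of `R` if `R ≠ ∅`, and then it is not empty (`|R| θ ^ |J| > 0`). So `rem θ F W k` loses at least one element in each step until it is
empty; `rem θ F W k ⊆ W`, and `rem θ F W k = ∅` for `k ≥ |W|`.
`restE_card`: `W` empty: trivial. Otherwise let `K` be the least `k` with `2 |rem k| < |W|`. If `w ∈ W` is not in `restE` then `w ∈ rem k` for all `k ≤ K` (induction), so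
`W \ restE ⊆ rem K` has less than `|W| / 2` elements.
`restE_spec`: `w ∈ part (rem k)` with `|W| ≤ 2 |rem k|`: the cell is that of `(J, ζ)`, `w i = ζ i` on `J`; `|W| θ ^ |J| ≤ 2 |rem k| θ ^ |J| ≤ 2 |part| q ^ |J|`.
If `rem k` were empty then `w` could not be in `part (rem k) ⊆ rem k`; so `k < |W|`.
-/

set_option autoImplicit false

namespace MP979

open Finset

variable {n : ℕ} {Z : Type} [Fintype Z] [DecidableEq Z]

private theorem res_part_subset (θ : ℕ) (F : Finset (Fin n)) (R : Finset (Fin n → Z)) :
    part θ F R ⊆ R := by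
  classical
  unfold part
  split_ifs with h
  · exact Finset.filter_subset _ _
  · exact Finset.Subset.refl _

private theorem res_part_good {θ : ℕ} (hθ : 1 ≤ θ) (F : Finset (Fin n))
    {R : Finset (Fin n → Z)} (hR : R.Nonempty) :
    ∃ c, GoodCell θ F R c ∧ part θ F R = cell R c.1 c.2 := by
  classical
  have h := good_exists hθ F hR
  refine ⟨Classical.choose h, Classical.choose_spec h, ?_⟩
  unfold part
  rw [dif_pos h]

private theorem res_part_nonempty {θ : ℕ} (hθ : 1 ≤ θ) (F : Finset (Fin n))
    {R : Finset (Fin n → Z)} (hR : R.Nonempty) : (part θ F R).Nonempty := by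
  obtain ⟨c, hc, he⟩ := res_part_good hθ F hR
  rw [he]
  obtain ⟨_, h2, _⟩ := hc
  have h3 : 0 < R.card * θ ^ c.1.card := Nat.mul_pos hR.card_pos (pow_pos (by omega) _)
  have h4 : 0 < (cell R c.1 c.2).card * Fintype.card Z ^ c.1.card := lt_of_lt_of_le h3 h2
  exact Finset.card_pos.mp (Nat.pos_of_mul_pos_right h4)

private theorem res_rem_subset (θ : ℕ) (F : Finset (Fin n)) (W : Finset (Fin n → Z)) (k : ℕ) :
    rem θ F W k ⊆ W := by
  induction k with
  | zero => exact Finset.Subset.refl _
  | succ k ih => exact (Finset.sdiff_subset).trans ih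

private theorem res_rem_card {θ : ℕ} (hθ : 1 ≤ θ) (F : Finset (Fin n))
    (W : Finset (Fin n → Z)) (k : ℕ) :
    rem θ F W k = ∅ ∨ (rem θ F W k).card + k ≤ W.card := by
  induction k with
  | zero => exact Or.inr (le_refl _)
  | succ k ih =>
    have hs : rem θ F W (k + 1) = rem θ F W k \ part θ F (rem θ F W k) := rfl
    rcases Finset.eq_empty_or_nonempty (rem θ F W k) with he | hne
    · left
      rw [hs, he]
      exact Finset.empty_sdiff _
    · right
      rcases ih with he | ih
      · exact absurd he hne.ne_empty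
      · have h1 := res_part_nonempty hθ F hne
        have h2 := res_part_subset θ F (rem θ F W k)
        have h3 : (rem θ F W (k + 1)).card + (part θ F (rem θ F W k)).card =
            (rem θ F W k).card := by
          rw [hs]
          exact Finset.card_sdiff_add_card_eq_card h2
        have h4 := h1.card_pos
        omega

private theorem res_rem_lt {θ : ℕ} (hθ : 1 ≤ θ) (F : Finset (Fin n))
    (W : Finset (Fin n → Z)) (k : ℕ) (h : (rem θ F W k).Nonempty) : k < W.card := by
  rcases res_rem_card hθ F W k with he | h1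
  · exact absurd he h.ne_empty
  · have := h.card_pos
    omega

theorem restE_subset (θ : ℕ) (F : Finset (Fin n)) (W : Finset (Fin n → Z)) :
    restE θ F W ⊆ W := by
  classical
  unfold restE
  exact Finset.filter_subset _ _

theorem restE_card {θ : ℕ} (hθ : 1 ≤ θ) (F : Finset (Fin n)) (W : Finset (Fin n → Z)) :
    W.card ≤ 2 * (restE θ F W).card := by
  classical
  rcases Finset.eq_empty_or_nonempty W with he | hne
  · rw [he]
    simp
  have hex : ∃ k, 2 * (rem θ F W k).card < W.card := by
    refine ⟨W.card, ?_⟩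
    have h0 : rem θ F W W.card = ∅ := by
      rcases Finset.eq_empty_or_nonempty (rem θ F W W.card) with h | h
      · exact h
      · exact absurd (res_rem_lt hθ F W _ h) (lt_irrefl _)
    rw [h0]
    simpa using hne.card_pos
  have hK := Nat.find_spec hex
  have hmin : ∀ k, k < Nat.find hex → W.card ≤ 2 * (rem θ F W k).card := by
    intro k hk
    have := Nat.find_min hex hk
    omega
  have hsub : W \ restE θ F W ⊆ rem θ F W (Nat.find hex) := by
    intro w hw
    rw [Finset.mem_sdiff] at hw
    obtain ⟨hw1, hw2⟩ := hw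
    have key : ∀ k, k ≤ Nat.find hex → w ∈ rem θ F W k := by
      intro k
      induction k with
      | zero => intro _; exact hw1
      | succ k ih =>
        intro hk
        have h1 := ih (by omega)
        have h2 : w ∉ part θ F (rem θ F W k) := by
          intro hp
          apply hw2
          unfold restE
          rw [Finset.mem_filter]
          exact ⟨hw1, k, hp, hmin k (by omega)⟩
        show w ∈ rem θ F W k \ part θ F (rem θ F W k)
        rw [Finset.mem_sdiff]
        exact ⟨h1, h2⟩
    exact key _ (le_refl _)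
  have h1 := Finset.card_le_card hsub
  have h2 := Finset.card_sdiff_add_card_eq_card (restE_subset θ F W)
  omega

theorem restE_spec {θ : ℕ} (hθ : 1 ≤ θ) (F : Finset (Fin n)) (W : Finset (Fin n → Z))
    {w : Fin n → Z} (hw : w ∈ restE θ F W) :
    ∃ (k : ℕ) (J : Finset (Fin n)), k < W.card ∧ Disjoint J F ∧ w ∈ cut θ F k W ∧
      cut θ F k W ⊆ W ∧ (∀ v ∈ cut θ F k W, ∀ i ∈ J, v i = w i) ∧
      Dense θ (cut θ F k W) (F ∪ J) ∧
      W.card * θ ^ J.card ≤ 2 * (cut θ F k W).card * Fintype.card Z ^ J.card := by
  classical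
  unfold restE at hw
  rw [Finset.mem_filter] at hw
  obtain ⟨hw1, k, hk1, hk2⟩ := hw
  have hne : (rem θ F W k).Nonempty := ⟨w, res_part_subset θ F _ hk1⟩
  obtain ⟨c, hc, he⟩ := res_part_good hθ F hne
  have hcut : cut θ F k W = cell (rem θ F W k) c.1 c.2 := he
  obtain ⟨g1, g2, g3⟩ := hc
  refine ⟨k, c.1, res_rem_lt hθ F W k hne, g1, hk1,
    (res_part_subset θ F _).trans (res_rem_subset θ F W k), ?_, ?_, ?_⟩
  · intro v hv i hi
    have hw' : w ∈ cell (rem θ F W k) c.1 c.2 := by rw [← he]; exact hk1
    rw [hcut] at hv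
    unfold cell at hv hw'
    rw [Finset.mem_filter] at hv hw'
    rw [hv.2 i hi, hw'.2 i hi]
  · rw [hcut]
    exact g3
  · rw [hcut]
    calc W.card * θ ^ c.1.card ≤ 2 * (rem θ F W k).card * θ ^ c.1.card :=
          Nat.mul_le_mul_right _ hk2
      _ = 2 * ((rem θ F W k).card * θ ^ c.1.card) := by ring
      _ ≤ 2 * ((cell (rem θ F W k) c.1 c.2).card * Fintype.card Z ^ c.1.card) :=
          Nat.mul_le_mul_left _ g2
      _ = 2 * (cell (rem θ F W k) c.1 c.2).card * Fintype.card Z ^ c.1.card := by ring

end MP979
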