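import Pool.Agent.Lib.MP_979eef_lc.Q.Sp
import Pool.Agent.Lib.MP_979eef_lc.Q.Kw

/-!
# MP_979eef_lc, protocols, module Si: messages, one block, the end
-/

set_option autoImplicit false

namespace MP979

open Finset

theorem leaves_pos {ι : Type} (P : Prot ι) : 1 ≤ P.leaves := by
  induction P with
  | leaf i => exact le_refl _
  | alice m P Q hP hQ => simp only [Prot.leaves]; omega
  | bob m P Q hP hQ => simp only [Prot.leaves]; omega

theorem leaves_le {ι : Type} (P : Prot ι) : P.leaves ≤ 2 ^ P.depth := by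
  induction P with
  | leaf i => simp [Prot.leaves, Prot.depth]
  | alice m P Q hP hQ =>
    simp only [Prot.leaves, Prot.depth, pow_succ]
    have h1 : 2 ^ P.depth ≤ 2 ^ max P.depth Q.depth :=
      Nat.pow_le_pow_right (by norm_num) (le_max_left _ _)
    have h2 : 2 ^ Q.depth ≤ 2 ^ max P.depth Q.depth :=
      Nat.pow_le_pow_right (by norm_num) (le_max_right _ _)
    omega
  | bob m P Q hP hQ =>
    simp only [Prot.leaves, Prot.depth, pow_succ]
    have h1 : 2 ^ P.depth ≤ 2 ^ max P.depth Q.depth :=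
      Nat.pow_le_pow_right (by norm_num) (le_max_left _ _)
    have h2 : 2 ^ Q.depth ≤ 2 ^ max P.depth Q.depth :=
      Nat.pow_le_pow_right (by norm_num) (le_max_right _ _)
    omega

theorem exists_fml_size {ι : Type} (P : Prot ι) {X Y : Set (ι → Bool)} (hX : X.Nonempty)
    (hY : Y.Nonempty) (h : P.Correct X Y) :
    ∃ φ : Fml ι, φ.size ≤ P.leaves ∧ (∀ x ∈ X, φ.eval x = true) ∧ ∀ y ∈ Y, φ.eval y = false := by
  induction P generalizing X Y with
  | leaf i =>
    obtain ⟨x0, hx0⟩ := hX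
    obtain ⟨y0, hy0⟩ := hY
    have key : ∀ x ∈ X, ∀ y ∈ Y, x i ≠ y i := fun x hx y hy => h x hx y hy
    refine ⟨.lit i (x0 i), le_refl _, ?_, ?_⟩
    · intro x hx
      have h1 := key x hx y0 hy0
      have h2 := key x0 hx0 y0 hy0
      simp only [Fml.eval]
      revert h1 h2
      cases x i <;> cases x0 i <;> cases y0 i <;> simp
    · intro y hy
      have h2 := key x0 hx0 y hy
      simp only [Fml.eval]
      revert h2
      cases x0 i <;> cases y i <;> simp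
  | alice m P Q ihP ihQ =>
    obtain ⟨h1, h2⟩ := Correct.alice1 h
    have p1 := leaves_pos P
    have p2 := leaves_pos Q
    by_cases e1 : ({x | x ∈ X ∧ m x = true} : Set (ι → Bool)).Nonempty
    · obtain ⟨φ, f1, f2, f3⟩ := ihP e1 hY h1
      by_cases e2 : ({x | x ∈ X ∧ m x = false} : Set (ι → Bool)).Nonempty
      · obtain ⟨ψ, g1, g2, g3⟩ := ihQ e2 hY h2
        refine ⟨.or φ ψ, ?_, ?_, ?_⟩
        · simp only [Fml.size, Prot.leaves]; omega
        · intro x hx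
          cases hm : m x with
          | false => simp only [Fml.eval, g2 x ⟨hx, hm⟩, Bool.or_true]
          | true => simp only [Fml.eval, f2 x ⟨hx, hm⟩, Bool.true_or]
        · intro y hy
          simp only [Fml.eval, f3 y hy, g3 y hy, Bool.or_false]
      · refine ⟨φ, ?_, ?_, f3⟩
        · simp only [Prot.leaves]; omega
        · intro x hx
          cases hm : m x with
          | false => exact absurd ⟨x, hx, hm⟩ e2
          | true => exact f2 x ⟨hx, hm⟩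
    · have e2 : ({x | x ∈ X ∧ m x = false} : Set (ι → Bool)).Nonempty := by
        obtain ⟨x, hx⟩ := hX
        cases hm : m x with
        | false => exact ⟨x, hx, hm⟩
        | true => exact absurd ⟨x, hx, hm⟩ e1
      obtain ⟨ψ, g1, g2, g3⟩ := ihQ e2 hY h2
      refine ⟨ψ, ?_, ?_, g3⟩
      · simp only [Prot.leaves]; omega
      · intro x hx
        cases hm : m x with
        | false => exact g2 x ⟨hx, hm⟩
        | true => exact absurd ⟨x, hx, hm⟩ e1
  | bob m P Q ihP ihQ =>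
    obtain ⟨h1, h2⟩ := Correct.bob1 h
    have p1 := leaves_pos P
    have p2 := leaves_pos Q
    by_cases e1 : ({y | y ∈ Y ∧ m y = true} : Set (ι → Bool)).Nonempty
    · obtain ⟨φ, f1, f2, f3⟩ := ihP hX e1 h1
      by_cases e2 : ({y | y ∈ Y ∧ m y = false} : Set (ι → Bool)).Nonempty
      · obtain ⟨ψ, g1, g2, g3⟩ := ihQ hX e2 h2
        refine ⟨.and φ ψ, ?_, ?_, ?_⟩
        · simp only [Fml.size, Prot.leaves]; omega
        · intro x hx
          simp only [Fml.eval, f2 x hx, g2 x hx, Bool.and_true]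
        · intro y hy
          cases hm : m y with
          | false => simp only [Fml.eval, g3 y ⟨hy, hm⟩, Bool.and_false]
          | true => simp only [Fml.eval, f3 y ⟨hy, hm⟩, Bool.false_and]
      · refine ⟨φ, ?_, f2, ?_⟩
        · simp only [Prot.leaves]; omega
        · intro y hy
          cases hm : m y with
          | false => exact absurd ⟨y, hy, hm⟩ e2
          | true => exact f3 y ⟨hy, hm⟩
    · have e2 : ({y | y ∈ Y ∧ m y = false} : Set (ι → Bool)).Nonempty := by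
        obtain ⟨y, hy⟩ := hY
        cases hm : m y with
        | false => exact ⟨y, hy, hm⟩
        | true => exact absurd ⟨y, hy, hm⟩ e1
      obtain ⟨ψ, g1, g2, g3⟩ := ihQ hX e2 h2
      refine ⟨ψ, ?_, g2, ?_⟩
      · simp only [Prot.leaves]; omega
      · intro y hy
        cases hm : m y with
        | false => exact g3 y ⟨hy, hm⟩
        | true => exact absurd ⟨y, hy, hm⟩ e1

theorem run_inBlocks {n : ℕ} {J : Finset (Fin n)} {P : Prot (Fin n × Fin n)} (h : InBlocks J P)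
    (x y : Fin n × Fin n → Bool) : (P.run x y).1 ∈ J := by
  induction P with
  | leaf i => exact h
  | alice m P Q hP hQ =>
    simp only [Prot.run]
    split
    · exact hP h.1
    · exact hQ h.2
  | bob m P Q hP hQ =>
    simp only [Prot.run]
    split
    · exact hP h.1
    · exact hQ h.2

variable {n : ℕ} {Z : Type} [Fintype Z] [DecidableEq Z]
  {G : Fin n → Z → Bool} {S : Finset ((Fin n → Z) → Bool)} {θ θh tm : ℕ}
  {F : Finset (Fin n)} {W : Finset (Fin n → Z)} {A B : Set (Fin n → Bool)}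
  {t e R κ C τ : ℕ} {c : ℝ}

theorem sp_hitA {𝕏 : Type} {inp : (Fin n → Z) → 𝕏} {X Y : Set 𝕏}
    (hG : ∀ t ≤ tm, Hits G θh (Fam S θ t)) (ht : t ≤ tm) (hτ : τ ≤ θh)
    (h : St G inp S θ X Y F W A B τ t e R c) {a : Fin n → Bool} (ha : a ∈ A) :
    ∃ w ∈ W, inp w ∈ X := by
  obtain ⟨w, hw, hwa⟩ := hG t ht W h.fam h.ne F (dense_mono h.dens hτ) a
  refine ⟨w, hw, h.inA w hw a ha (fun i => ?_)⟩
  by_cases hi : i ∈ F
  · exact h.fixA w hw a ha i hi
  · exact hwa i hi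

theorem sp_hitB {𝕏 : Type} {inp : (Fin n → Z) → 𝕏} {X Y : Set 𝕏}
    (hG : ∀ t ≤ tm, Hits G θh (Fam S θ t)) (ht : t ≤ tm) (hτ : τ ≤ θh)
    (h : St G inp S θ X Y F W A B τ t e R c) {b : Fin n → Bool} (hb : b ∈ B) :
    ∃ w ∈ W, inp w ∈ Y := by
  obtain ⟨w, hw, hwa⟩ := hG t ht W h.fam h.ne F (dense_mono h.dens hτ) b
  refine ⟨w, hw, h.inB w hw b hb (fun i => ?_)⟩
  by_cases hi : i ∈ F
  · exact h.fixB w hw b hb i hi
  · exact hwa i hi

/-- the end: the rest of the protocol has more than `s'` leaves -/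
theorem sp_end {ι : Type} {inp : (Fin n → Z) → (ι → Bool)} {X Y : Set (ι → Bool)}
    (hG : ∀ t ≤ tm, Hits G θh (Fam S θ t)) (ht : t + 1 ≤ tm) (hθh : 2 * θ ≤ θh) {s' : ℕ}
    (hS : ∀ φ : Fml ι, φ.size ≤ s' → (fun w => φ.eval (inp w)) ∈ S)
    (h : St G inp S θ X Y F W A B θ t e R c) (hA : A.Nonempty) (hB : B.Nonempty) (P : Prot ι)
    (hP : P.Correct X Y) : s' < P.leaves := by
  classical
  by_contra hcon
  obtain ⟨a, ha⟩ := hA
  obtain ⟨b, hb⟩ := hB
  obtain ⟨wa, -, hwa⟩ := sp_hitA hG (by omega) (by omega) h ha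
  obtain ⟨wb, -, hwb⟩ := sp_hitB hG (by omega) (by omega) h hb
  obtain ⟨φ, hφs, hφX, hφY⟩ := exists_fml_size P ⟨_, hwa⟩ ⟨_, hwb⟩ hP
  have hfS := hS φ (by omega)
  have hsum : (W.filter (fun w => φ.eval (inp w) = true)).card +
      (W.filter (fun w => φ.eval (inp w) = false)).card = W.card := by
    have h1 := Finset.card_filter_add_card_filter_not (s := W) (fun w => φ.eval (inp w) = true)
    have h2 : W.filter (fun w => ¬ φ.eval (inp w) = true) =
        W.filter (fun w => φ.eval (inp w) = false) := by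
      apply Finset.filter_congr
      intro w _
      simp
    rw [h2] at h1
    exact h1
  have key : ∀ κ' : Bool, W.card ≤ 2 * (W.filter (fun w => φ.eval (inp w) = κ')).card →
      ∀ c : Fin n → Bool, ∃ w ∈ W, φ.eval (inp w) = κ' ∧ ∀ i, i ∉ F → G i (w i) = c i := by
    intro κ' hκ c
    have hsub : W.filter (fun w => φ.eval (inp w) = κ') ⊆ W := Finset.filter_subset _ _
    have hd : Dense θh (W.filter (fun w => φ.eval (inp w) = κ')) F :=
      dense_mono (dense_sub h.dens hsub hκ (by norm_num)) hθh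
    have hne : (W.filter (fun w => φ.eval (inp w) = κ')).Nonempty := by
      rw [← Finset.card_pos]
      have := Finset.card_pos.mpr h.ne
      omega
    obtain ⟨w, hw, hw'⟩ := hG (t + 1) ht _ (fam_fun h.fam hfS κ') hne F hd c
    rw [Finset.mem_filter] at hw
    exact ⟨w, hw.1, hw.2, hw'⟩
  by_cases hcase : W.card ≤ 2 * (W.filter (fun w => φ.eval (inp w) = true)).card
  · obtain ⟨w, hw, hφw, hwc⟩ := key true hcase b
    have : inp w ∈ Y := h.inB w hw b hb (fun i => by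
      by_cases hi : i ∈ F
      · exact h.fixB w hw b hb i hi
      · exact hwc i hi)
    have h0 := hφY _ this
    rw [hφw] at h0
    exact Bool.noConfusion h0
  · obtain ⟨w, hw, hφw, hwc⟩ := key false (by omega) a
    have : inp w ∈ X := h.inA w hw a ha (fun i => by
      by_cases hi : i ∈ F
      · exact h.fixA w hw a ha i hi
      · exact hwc i hi)
    have h0 := hφX _ this
    rw [hφw] at h0
    exact Bool.noConfusion h0

/-- a hard rectangle cannot be solved in few blocks -/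
theorem sp_inBlocks {inp : (Fin n → Z) → (Fin n × Fin n → Bool)}
    {X Y : Set (Fin n × Fin n → Bool)} {Φ : ℝ} {v : ℕ} (hn : 0 < n) (hθ : 2 ≤ θ)
    (hG : ∀ t ≤ tm, Hits G θh (Fam S θ t)) (hθh : 4 * θ ^ 2 ≤ θh) (hC : 1 ≤ C)
    (hΦ : 2 ^ v * (4 * (2 * (C : ℝ) ^ 2 * (2 * n) ^ C + 4)) ≤ Φ)
    (hb : ∀ w w' i, w i = w' i → blk (inp w) i = blk (inp w') i)
    (h : St G inp S θ X Y F W A B θ t e R (cp n C κ R Φ)) (hR : R ≤ C) {J O : Finset (Fin n)}
    (hJ : (J \ O).card ≤ v) (hOF : O ⊆ F) (ht : t + 2 * v ≤ tm)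
    (he : 2 ^ (e + 2 * v) < θ ^ (C + 1)) {P : Prot (Fin n × Fin n)}
    (hj : InBlocks J P) (hP : P.Correct X Y) : False := by
  set Φ' : ℝ := Φ / 2 ^ v with hΦ'
  have h2v : (0 : ℝ) < 2 ^ v := by positivity
  have hthr : (0 : ℝ) ≤ 2 * (C : ℝ) ^ 2 * (2 * n) ^ C := by positivity
  have hΦ4 : 4 * (2 * (C : ℝ) ^ 2 * (2 * n) ^ C + 4) ≤ Φ' := by
    rw [hΦ', le_div_iff₀ h2v]
    linarith
  have hcp : cp n C κ R Φ = cp n C (κ + v) R Φ' := by
    unfold cp
    rw [hΦ', pow_add]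
    field_simp
  rw [hcp] at h
  have hle : cp n C (κ + (J \ O).card) R Φ' ≤ cp n C (κ + v) R Φ' := by
    unfold cp
    have h1 : (2 : ℝ) ^ (κ + (J \ O).card) ≤ 2 ^ (κ + v) :=
      pow_le_pow_right₀ (by norm_num) (by omega)
    have h2 : (0 : ℝ) ≤ (8 * (n : ℝ)) ^ (C - R) := by positivity
    have h3 : 0 ≤ Φ' := by linarith
    exact mul_le_mul_of_nonneg_right (mul_le_mul_of_nonneg_right h1 h2) h3
  obtain ⟨F1, W1, A1, B1, R1, hF1, hJ1, hW1, hR1, h1⟩ :=
    sp_blocks hn hθ hG hθh hC (by linarith) (J \ O) F W A B t e R (by omega)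
      (lt_of_le_of_lt (Nat.pow_le_pow_right (by norm_num) (by omega)) he) hR
      (sp_mono h (le_refl _) (le_refl _) hle)
  have hc : 8 < cp n C κ R1 Φ' := by
    have := cp_ge (n := n) (C := C) (κ := κ) (R := R1) hn (by linarith : (0 : ℝ) ≤ Φ')
    linarith
  obtain ⟨⟨a, ha⟩, ⟨b, hb'⟩⟩ := hard_nonempty hn h1.hard (by linarith)
  obtain ⟨w, hw, hwX⟩ := sp_hitA hG (by omega) (by nlinarith) h1 ha
  obtain ⟨w', hw', hwY⟩ := sp_hitB hG (by omega) (by nlinarith) h1 hb'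
  have h3 := run_inBlocks hj (inp w) (inp w')
  have h4 : (P.run (inp w) (inp w')).1 ∈ F1 := by
    by_cases hO : (P.run (inp w) (inp w')).1 ∈ O
    · exact hF1 (hOF hO)
    · exact hJ1 (mem_sdiff.2 ⟨h3, hO⟩)
  have h5 := hb w w' _ (h1.con w hw w' hw' _ h4)
  apply hP _ hwX _ hwY
  have h6 := congrFun h5 (P.run (inp w) (inp w')).2
  simpa only [blk] using h6

/-- the elements of `A` which send `b` -/
def sends {𝕏 : Type} (G : Fin n → Z → Bool) (inp : (Fin n → Z) → 𝕏) (m : 𝕏 → Bool)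
    (W : Finset (Fin n → Z)) (A : Set (Fin n → Bool)) (b : Bool) : Set (Fin n → Bool) :=
  {a | a ∈ A ∧ ((∃ w ∈ W, (∀ i, G i (w i) = a i) ∧ m (inp w) = true) ↔ b = true)}

theorem sends_cases {𝕏 : Type} (inp : (Fin n → Z) → 𝕏) (m : 𝕏 → Bool) (a : Fin n → Bool)
    (ha : a ∈ A) : a ∈ sends G inp m W A true ∨ a ∈ sends G inp m W A false := by
  by_cases h : ∃ w ∈ W, (∀ i, G i (w i) = a i) ∧ m (inp w) = true
  · exact Or.inl ⟨ha, by simpa using h⟩
  · exact Or.inr ⟨ha, by simpa using h⟩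

theorem sends_iff {𝕏 : Type} {inp : (Fin n → Z) → 𝕏} {m : 𝕏 → Bool}
    (hm : ∀ w ∈ W, ∀ w' ∈ W, (∀ i, G i (w i) = G i (w' i)) → m (inp w) = m (inp w')) {b : Bool}
    {a : Fin n → Bool} (ha : a ∈ sends G inp m W A b) {w : Fin n → Z} (hw : w ∈ W)
    (hwa : ∀ i, G i (w i) = a i) : m (inp w) = b := by
  obtain ⟨-, h2⟩ := ha
  cases b with
  | true =>
    obtain ⟨w', hw', hwa', hmt⟩ := h2.2 rfl
    rw [← hmt]
    exact hm w hw w' hw' (fun i => by rw [hwa i, hwa' i])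
  | false =>
    by_contra hne
    have := h2.1 ⟨w, hw, hwa, by simpa using hne⟩
    exact absurd this (by decide)

theorem sp_alice {𝕏 : Type} {inp : (Fin n → Z) → 𝕏} {X Y : Set 𝕏} {m : 𝕏 → Bool} {c' : ℝ}
    (h : St G inp S θ X Y F W A B θ t e R c)
    (hm : ∀ w ∈ W, ∀ w' ∈ W, (∀ i, G i (w i) = G i (w' i)) → m (inp w) = m (inp w')) (b : Bool)
    (hh : HardQ (sends G inp m W A b) B (c' - 2)) :
    St G inp S θ {x | x ∈ X ∧ m x = b} Y F W (sends G inp m W A b) B θ t e R c' :=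
  { ne := h.ne
    con := h.con
    fixA := fun w hw a ha i hi => h.fixA w hw a ha.1 i hi
    fixB := h.fixB
    inA := fun w hw a ha hwa => ⟨h.inA w hw a ha.1 hwa, sends_iff hm ha hw hwa⟩
    inB := h.inB
    fam := h.fam
    dens := h.dens
    defi := h.defi
    hard := hh }

theorem sp_bob {𝕏 : Type} {inp : (Fin n → Z) → 𝕏} {X Y : Set 𝕏} {m : 𝕏 → Bool} {c' : ℝ}
    (h : St G inp S θ X Y F W A B θ t e R c)
    (hm : ∀ w ∈ W, ∀ w' ∈ W, (∀ i, G i (w i) = G i (w' i)) → m (inp w) = m (inp w')) (b : Bool)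
    (hh : HardQ A (sends G inp m W B b) (c' - 2)) :
    St G inp S θ X {y | y ∈ Y ∧ m y = b} F W A (sends G inp m W B b) θ t e R c' :=
  { ne := h.ne
    con := h.con
    fixA := h.fixA
    fixB := fun w hw a ha i hi => h.fixB w hw a ha.1 i hi
    inA := h.inA
    inB := fun w hw a ha hwa => ⟨h.inB w hw a ha.1 hwa, sends_iff hm ha hw hwa⟩
    fam := h.fam
    dens := h.dens
    defi := h.defi
    hard := hh }

variable {inp : (Fin n → Z) → (Fin n × Fin n → Bool)} {X Y : Set (Fin n × Fin n → Bool)}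
  {T Q v : ℕ} {Φ : ℝ} {g : (Fin n → Bool) → Bool}
  {𝓗 : Finset ((Fin n × Fin n → Bool) → Bool)}

/-- what is opened before a message -/
theorem sp_round (hn : 0 < n) (hθ : 2 ≤ θ) (hG : ∀ t ≤ tm, Hits G θh (Fam S θ t))
    (hθ1 : 4 * θ ^ 2 ≤ θh) (hC : 1 ≤ C) (hΦ : 2 * (C : ℝ) ^ 2 * (2 * n) ^ C + 4 ≤ Φ)
    (hg : ∀ w i, g (blk (inp w) i) = G i (w i))
    (hb : ∀ w w' i, w i = w' i → blk (inp w) i = blk (inp w') i)
    (hS : ∀ φ ∈ 𝓗, (fun w => φ (inp w)) ∈ S) {O I : Finset (Fin n)}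
    {H L : List ((Fin n × Fin n → Bool) → Bool)}
    {m : (Fin n × Fin n → Bool) → Bool} (hOI : O ⊆ I) (hIT : I.card ≤ T)
    (hLQ : (H ++ L).length ≤ Q) (hLs : ∀ h ∈ L, h ∈ 𝓗) (hm : MsgH g I (H ++ L) m)
    (hOF : O ⊆ F) (hH : ∀ h ∈ H, ∀ w ∈ W, ∀ w' ∈ W, h (inp w) = h (inp w')) (hR : R ≤ C)
    (h : St G inp S θ X Y F W A B θ t e R (cp n C (κ + (T - O.card)) R Φ))
    (ht : t + 2 * (T - O.card) + 2 * (Q - H.length) + 2 * v + 1 ≤ tm)
    (he : 2 ^ (e + 2 * (T - O.card) + 2 * (Q - H.length) + 2 * v) < θ ^ (C + 1)) :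
    ∃ F' W' A' B' t' e' R', I ⊆ F' ∧ R' ≤ C ∧
      t' + 2 * (T - I.card) + 2 * (Q - (H ++ L).length) + 2 * v + 1 ≤ tm ∧
      2 ^ (e' + 2 * (T - I.card) + 2 * (Q - (H ++ L).length) + 2 * v) < θ ^ (C + 1) ∧
      (∀ h ∈ H ++ L, ∀ w ∈ W', ∀ w' ∈ W', h (inp w) = h (inp w')) ∧
      (∀ w ∈ W', ∀ w' ∈ W', (∀ i, G i (w i) = G i (w' i)) → m (inp w) = m (inp w')) ∧
      St G inp S θ X Y F' W' A' B' θ t' e' R' (cp n C (κ + (T - I.card)) R' Φ) := by
  have hcard : (I \ O).card = I.card - O.card := card_sdiff_of_subset hOI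
  have hle : O.card ≤ I.card := card_le_card hOI
  rw [List.length_append] at hLQ
  have h1 : κ + (T - O.card) = (κ + (T - I.card)) + (I \ O).card := by omega
  rw [h1] at h
  have hlt : ∀ {a b : ℕ}, a ≤ b → 2 ^ b < θ ^ (C + 1) → 2 ^ a < θ ^ (C + 1) :=
    fun hab hlt => lt_of_le_of_lt (Nat.pow_le_pow_right (by norm_num) hab) hlt
  obtain ⟨F1, W1, A1, B1, R1, hF1, hI1, hW1, hR1, st1⟩ :=
    sp_blocks hn hθ hG hθ1 hC hΦ (I \ O) F W A B t e R (by omega) (hlt (by omega) he) hR h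
  obtain ⟨F2, W2, A2, B2, R2, hF2, hW2, hc2, hR2, st2⟩ :=
    sp_funs hn hθ hG hθ1 hC hΦ hS L F1 W1 A1 B1 _ _ R1 hLs (by omega)
      (hlt (by omega) he) hR1 st1
  have hIF : I ⊆ F2 := by
    intro i hi
    apply hF2
    by_cases hiO : i ∈ O
    · exact hF1 (hOF hiO)
    · exact hI1 (mem_sdiff.2 ⟨hi, hiO⟩)
  have hHL : ∀ h ∈ H ++ L, ∀ w ∈ W2, ∀ w' ∈ W2, h (inp w) = h (inp w') := by
    intro ψ hψ w hw w' hw'
    rcases List.mem_append.1 hψ with hψ | hψ
    · exact hH ψ hψ w (hW1 (hW2 hw)) w' (hW1 (hW2 hw'))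
    · exact hc2 ψ hψ w hw w' hw'
  refine ⟨F2, W2, A2, B2, _, _, R2, hIF, hR2, ?_, ?_, hHL, ?_, st2⟩
  · rw [List.length_append]; omega
  · rw [List.length_append]; exact hlt (by omega) he
  · intro w hw w' hw' hGw
    refine hm _ _ (fun i => by rw [hg, hg, hGw i]) (fun i hi => ?_)
      (fun ψ hψ => hHL ψ hψ w hw w' hw')
    exact hb _ _ _ (st2.con w hw w' hw' i (hIF hi))

end MP979
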