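import Pool.Agent.Lib.MP_979eef_lc.Q.Sta
import Pool.Agent.Lib.MP_979eef_lc.Q.Pat
import Pool.Agent.Lib.MP_979eef_lc.Q.Cel

/-!
# MP_979eef_lc, protocols, module StR: restoring density
`st_restore`: `restE θ F W` is in `Fam (t + 1)`, at least half of `W` (`restE_card`), so `2 τ`-dense. `hard_pattern` with `C`, `c - 2 ≥ 2 C^2 (2 n)^C`, gives `p`. Hit in the pattern
`p`: `w ∈ restE θ F W` with `G i (w i) = p i` for `i ∉ F`. `restE_spec`: `k`, `J`. If `J = ∅` keep `A`, `B`; otherwise `A' = onJ A J p`, `B' = onJ B J p` (on `J`: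
`v i = w i`, `G i (w i) = p i = a i`). In both cases `W' = cut θ F k W`, `F' = F ∪ J`, `R' = R + |J|`, `e' = e + 1`: deficiency
`θ^(R+|J|) q^(n-|F|-|J|) ≤ 2^(e+1) |W'|` from `|W| θ^|J| ≤ 2 |W'| q^|J|` (cancel `q^|J|`). `|J| ≤ C`: from `θ^(R+|J|) q^(n-|F'|) ≤ 2^(e+1) |W'|` and `|W'| ≤ q^(n-|F'|)` (`W'`
is constant on `F'`) `θ^(R+|J|) ≤ 2^(e+1) < θ^(C+1)`. Hardness: `(c - 2) / (8 n)^|J| ≥ c / (8 n)^|J| - 2`.
-/

set_option autoImplicit false

namespace MP979

open Finset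

variable {n : ℕ} {Z : Type} [Fintype Z] [DecidableEq Z] {𝕏 : Type}
  {G : Fin n → Z → Bool} {inp : (Fin n → Z) → 𝕏} {S : Finset ((Fin n → Z) → Bool)} {θ θh tm : ℕ}
  {X Y : Set 𝕏} {F : Finset (Fin n)} {W : Finset (Fin n → Z)} {A B : Set (Fin n → Bool)}
  {τ t e R : ℕ} {c : ℝ}

/-- a set of functions which agree on `F` is small -/
private theorem str_card (F : Finset (Fin n)) (W : Finset (Fin n → Z))
    (h : ∀ w ∈ W, ∀ w' ∈ W, ∀ i ∈ F, w i = w' i) : W.card ≤ Fintype.card Z ^ (n - F.card) := by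
  classical
  have h1 : W.card ≤ Fintype.card ({i : Fin n // i ∉ F} → Z) := by
    rw [← Finset.card_univ]
    refine Finset.card_le_card_of_injOn (fun w => fun i => w i.1) (fun _ _ => mem_univ _) ?_
    intro w hw w' hw' hww
    funext i
    by_cases hi : i ∈ F
    · exact h w hw w' hw' i hi
    · exact congrFun hww ⟨i, hi⟩
  rw [Fintype.card_fun] at h1
  have h2 : Fintype.card {i : Fin n // i ∉ F} = n - F.card := by
    rw [Fintype.card_subtype_compl, Fintype.card_fin, Fintype.card_coe]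
  rwa [h2] at h1

theorem st_restore (hn : 0 < n) (hθ : 2 ≤ θ) (hG : ∀ t ≤ tm, Hits G θh (Fam S θ t)) (ht : t + 1 ≤ tm)
    (hτ : 1 ≤ τ) (hτh : 2 * τ ≤ θh) (h : St G inp S θ X Y F W A B τ t e R c) (C : ℕ) (hC : 1 ≤ C)
    (he : 2 ^ (e + 1) < θ ^ (C + 1)) (hc : 2 * (C : ℝ) ^ 2 * (2 * n) ^ C + 2 ≤ c) :
    ∃ F' W' A' B' R', F ⊆ F' ∧ W' ⊆ W ∧ R ≤ R' ∧ R' ≤ C ∧
      St G inp S θ X Y F' W' A' B' θ (t + 1) (e + 1) R' (c / (8 * n) ^ (R' - R)) := by
  classical
  have hθ1 : 1 ≤ θ := by omega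
  -- the set which is hit
  have hEf : restE θ F W ∈ Fam S θ (t + 1) := fam_restE h.fam F
  have hEc : W.card ≤ 2 * (restE θ F W).card := restE_card hθ1 F W
  have hWpos : 0 < W.card := h.ne.card_pos
  have hEne : (restE θ F W).Nonempty := by
    rw [← Finset.card_pos]
    omega
  have hEd : Dense θh (restE θ F W) F :=
    dense_mono (dense_sub h.dens (restE_subset θ F W) hEc (by norm_num)) hτh
  obtain ⟨p, hp⟩ := hard_pattern hn h.hard C hC (by linarith)
  obtain ⟨w, hwE, hwp⟩ := hG (t + 1) ht _ hEf hEne F hEd p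
  obtain ⟨k, J, hk, hJF, hwc, hcW, hcJ, hcd, hcc⟩ := restE_spec hθ1 F W hwE
  set W' := cut θ F k W with hW'
  set q := Fintype.card Z with hq
  have hq0 : 0 < q := Fintype.card_pos_iff.2 ⟨w ⟨0, hn⟩⟩
  have hcon : ∀ v ∈ W', ∀ v' ∈ W', ∀ i ∈ F ∪ J, v i = v' i := by
    intro v hv v' hv' i hi
    rcases mem_union.1 hi with hi | hi
    · exact h.con v (hcW hv) v' (hcW hv') i hi
    · rw [hcJ v hv i hi, hcJ v' hv' i hi]
  have hcardU : (F ∪ J).card = F.card + J.card := card_union_of_disjoint hJF.symm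
  have hcardn : F.card + J.card ≤ n := by
    rw [← hcardU]
    exact (card_le_univ _).trans (by simp)
  -- the deficiency
  have hdef : θ ^ (R + J.card) * q ^ (n - (F ∪ J).card) ≤ 2 ^ (e + 1) * W'.card := by
    have h1 : θ ^ (R + J.card) * q ^ (n - F.card) ≤ 2 ^ (e + 1) * W'.card * q ^ J.card := by
      calc θ ^ (R + J.card) * q ^ (n - F.card) = θ ^ J.card * (θ ^ R * q ^ (n - F.card)) := by
            rw [pow_add]; ring
        _ ≤ θ ^ J.card * (2 ^ e * W.card) := Nat.mul_le_mul_left _ h.defi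
        _ = 2 ^ e * (W.card * θ ^ J.card) := by ring
        _ ≤ 2 ^ e * (2 * W'.card * q ^ J.card) := Nat.mul_le_mul_left _ hcc
        _ = 2 ^ (e + 1) * W'.card * q ^ J.card := by rw [pow_succ]; ring
    have h2 : q ^ (n - F.card) = q ^ (n - (F ∪ J).card) * q ^ J.card := by
      rw [← pow_add]
      congr 1
      omega
    rw [h2, ← mul_assoc] at h1
    exact Nat.le_of_mul_le_mul_right h1 (pow_pos hq0 _)
  have hJC : R + J.card ≤ C := by
    have h1 := str_card (F ∪ J) W' hcon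
    rw [← hq] at h1
    have h2 : θ ^ (R + J.card) * q ^ (n - (F ∪ J).card) ≤ 2 ^ (e + 1) * q ^ (n - (F ∪ J).card) :=
      hdef.trans (Nat.mul_le_mul_left _ h1)
    have h3 : θ ^ (R + J.card) ≤ 2 ^ (e + 1) := Nat.le_of_mul_le_mul_right h2 (pow_pos hq0 _)
    have h4 : θ ^ (R + J.card) < θ ^ (C + 1) := lt_of_le_of_lt h3 he
    have h5 := (Nat.pow_lt_pow_iff_right (by omega)).1 h4
    omega
  have hhard : HardQ (onJ A J p) (onJ B J p) (c / (8 * (n : ℝ)) ^ (R + J.card - R) - 2) := by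
    rw [Nat.add_sub_cancel_left]
    rcases J.eq_empty_or_nonempty with hJ | hJ
    · subst hJ
      have hA : onJ A ∅ p = A := by
        ext a
        simp [onJ]
      have hB : onJ B ∅ p = B := by
        ext a
        simp [onJ]
      rw [hA, hB]
      simpa using h.hard
    · refine hard_mono (hp J hJ (by omega)) ?_
      have hn1 : (1 : ℝ) ≤ 8 * (n : ℝ) := by
        have : (1 : ℝ) ≤ n := by exact_mod_cast hn
        linarith
      have h1 : (1 : ℝ) ≤ (8 * (n : ℝ)) ^ J.card := one_le_pow₀ hn1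
      have h2 : (2 : ℝ) / (8 * (n : ℝ)) ^ J.card ≤ 2 := by
        rw [div_le_iff₀ (by linarith)]
        linarith
      rw [sub_div]
      linarith
  refine ⟨F ∪ J, W', onJ A J p, onJ B J p, R + J.card, subset_union_left, hcW, by omega, hJC, ?_⟩
  exact {
    ne := ⟨w, hwc⟩
    con := hcon
    fixA := by
      intro v hv a ha i hi
      rcases mem_union.1 hi with hi | hi
      · exact h.fixA v (hcW hv) a ha.1 i hi
      · rw [hcJ v hv i hi, ha.2 i hi]
        exact hwp i (Finset.disjoint_left.1 hJF hi)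
    fixB := by
      intro v hv a ha i hi
      rcases mem_union.1 hi with hi | hi
      · exact h.fixB v (hcW hv) a ha.1 i hi
      · rw [hcJ v hv i hi, ha.2 i hi]
        exact hwp i (Finset.disjoint_left.1 hJF hi)
    inA := fun v hv a ha hva => h.inA v (hcW hv) a ha.1 hva
    inB := fun v hv a ha hva => h.inB v (hcW hv) a ha.1 hva
    fam := fam_cut h.fam F hk
    dens := hcd
    defi := hdef
    hard := hhard }

end MP979
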