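import Pool.Agent.Lib.MP_979eef_lc.Q.StO
import Pool.Agent.Lib.MP_979eef_lc.Q.StR
import Pool.Agent.Lib.MP_979eef_lc.Q.Defs2

/-!
# MP_979eef_lc, protocols, module Sp: opening blocks and functions one at a time
-/

set_option autoImplicit false

namespace MP979

open Finset

/-- the hardness budget -/
noncomputable def cp (n C κ R : ℕ) (Φ : ℝ) : ℝ := 2 ^ κ * (8 * (n : ℝ)) ^ (C - R) * Φ

theorem cp_half (n C κ R : ℕ) (Φ : ℝ) : cp n C (κ + 1) R Φ / 2 = cp n C κ R Φ := by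
  unfold cp; rw [pow_succ]; ring

theorem cp_div {n C κ R R' : ℕ} (hn : 0 < n) (h1 : R ≤ R') (h2 : R' ≤ C) (Φ : ℝ) :
    cp n C κ R Φ / (8 * n) ^ (R' - R) = cp n C κ R' Φ := by
  unfold cp
  have hn1 : (0 : ℝ) < 8 * n := by positivity
  have h3 : C - R = (C - R') + (R' - R) := by omega
  rw [h3, pow_add]
  field_simp

theorem cp_ge {n C κ R : ℕ} (hn : 0 < n) {Φ : ℝ} (hΦ : 0 ≤ Φ) : Φ ≤ cp n C κ R Φ := by
  unfold cp
  have hn1 : (1 : ℝ) ≤ n := by exact_mod_cast hn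
  have h1 : (1 : ℝ) ≤ 2 ^ κ := one_le_pow₀ (by norm_num)
  have h2 : (1 : ℝ) ≤ (8 * (n : ℝ)) ^ (C - R) := one_le_pow₀ (by linarith)
  have h4 : (1 : ℝ) ≤ 2 ^ κ * (8 * (n : ℝ)) ^ (C - R) := by
    calc (1 : ℝ) = 1 * 1 := by ring
      _ ≤ _ := mul_le_mul h1 h2 (by norm_num) (by positivity)
  nlinarith

variable {n : ℕ} {Z : Type} [Fintype Z] [DecidableEq Z] {𝕏 : Type}
  {G : Fin n → Z → Bool} {inp : (Fin n → Z) → 𝕏} {S : Finset ((Fin n → Z) → Bool)} {θ θh tm : ℕ}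
  {X Y : Set 𝕏} {F : Finset (Fin n)} {W : Finset (Fin n → Z)} {A B : Set (Fin n → Bool)}
  {t e R κ C : ℕ} {Φ : ℝ}

theorem sp_mono {τ t' e' : ℕ} {c c' : ℝ} (h : St G inp S θ X Y F W A B τ t e R c) (ht : t ≤ t')
    (he : e ≤ e') (hc : c' ≤ c) : St G inp S θ X Y F W A B τ t' e' R c' :=
  { h with
    fam := fam_mono S θ ht h.fam
    defi := le_trans h.defi (Nat.mul_le_mul_right _ (Nat.pow_le_pow_right (by norm_num) he))
    hard := hard_mono h.hard (by linarith) }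

theorem sp_block (hn : 0 < n) (hθ : 2 ≤ θ) (hG : ∀ t ≤ tm, Hits G θh (Fam S θ t)) (ht : t + 2 ≤ tm)
    (hθh : 4 * θ ^ 2 ≤ θh) (hC : 1 ≤ C) (he : 2 ^ (e + 2) < θ ^ (C + 1)) (hR : R ≤ C)
    (hΦ : 2 * (C : ℝ) ^ 2 * (2 * n) ^ C + 4 ≤ Φ)
    (h : St G inp S θ X Y F W A B θ t e R (cp n C (κ + 1) R Φ)) (i : Fin n) :
    ∃ F' W' A' B' R', F ⊆ F' ∧ i ∈ F' ∧ W' ⊆ W ∧ R' ≤ C ∧
      St G inp S θ X Y F' W' A' B' θ (t + 2) (e + 2) R' (cp n C κ R' Φ) := by
  have hΦ0 : 0 ≤ Φ := le_trans (by positivity) hΦ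
  by_cases hi : i ∈ F
  · refine ⟨F, W, A, B, R, Subset.refl _, hi, Subset.refl _, hR,
      sp_mono h (by omega) (by omega) ?_⟩
    have h1 := cp_half n C κ R Φ
    have h2 : 0 ≤ cp n C κ R Φ := le_trans hΦ0 (cp_ge hn hΦ0)
    linarith
  · obtain ⟨W1, hW1, A1, B1, h1⟩ := st_open hG (by omega) (by omega) (by nlinarith) h i hi
    rw [cp_half] at h1
    obtain ⟨F2, W2, A2, B2, R2, hF2, hW2, hRR, hR2, h2⟩ := st_restore hn hθ hG (by omega)
      (by nlinarith) (by linarith) h1 C hC he (by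
        have := cp_ge (n := n) (C := C) (κ := κ) (R := R) hn hΦ0
        linarith)
    rw [cp_div hn hRR hR2] at h2
    exact ⟨F2, W2, A2, B2, R2, (subset_insert _ _).trans hF2, hF2 (mem_insert_self _ _),
      hW2.trans hW1, hR2, h2⟩

theorem sp_blocks (hn : 0 < n) (hθ : 2 ≤ θ) (hG : ∀ t ≤ tm, Hits G θh (Fam S θ t))
    (hθh : 4 * θ ^ 2 ≤ θh) (hC : 1 ≤ C) (hΦ : 2 * (C : ℝ) ^ 2 * (2 * n) ^ C + 4 ≤ Φ)
    (I : Finset (Fin n)) :
    ∀ (F : Finset (Fin n)) (W : Finset (Fin n → Z)) (A B : Set (Fin n → Bool)) (t e R : ℕ),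
      t + 2 * I.card ≤ tm → 2 ^ (e + 2 * I.card) < θ ^ (C + 1) → R ≤ C →
      St G inp S θ X Y F W A B θ t e R (cp n C (κ + I.card) R Φ) →
    ∃ F' W' A' B' R', F ⊆ F' ∧ I ⊆ F' ∧ W' ⊆ W ∧ R' ≤ C ∧
      St G inp S θ X Y F' W' A' B' θ (t + 2 * I.card) (e + 2 * I.card) R' (cp n C κ R' Φ) := by
  induction I using Finset.induction_on with
  | empty =>
    intro F W A B t e R _ _ hR h
    exact ⟨F, W, A, B, R, Subset.refl _, empty_subset _, Subset.refl _, hR, by simpa using h⟩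
  | insert i I hi ih =>
    intro F W A B t e R ht he hR h
    rw [card_insert_of_notMem hi] at ht he h ⊢
    have h0 : κ + (I.card + 1) = (κ + I.card) + 1 := by omega
    rw [h0] at h
    obtain ⟨F1, W1, A1, B1, R1, hF1, hi1, hW1, hR1, h1⟩ := sp_block hn hθ hG (by omega) hθh hC
      (lt_of_le_of_lt (Nat.pow_le_pow_right (by norm_num) (by omega)) he) hR hΦ h i
    obtain ⟨F2, W2, A2, B2, R2, hF2, hI2, hW2, hR2, h2⟩ := ih F1 W1 A1 B1 (t + 2) (e + 2) R1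
      (by omega) (by
        refine lt_of_le_of_lt (Nat.pow_le_pow_right (by norm_num) ?_) he
        omega) hR1 h1
    refine ⟨F2, W2, A2, B2, R2, hF1.trans hF2, ?_, hW2.trans hW1, hR2, ?_⟩
    · intro j hj
      rcases mem_insert.1 hj with rfl | hj
      · exact hF2 hi1
      · exact hI2 hj
    · have e1 : t + 2 * (I.card + 1) = t + 2 + 2 * I.card := by ring
      have e2 : e + 2 * (I.card + 1) = e + 2 + 2 * I.card := by ring
      rw [e1, e2]
      exact h2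

theorem sp_fun (hn : 0 < n) (hθ : 2 ≤ θ) (hG : ∀ t ≤ tm, Hits G θh (Fam S θ t)) (ht : t + 2 ≤ tm)
    (hθh : 4 * θ ^ 2 ≤ θh) (hC : 1 ≤ C) (he : 2 ^ (e + 2) < θ ^ (C + 1)) (hR : R ≤ C)
    (hΦ : 2 * (C : ℝ) ^ 2 * (2 * n) ^ C + 4 ≤ Φ)
    (h : St G inp S θ X Y F W A B θ t e R (cp n C κ R Φ)) {f : (Fin n → Z) → Bool} (hf : f ∈ S) :
    ∃ F' W' A' B' R', F ⊆ F' ∧ W' ⊆ W ∧ (∀ w ∈ W', ∀ w' ∈ W', f w = f w') ∧ R' ≤ C ∧
      St G inp S θ X Y F' W' A' B' θ (t + 2) (e + 2) R' (cp n C κ R' Φ) := by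
  classical
  have hΦ0 : 0 ≤ Φ := le_trans (by positivity) hΦ
  have hsum : (W.filter (fun w => f w = true)).card + (W.filter (fun w => f w = false)).card =
      W.card := by
    have h1 := Finset.card_filter_add_card_filter_not (s := W) (fun w => f w = true)
    have h2 : W.filter (fun w => ¬ f w = true) = W.filter (fun w => f w = false) := by
      apply Finset.filter_congr
      intro w _
      simp
    rw [h2] at h1
    exact h1
  obtain ⟨b, hb⟩ : ∃ b : Bool, W.card ≤ 2 * (W.filter (fun w => f w = b)).card := by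
    by_cases hc : W.card ≤ 2 * (W.filter (fun w => f w = true)).card
    · exact ⟨true, hc⟩
    · exact ⟨false, by omega⟩
  have hsub : W.filter (fun w => f w = b) ⊆ W := filter_subset _ _
  have hne : (W.filter (fun w => f w = b)).Nonempty := by
    rw [← card_pos]
    have := card_pos.2 h.ne
    omega
  have h1 : St G inp S θ X Y F (W.filter (fun w => f w = b)) A B (2 * θ) (t + 1) (e + 1) R
      (cp n C κ R Φ) :=
    { ne := hne
      con := fun w hw w' hw' => h.con w (hsub hw) w' (hsub hw')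
      fixA := fun w hw => h.fixA w (hsub hw)
      fixB := fun w hw => h.fixB w (hsub hw)
      inA := fun w hw => h.inA w (hsub hw)
      inB := fun w hw => h.inB w (hsub hw)
      fam := fam_fun h.fam hf b
      dens := dense_sub h.dens hsub hb (by norm_num)
      defi := by
        refine le_trans h.defi ?_
        rw [pow_succ]
        calc 2 ^ e * W.card ≤ 2 ^ e * (2 * (W.filter (fun w => f w = b)).card) :=
              Nat.mul_le_mul_left _ hb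
          _ = 2 ^ e * 2 * (W.filter (fun w => f w = b)).card := by ring
      hard := h.hard }
  obtain ⟨F2, W2, A2, B2, R2, hF2, hW2, hRR, hR2, h2⟩ := st_restore hn hθ hG (by omega)
    (by omega) (by nlinarith) h1 C hC he (by
      have := cp_ge (n := n) (C := C) (κ := κ) (R := R) hn hΦ0
      linarith)
  rw [cp_div hn hRR hR2] at h2
  refine ⟨F2, W2, A2, B2, R2, hF2, hW2.trans hsub, ?_, hR2, h2⟩
  intro w hw w' hw'
  have e1 := (mem_filter.1 (hW2 hw)).2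
  have e2 := (mem_filter.1 (hW2 hw')).2
  rw [e1, e2]

theorem sp_funs {inp : (Fin n → Z) → 𝕏} {X Y : Set 𝕏} {𝓗 : Finset (𝕏 → Bool)}
    (hn : 0 < n) (hθ : 2 ≤ θ) (hG : ∀ t ≤ tm, Hits G θh (Fam S θ t))
    (hθh : 4 * θ ^ 2 ≤ θh) (hC : 1 ≤ C) (hΦ : 2 * (C : ℝ) ^ 2 * (2 * n) ^ C + 4 ≤ Φ)
    (hS : ∀ φ ∈ 𝓗, (fun w => φ (inp w)) ∈ S) (L : List (𝕏 → Bool)) :
    ∀ (F : Finset (Fin n)) (W : Finset (Fin n → Z)) (A B : Set (Fin n → Bool)) (t e R : ℕ),
      (∀ h ∈ L, h ∈ 𝓗) → t + 2 * L.length ≤ tm → 2 ^ (e + 2 * L.length) < θ ^ (C + 1) →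
      R ≤ C → St G inp S θ X Y F W A B θ t e R (cp n C κ R Φ) →
    ∃ F' W' A' B' R', F ⊆ F' ∧ W' ⊆ W ∧
      (∀ h ∈ L, ∀ w ∈ W', ∀ w' ∈ W', h (inp w) = h (inp w')) ∧ R' ≤ C ∧
      St G inp S θ X Y F' W' A' B' θ (t + 2 * L.length) (e + 2 * L.length) R' (cp n C κ R' Φ) := by
  induction L with
  | nil =>
    intro F W A B t e R _ _ _ hR h
    exact ⟨F, W, A, B, R, Subset.refl _, Subset.refl _, by simp, hR, by simpa using h⟩
  | cons φ L ih =>
    intro F W A B t e R hs ht he hR h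
    rw [List.length_cons] at ht he ⊢
    obtain ⟨F1, W1, A1, B1, R1, hF1, hW1, hc1, hR1, h1⟩ := sp_fun hn hθ hG (by omega) hθh hC
      (lt_of_le_of_lt (Nat.pow_le_pow_right (by norm_num) (by omega)) he) hR hΦ h
      (hS φ (hs φ List.mem_cons_self))
    obtain ⟨F2, W2, A2, B2, R2, hF2, hW2, hc2, hR2, h2⟩ := ih F1 W1 A1 B1 (t + 2) (e + 2) R1
      (fun h hh => hs h (List.mem_cons_of_mem _ hh)) (by omega) (by
        refine lt_of_le_of_lt (Nat.pow_le_pow_right (by norm_num) ?_) he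
        omega) hR1 h1
    refine ⟨F2, W2, A2, B2, R2, hF1.trans hF2, hW2.trans hW1, ?_, hR2, ?_⟩
    · intro ψ hψ w hw w' hw'
      rcases List.mem_cons.1 hψ with rfl | hψ
      · exact hc1 w (hW2 hw) w' (hW2 hw')
      · exact hc2 ψ hψ w hw w' hw'
    · have e1 : t + 2 * (L.length + 1) = t + 2 + 2 * L.length := by ring
      have e2 : e + 2 * (L.length + 1) = e + 2 + 2 * L.length := by ring
      rw [e1, e2]
      exact h2

end MP979
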