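import Pool.Agent.Lib.MP_979eef_lc.Q.StO
import Pool.Agent.Lib.MP_979eef_lc.Q.StR

/-!
# MP_979eef_lc, protocols, module StB: opening many blocks, fixing the simple functions
`cc`: hardness budget; `κ` = number of bits which may still be lost, `C - R` = number of blocks which may still be fixed by restoring.
`st_mono`: weaken `t` (`fam_mono`), `e` (`2^e ≤ 2^e'`), `c` (`hard_mono`).
`st_open1`: if `i ∈ F` weaken (`cc` is monotone in `κ`); otherwise `st_open` and then `st_restore` with `τ = 2 θ^2` (`4 θ^2 ≤ θh`), `cc n C (κ+1) R / 2 = cc n C κ R`,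
`cc n C κ R / (8 n)^(R'-R) = cc n C κ R'` (`R ≤ R' ≤ C`), `2 C^2 (2 n)^C + 2 ≤ cc n C κ R`.
`st_openAll`: induction on `I`.
`st_funs`: induction on `r` for the popular values: `W.filter (h j w = b)` with at least half of `W`, so `2^r θ`-dense, deficiency `e + r`; then `st_restore` (`2^(r+1) θ ≤ θh`).
The functions stay constant on subsets.
-/

set_option autoImplicit false

namespace MP979

open Finset

/-- the hardness budget -/
noncomputable def cc (n C κ R : ℕ) : ℝ :=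
  2 ^ κ * (8 * (n : ℝ)) ^ (C - R) * (2 * (C : ℝ) ^ 2 * (2 * n) ^ C + 4)

variable {n : ℕ} {Z : Type} [Fintype Z] [DecidableEq Z] {𝕏 : Type}
  {G : Fin n → Z → Bool} {inp : (Fin n → Z) → 𝕏} {S : Finset ((Fin n → Z) → Bool)} {θ θh tm : ℕ}
  {X Y : Set 𝕏} {F : Finset (Fin n)} {W : Finset (Fin n → Z)} {A B : Set (Fin n → Bool)}
  {t e R κ C : ℕ}

private theorem stb_cc_succ (n C κ R : ℕ) : cc n C (κ + 1) R / 2 = cc n C κ R := by
  unfold cc
  rw [pow_succ]
  ring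

private theorem stb_cc_nonneg (n C κ R : ℕ) : 0 ≤ cc n C κ R := by
  unfold cc
  positivity

private theorem stb_cc_le (n C κ R : ℕ) : cc n C κ R ≤ cc n C (κ + 1) R := by
  have h1 := stb_cc_succ n C κ R
  have h2 := stb_cc_nonneg n C κ R
  linarith

private theorem stb_cc_div {n : ℕ} (hn : 0 < n) {C κ R R' : ℕ} (h1 : R ≤ R') (h2 : R' ≤ C) :
    cc n C κ R / (8 * (n : ℝ)) ^ (R' - R) = cc n C κ R' := by
  unfold cc
  have h3 : (0 : ℝ) < 8 * (n : ℝ) := by
    have : (0 : ℝ) < n := by exact_mod_cast hn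
    linarith
  have h4 : C - R = (C - R') + (R' - R) := by omega
  rw [h4, pow_add]
  have h5 : (8 * (n : ℝ)) ^ (R' - R) ≠ 0 := (pow_pos h3 _).ne'
  field_simp

private theorem stb_cc_large {n : ℕ} (hn : 0 < n) (C κ R : ℕ) :
    2 * (C : ℝ) ^ 2 * (2 * n) ^ C + 2 ≤ cc n C κ R := by
  unfold cc
  have h1 : (1 : ℝ) ≤ 2 ^ κ := one_le_pow₀ (by norm_num)
  have h2 : (1 : ℝ) ≤ (8 * (n : ℝ)) ^ (C - R) := by
    apply one_le_pow₀
    have : (1 : ℝ) ≤ n := by exact_mod_cast hn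
    linarith
  have h3 : (1 : ℝ) ≤ 2 ^ κ * (8 * (n : ℝ)) ^ (C - R) := by
    calc (1 : ℝ) = 1 * 1 := by norm_num
      _ ≤ 2 ^ κ * (8 * (n : ℝ)) ^ (C - R) := mul_le_mul h1 h2 (by norm_num) (by linarith)
  have h4 : (0 : ℝ) ≤ 2 * (C : ℝ) ^ 2 * (2 * n) ^ C := by positivity
  calc 2 * (C : ℝ) ^ 2 * (2 * n) ^ C + 2 ≤ 1 * (2 * (C : ℝ) ^ 2 * (2 * n) ^ C + 4) := by linarith
    _ ≤ 2 ^ κ * (8 * (n : ℝ)) ^ (C - R) * (2 * (C : ℝ) ^ 2 * (2 * n) ^ C + 4) :=
      mul_le_mul_of_nonneg_right h3 (by linarith)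

theorem st_mono {τ t' e' : ℕ} {c c' : ℝ} (h : St G inp S θ X Y F W A B τ t e R c) (ht : t ≤ t')
    (he : e ≤ e') (hc : c' ≤ c) : St G inp S θ X Y F W A B τ t' e' R c' where
  ne := h.ne
  con := h.con
  fixA := h.fixA
  fixB := h.fixB
  inA := h.inA
  inB := h.inB
  fam := fam_mono S θ ht h.fam
  dens := h.dens
  defi := h.defi.trans (Nat.mul_le_mul_right _ (Nat.pow_le_pow_right (by norm_num) he))
  hard := hard_mono h.hard (by linarith)

theorem st_open1 (hn : 0 < n) (hθ : 2 ≤ θ) (hG : ∀ t ≤ tm, Hits G θh (Fam S θ t)) (ht : t + 2 ≤ tm)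
    (hθh : 4 * θ ^ 2 ≤ θh) (hC : 1 ≤ C) (he : 2 ^ (e + 2) < θ ^ (C + 1)) (hR : R ≤ C)
    (h : St G inp S θ X Y F W A B θ t e R (cc n C (κ + 1) R)) (i : Fin n) :
    ∃ F' W' A' B' R', F ⊆ F' ∧ i ∈ F' ∧ W' ⊆ W ∧ R' ≤ C ∧
      St G inp S θ X Y F' W' A' B' θ (t + 2) (e + 2) R' (cc n C κ R') := by
  by_cases hi : i ∈ F
  · exact ⟨F, W, A, B, R, Subset.refl _, hi, Subset.refl _, hR,
      st_mono h (by omega) (by omega) (stb_cc_le n C κ R)⟩
  · have h2 : 2 * θ ≤ θh := by nlinarith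
    obtain ⟨W1, hW1, A1, B1, h1⟩ := st_open hG (by omega) (by omega) h2 h i hi
    rw [stb_cc_succ] at h1
    obtain ⟨F', W', A', B', R', hF, hW, hR1, hR2, h3⟩ := st_restore hn hθ hG (by omega)
      (by nlinarith) (by nlinarith) h1 C hC he (stb_cc_large hn C κ R)
    rw [stb_cc_div hn hR1 hR2] at h3
    exact ⟨F', W', A', B', R', (subset_insert _ _).trans hF, hF (mem_insert_self _ _), hW.trans hW1,
      hR2, h3⟩

theorem st_openAll (hn : 0 < n) (hθ : 2 ≤ θ) (hG : ∀ t ≤ tm, Hits G θh (Fam S θ t))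
    (I : Finset (Fin n)) (ht : t + 2 * I.card ≤ tm) (hθh : 4 * θ ^ 2 ≤ θh) (hC : 1 ≤ C)
    (he : 2 ^ (e + 2 * I.card) < θ ^ (C + 1)) (hR : R ≤ C)
    (h : St G inp S θ X Y F W A B θ t e R (cc n C (κ + I.card) R)) :
    ∃ F' W' A' B' R', F ⊆ F' ∧ I ⊆ F' ∧ W' ⊆ W ∧ R' ≤ C ∧
      St G inp S θ X Y F' W' A' B' θ (t + 2 * I.card) (e + 2 * I.card) R' (cc n C κ R') := by
  induction I using Finset.induction_on generalizing F W A B t e R with
  | empty =>
    exact ⟨F, W, A, B, R, Subset.refl _, empty_subset _, Subset.refl _, hR,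
      st_mono h (by omega) (by omega) (le_of_eq (by rw [card_empty, add_zero]))⟩
  | insert i I hi ih =>
    rw [card_insert_of_notMem hi] at ht he h ⊢
    have he1 : 2 ^ (e + 2) < θ ^ (C + 1) :=
      lt_of_le_of_lt (Nat.pow_le_pow_right (by norm_num) (by omega)) he
    obtain ⟨F1, W1, A1, B1, R1, hF1, hi1, hW1, hR1, h1⟩ := st_open1 (κ := κ + I.card) hn hθ hG
      (by omega) hθh hC he1 hR h i
    have e1 : t + 2 * (I.card + 1) = t + 2 + 2 * I.card := by ring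
    have e2 : e + 2 * (I.card + 1) = e + 2 + 2 * I.card := by ring
    rw [e1] at ht ⊢
    rw [e2] at he ⊢
    obtain ⟨F2, W2, A2, B2, R2, hF2, hI2, hW2, hR2, h2⟩ := ih ht he hR1 h1
    exact ⟨F2, W2, A2, B2, R2, hF1.trans hF2, insert_subset (hF2 hi1) hI2, hW2.trans hW1, hR2, h2⟩

private theorem stb_half (V : Finset (Fin n → Z)) (f : (Fin n → Z) → Bool) :
    ∃ b : Bool, V.card ≤ 2 * (V.filter (fun w => f w = b)).card := by
  by_contra hcon
  push Not at hcon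
  have h1 := hcon true
  have h2 := hcon false
  have h3 : V = V.filter (fun w => f w = true) ∪ V.filter (fun w => f w = false) := by
    ext w
    rw [mem_union, mem_filter, mem_filter]
    cases f w <;> simp
  have h4 : V.card ≤ (V.filter (fun w => f w = true)).card + (V.filter (fun w => f w = false)).card := by
    conv_lhs => rw [h3]
    exact card_union_le _ _
  omega

private theorem stb_pop (hW : W ∈ Fam S θ t) : ∀ (r : ℕ) (f : Fin r → (Fin n → Z) → Bool),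
    (∀ j, f j ∈ S) → ∃ W' ⊆ W, (∀ w ∈ W', ∀ w' ∈ W', ∀ j, f j w = f j w') ∧
      W.card ≤ 2 ^ r * W'.card ∧ W' ∈ Fam S θ (t + r)
  | 0, f, _ => ⟨W, Subset.refl _, fun _ _ _ _ j => Fin.elim0 j, by rw [pow_zero, one_mul], hW⟩
  | r + 1, f, hf => by
    obtain ⟨W1, h1, h2, h3, h4⟩ := stb_pop hW r (fun j => f j.castSucc) (fun j => hf _)
    obtain ⟨b, hb⟩ := stb_half W1 (f (Fin.last r))
    refine ⟨W1.filter (fun w => f (Fin.last r) w = b), (filter_subset _ _).trans h1, ?_, ?_, ?_⟩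
    · intro w hw w' hw' j
      rw [mem_filter] at hw hw'
      induction j using Fin.lastCases with
      | last => rw [hw.2, hw'.2]
      | cast j => exact h2 w hw.1 w' hw'.1 j
    · calc W.card ≤ 2 ^ r * W1.card := h3
        _ ≤ 2 ^ r * (2 * (W1.filter (fun w => f (Fin.last r) w = b)).card) := Nat.mul_le_mul_left _ hb
        _ = 2 ^ (r + 1) * (W1.filter (fun w => f (Fin.last r) w = b)).card := by ring
    · exact fam_fun h4 (hf _) b

theorem st_funs (hn : 0 < n) (hθ : 2 ≤ θ) (hG : ∀ t ≤ tm, Hits G θh (Fam S θ t)) {r : ℕ}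
    (ht : t + r + 1 ≤ tm) (hθh : 2 ^ (r + 1) * θ ≤ θh) (hC : 1 ≤ C)
    (he : 2 ^ (e + r + 1) < θ ^ (C + 1)) (hR : R ≤ C)
    (h : St G inp S θ X Y F W A B θ t e R (cc n C κ R)) (f : Fin r → (Fin n → Z) → Bool)
    (hf : ∀ j, f j ∈ S) :
    ∃ F' W' A' B' R', F ⊆ F' ∧ W' ⊆ W ∧ R' ≤ C ∧ (∀ w ∈ W', ∀ w' ∈ W', ∀ j, f j w = f j w') ∧
      St G inp S θ X Y F' W' A' B' θ (t + r + 1) (e + r + 1) R' (cc n C κ R') := by
  obtain ⟨W1, hW1, hcon, hcard, hfam⟩ := stb_pop h.fam r f hf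
  have hne : W1.Nonempty := by
    rw [nonempty_iff_ne_empty]
    intro h0
    rw [h0, card_empty, mul_zero] at hcard
    have := h.ne.card_pos
    omega
  have hp : 1 ≤ 2 ^ r := Nat.one_le_two_pow
  have h1 : St G inp S θ X Y F W1 A B (2 ^ r * θ) (t + r) (e + r) R (cc n C κ R) :=
    { ne := hne
      con := fun w hw w' hw' => h.con w (hW1 hw) w' (hW1 hw')
      fixA := fun w hw => h.fixA w (hW1 hw)
      fixB := fun w hw => h.fixB w (hW1 hw)
      inA := fun w hw => h.inA w (hW1 hw)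
      inB := fun w hw => h.inB w (hW1 hw)
      fam := hfam
      dens := dense_sub h.dens hW1 hcard hp
      defi := by
        calc θ ^ R * Fintype.card Z ^ (n - F.card) ≤ 2 ^ e * W.card := h.defi
          _ ≤ 2 ^ e * (2 ^ r * W1.card) := Nat.mul_le_mul_left _ hcard
          _ = 2 ^ (e + r) * W1.card := by ring
      hard := h.hard }
  have hτ : 1 ≤ 2 ^ r * θ := by
    calc 1 = 1 * 1 := rfl
      _ ≤ 2 ^ r * θ := Nat.mul_le_mul hp (by omega)
  have hτh : 2 * (2 ^ r * θ) ≤ θh := by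
    calc 2 * (2 ^ r * θ) = 2 ^ (r + 1) * θ := by ring
      _ ≤ θh := hθh
  obtain ⟨F', W', A', B', R', hF, hW, hR1, hR2, h3⟩ := st_restore hn hθ hG ht hτ hτh h1 C hC he
    (stb_cc_large hn C κ R)
  rw [stb_cc_div hn hR1 hR2] at h3
  exact ⟨F', W', A', B', R', hF, hW.trans hW1, hR2,
    fun w hw w' hw' j => hcon w (hW hw) w' (hW hw') j, h3⟩

end MP979
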