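import Pool.Agent.Lib.MP_979eef_lc.Q.StB
import Pool.Agent.Lib.MP_979eef_lc.Q.Kw

/-!
# MP_979eef_lc, protocols, module StC: answering a message; the end
`m` is the message as a function of the input. After the blocks of `I` are fixed and the simple functions are constant, `m (inp w)` is, for `w ∈ W` with `G i (w i) = a i` for all `i`,
determined by `a`: hypothesis `hm`.
`st_alice`: `A1 = {a ∈ A | ∃ w ∈ W, (∀ i, G i (w i) = a i) ∧ m (inp w) = true}`, `A0 = A \ A1`; by `hard_splitA` one of the two is hard with `(cc - 2) / 2 ≥ cc n C κ R - 2`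
(`cc n C (κ+1) R / 2 = cc n C κ R`).
`st_bob`: the same for `B`, `hard_splitB`.
`st_end`: suppose `P.depth < D`. `A`, `B` are nonempty (`hard_nonempty`, `2 < cc n C κ R - 2`): `a ∈ A`, `b ∈ B`. `W` is hit in the patterns `a`, `b`: `X`, `Y` are nonempty
(on `F` use `fixA`, `fixB`). `exists_fml`: `φ` with `φ.size ≤ 2^depth ≤ s'` (`Fml.size_le`), `φ = 1` on `X`, `0` on `Y`. One of `W.filter (φ (inp w) = κ)` has at least half of the
elements, is in `Fam (t + 1)`, is `2 θ`-dense, so it is hit in the pattern `b` (if `κ = true`) or `a` (if `κ = false`): contradiction.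
-/

set_option autoImplicit false

namespace MP979

open Finset

variable {n : ℕ} {Z : Type} [Fintype Z] [DecidableEq Z] {𝕏 : Type}
  {G : Fin n → Z → Bool} {S : Finset ((Fin n → Z) → Bool)} {θ θh tm : ℕ}
  {F : Finset (Fin n)} {W : Finset (Fin n → Z)} {A B : Set (Fin n → Bool)}
  {t e R κ C : ℕ}

theorem stc_cc_half (n C κ R : ℕ) : cc n C (κ + 1) R / 2 = cc n C κ R := by
  unfold cc
  rw [pow_succ]
  ring

theorem stc_cc_gt (hn : 0 < n) (hC : 1 ≤ C) : 4 < cc n C κ R := by
  unfold cc
  have hn1 : (1 : ℝ) ≤ n := by exact_mod_cast hn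
  have hC1 : (1 : ℝ) ≤ C := by exact_mod_cast hC
  have h1 : (1 : ℝ) ≤ 2 ^ κ := one_le_pow₀ (by norm_num)
  have h2 : (1 : ℝ) ≤ (8 * (n : ℝ)) ^ (C - R) := one_le_pow₀ (by linarith)
  have h3 : (0 : ℝ) < 2 * (C : ℝ) ^ 2 * (2 * n) ^ C := by positivity
  have h4 : (1 : ℝ) ≤ 2 ^ κ * (8 * (n : ℝ)) ^ (C - R) := by
    calc (1 : ℝ) = 1 * 1 := by ring
      _ ≤ _ := mul_le_mul h1 h2 (by norm_num) (by positivity)
  calc (4 : ℝ) < 1 * (2 * (C : ℝ) ^ 2 * (2 * n) ^ C + 4) := by linarith
    _ ≤ _ := mul_le_mul_of_nonneg_right h4 (by linarith)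

theorem st_alice {inp : (Fin n → Z) → 𝕏} {X Y : Set 𝕏} (m : 𝕏 → Bool)
    (h : St G inp S θ X Y F W A B θ t e R (cc n C (κ + 1) R))
    (hm : ∀ w ∈ W, ∀ w' ∈ W, (∀ i, G i (w i) = G i (w' i)) → m (inp w) = m (inp w')) :
    ∃ (b : Bool) (A' : Set (Fin n → Bool)),
      St G inp S θ {x | x ∈ X ∧ m x = b} Y F W A' B θ t e R (cc n C κ R) := by
  classical
  set P : (Fin n → Bool) → Prop :=
    fun a => ∃ w ∈ W, (∀ i, G i (w i) = a i) ∧ m (inp w) = true with hP
  have hsplit := hard_splitA h.hard (A0 := {a | a ∈ A ∧ ¬ P a}) (A1 := {a | a ∈ A ∧ P a})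
    (fun a ha => by
      by_cases hp : P a
      · exact Or.inr ⟨ha, hp⟩
      · exact Or.inl ⟨ha, hp⟩)
  have hle : cc n C κ R - 2 ≤ (cc n C (κ + 1) R - 2) / 2 := by
    have := stc_cc_half n C κ R
    linarith
  rcases hsplit with h0 | h1
  · refine ⟨false, {a | a ∈ A ∧ ¬ P a}, ?_⟩
    exact
      { ne := h.ne
        con := h.con
        fixA := fun w hw a ha i hi => h.fixA w hw a ha.1 i hi
        fixB := h.fixB
        inA := fun w hw a ha hwa => by
          refine ⟨h.inA w hw a ha.1 hwa, ?_⟩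
          by_contra hne
          exact ha.2 ⟨w, hw, hwa, by simpa using hne⟩
        inB := h.inB
        fam := h.fam
        dens := h.dens
        defi := h.defi
        hard := hard_mono h0 hle }
  · refine ⟨true, {a | a ∈ A ∧ P a}, ?_⟩
    exact
      { ne := h.ne
        con := h.con
        fixA := fun w hw a ha i hi => h.fixA w hw a ha.1 i hi
        fixB := h.fixB
        inA := fun w hw a ha hwa => by
          refine ⟨h.inA w hw a ha.1 hwa, ?_⟩
          obtain ⟨w', hw', hwa', hmt⟩ := ha.2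
          rw [← hmt]
          exact hm w hw w' hw' (fun i => by rw [hwa i, hwa' i])
        inB := h.inB
        fam := h.fam
        dens := h.dens
        defi := h.defi
        hard := hard_mono h1 hle }

theorem st_bob {inp : (Fin n → Z) → 𝕏} {X Y : Set 𝕏} (m : 𝕏 → Bool)
    (h : St G inp S θ X Y F W A B θ t e R (cc n C (κ + 1) R))
    (hm : ∀ w ∈ W, ∀ w' ∈ W, (∀ i, G i (w i) = G i (w' i)) → m (inp w) = m (inp w')) :
    ∃ (b : Bool) (B' : Set (Fin n → Bool)),
      St G inp S θ X {y | y ∈ Y ∧ m y = b} F W A B' θ t e R (cc n C κ R) := by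
  classical
  set P : (Fin n → Bool) → Prop :=
    fun a => ∃ w ∈ W, (∀ i, G i (w i) = a i) ∧ m (inp w) = true with hP
  have hsplit := hard_splitB h.hard (B0 := {a | a ∈ B ∧ ¬ P a}) (B1 := {a | a ∈ B ∧ P a})
    (fun a ha => by
      by_cases hp : P a
      · exact Or.inr ⟨ha, hp⟩
      · exact Or.inl ⟨ha, hp⟩)
  have hle : cc n C κ R - 2 ≤ (cc n C (κ + 1) R - 2) / 2 := by
    have := stc_cc_half n C κ R
    linarith
  rcases hsplit with h0 | h1
  · refine ⟨false, {a | a ∈ B ∧ ¬ P a}, ?_⟩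
    exact
      { ne := h.ne
        con := h.con
        fixA := h.fixA
        fixB := fun w hw a ha i hi => h.fixB w hw a ha.1 i hi
        inA := h.inA
        inB := fun w hw a ha hwa => by
          refine ⟨h.inB w hw a ha.1 hwa, ?_⟩
          by_contra hne
          exact ha.2 ⟨w, hw, hwa, by simpa using hne⟩
        fam := h.fam
        dens := h.dens
        defi := h.defi
        hard := hard_mono h0 hle }
  · refine ⟨true, {a | a ∈ B ∧ P a}, ?_⟩
    exact
      { ne := h.ne
        con := h.con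
        fixA := h.fixA
        fixB := fun w hw a ha i hi => h.fixB w hw a ha.1 i hi
        inA := h.inA
        inB := fun w hw a ha hwa => by
          refine ⟨h.inB w hw a ha.1 hwa, ?_⟩
          obtain ⟨w', hw', hwa', hmt⟩ := ha.2
          rw [← hmt]
          exact hm w hw w' hw' (fun i => by rw [hwa i, hwa' i])
        fam := h.fam
        dens := h.dens
        defi := h.defi
        hard := hard_mono h1 hle }

theorem st_end {ι : Type} {inp : (Fin n → Z) → (ι → Bool)} {X Y : Set (ι → Bool)} (hn : 0 < n)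
    (hG : ∀ t ≤ tm, Hits G θh (Fam S θ t)) (ht : t + 1 ≤ tm) (hθh : 2 * θ ≤ θh) (hθ : 1 ≤ θ)
    (hC : 1 ≤ C) {D s' : ℕ} (hD : 2 ^ D ≤ s')
    (hS : ∀ φ : Fml ι, φ.size ≤ s' → (fun w => φ.eval (inp w)) ∈ S)
    (h : St G inp S θ X Y F W A B θ t e R (cc n C κ R)) (P : Prot ι) (hP : P.Correct X Y) :
    D < P.depth := by
  classical
  by_contra hcon
  have hPD : P.depth ≤ D := not_lt.mp hcon
  have hcc : 2 < cc n C κ R - 2 := by
    have := stc_cc_gt (n := n) (C := C) (κ := κ) (R := R) hn hC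
    linarith
  obtain ⟨⟨a, ha⟩, ⟨b, hb⟩⟩ := hard_nonempty hn h.hard hcc
  have hdW : Dense θh W F := dense_mono h.dens (by omega)
  obtain ⟨wa, hwa, hwa'⟩ := hG t (by omega) W h.fam h.ne F hdW a
  have hX : X.Nonempty := ⟨inp wa, h.inA wa hwa a ha (fun i => by
    by_cases hi : i ∈ F
    · exact h.fixA wa hwa a ha i hi
    · exact hwa' i hi)⟩
  obtain ⟨wb, hwb, hwb'⟩ := hG t (by omega) W h.fam h.ne F hdW b
  have hY : Y.Nonempty := ⟨inp wb, h.inB wb hwb b hb (fun i => by
    by_cases hi : i ∈ F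
    · exact h.fixB wb hwb b hb i hi
    · exact hwb' i hi)⟩
  obtain ⟨φ, hφd, hφX, hφY⟩ := exists_fml P hX hY hP
  have hsz : φ.size ≤ s' := by
    calc φ.size ≤ 2 ^ φ.depth := Fml.size_le φ
      _ ≤ 2 ^ D := Nat.pow_le_pow_right (by norm_num) (le_trans hφd hPD)
      _ ≤ s' := hD
  have hfS := hS φ hsz
  have hWpos : 1 ≤ W.card := Finset.card_pos.mpr h.ne
  -- the two halves
  have hsum : (W.filter (fun w => φ.eval (inp w) = true)).card +
      (W.filter (fun w => φ.eval (inp w) = false)).card = W.card := by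
    have h1 := Finset.card_filter_add_card_filter_not (s := W) (fun w => φ.eval (inp w) = true)
    have h2 : W.filter (fun w => ¬ φ.eval (inp w) = true) =
        W.filter (fun w => φ.eval (inp w) = false) := by
      apply Finset.filter_congr
      intro w _
      simp
    rw [h2] at h1
    exact h1
  have key : ∀ κ' : Bool, W.card ≤ 2 * (W.filter (fun w => φ.eval (inp w) = κ')).card →
      ∀ c : Fin n → Bool, ∃ w ∈ W, φ.eval (inp w) = κ' ∧ ∀ i, i ∉ F → G i (w i) = c i := by
    intro κ' hκ c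
    have hsub : W.filter (fun w => φ.eval (inp w) = κ') ⊆ W := Finset.filter_subset _ _
    have hd : Dense θh (W.filter (fun w => φ.eval (inp w) = κ')) F :=
      dense_mono (dense_sub h.dens hsub hκ (by norm_num)) hθh
    have hne : (W.filter (fun w => φ.eval (inp w) = κ')).Nonempty := by
      rw [← Finset.card_pos]
      omega
    obtain ⟨w, hw, hw'⟩ := hG (t + 1) ht _ (fam_fun h.fam hfS κ') hne F hd c
    rw [Finset.mem_filter] at hw
    exact ⟨w, hw.1, hw.2, hw'⟩
  by_cases hcase : W.card ≤ 2 * (W.filter (fun w => φ.eval (inp w) = true)).card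
  · obtain ⟨w, hw, hφw, hwc⟩ := key true hcase b
    have : inp w ∈ Y := h.inB w hw b hb (fun i => by
      by_cases hi : i ∈ F
      · exact h.fixB w hw b hb i hi
      · exact hwc i hi)
    have h0 := hφY _ this
    rw [hφw] at h0
    exact Bool.noConfusion h0
  · obtain ⟨w, hw, hφw, hwc⟩ := key false (by omega) a
    have : inp w ∈ X := h.inA w hw a ha (fun i => by
      by_cases hi : i ∈ F
      · exact h.fixA w hw a ha i hi
      · exact hwc i hi)
    have h0 := hφX _ this
    rw [hφw] at h0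
    exact Bool.noConfusion h0

end MP979
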