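import Pool.Agent.Lib.MP_979eef_lc.Q.Sta

/-!
# MP_979eef_lc, protocols, module StO: opening a block
`st_open` (`i ∉ F`): `hard_open` gives `b` with `HardQ (a_i = b) (b_i = b) ((c - 2 - 2) / 2) = (c / 2 - 2)`. `openE i W` is in `Fam (t + 1)`, has at least half of the elements
(`openE_card`), is `2 τ`-dense (`dense_sub`), so it is hit in the constant pattern `b`: `w ∈ openE i W` with `G i (w i) = b`. New `W' = cell W {i} w`, `F' = insert i F`,
`A' = onJ A {i} (fun _ => b)`, `B'` similarly. Density: `dense_open`. Deficiency: `|W| ≤ 2 q |W'|`, and `n - |F'| = n - |F| - 1`, cancel `q`.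
-/

set_option autoImplicit false

namespace MP979

open Finset

variable {n : ℕ} {Z : Type} [Fintype Z] [DecidableEq Z] {𝕏 : Type}
  {G : Fin n → Z → Bool} {inp : (Fin n → Z) → 𝕏} {S : Finset ((Fin n → Z) → Bool)} {θ θh tm : ℕ}
  {X Y : Set 𝕏} {F : Finset (Fin n)} {W : Finset (Fin n → Z)} {A B : Set (Fin n → Bool)}
  {τ t e R : ℕ} {c : ℝ}

theorem st_open (hG : ∀ t ≤ tm, Hits G θh (Fam S θ t)) (ht : t + 1 ≤ tm) (hτ : 1 ≤ τ)
    (hτh : 2 * τ ≤ θh) (h : St G inp S θ X Y F W A B τ t e R c) (i : Fin n) (hi : i ∉ F) :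
    ∃ W' ⊆ W, ∃ A' B', St G inp S θ X Y (insert i F) W' A' B' (2 * τ ^ 2) (t + 1) (e + 1) R (c / 2) := by
  classical
  obtain ⟨b, hb⟩ := hard_open h.hard i
  have hne : (openE i W).Nonempty := by
    rw [nonempty_iff_ne_empty]
    intro h0
    have h1 := openE_card i W
    rw [h0, card_empty, mul_zero] at h1
    exact absurd (card_pos.2 h.ne) (by omega)
  have hsub : openE i W ⊆ W := filter_subset _ _
  have hdo : Dense (2 * τ) (openE i W) F := dense_sub h.dens hsub (openE_card i W) (by norm_num)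
  obtain ⟨w, hw, hwc⟩ := hG (t + 1) ht (openE i W) (fam_openE h.fam i) hne F (dense_mono hdo hτh) (fun _ => b)
  have hwW : w ∈ W := hsub hw
  have hpop : W.card ≤ 2 * Fintype.card Z * (cell W {i} w).card := (mem_filter.1 hw).2
  have hcs : cell W {i} w ⊆ W := filter_subset _ _
  have hci : ∀ v ∈ cell W {i} w, v i = w i := fun v hv => (mem_filter.1 hv).2 i (mem_singleton_self i)
  have hwi : G i (w i) = b := hwc i hi
  have hwc' : w ∈ cell W {i} w := mem_filter.2 ⟨hwW, fun _ _ => rfl⟩
  refine ⟨cell W {i} w, hcs, onJ A {i} (fun _ => b), onJ B {i} (fun _ => b), ?_⟩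
  refine ⟨⟨w, hwc'⟩, ?_, ?_, ?_, ?_, ?_, fam_fix h.fam i w, dense_open hτ h.dens hi w hpop, ?_, ?_⟩
  · intro v hv v' hv' j hj
    rcases mem_insert.1 hj with rfl | hj
    · rw [hci v hv, hci v' hv']
    · exact h.con v (hcs hv) v' (hcs hv') j hj
  · intro v hv a ha j hj
    rcases mem_insert.1 hj with rfl | hj
    · rw [hci v hv, hwi, ha.2 j (mem_singleton_self j)]
    · exact h.fixA v (hcs hv) a ha.1 j hj
  · intro v hv a ha j hj
    rcases mem_insert.1 hj with rfl | hj
    · rw [hci v hv, hwi, ha.2 j (mem_singleton_self j)]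
    · exact h.fixB v (hcs hv) a ha.1 j hj
  · intro v hv a ha hva
    exact h.inA v (hcs hv) a ha.1 hva
  · intro v hv a ha hva
    exact h.inB v (hcs hv) a ha.1 hva
  · -- deficiency
    have hcard : (insert i F).card = F.card + 1 := card_insert_of_notMem hi
    have hlt : F.card < n := by
      have h1 : (insert i F).card ≤ n := by
        have := card_le_univ (insert i F)
        rwa [Fintype.card_fin] at this
      omega
    have hq : 0 < Fintype.card Z := Fintype.card_pos_iff.2 ⟨w i⟩
    have hd := h.defi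
    have he : n - F.card = (n - (insert i F).card) + 1 := by omega
    rw [he, pow_succ] at hd
    have h2 : 2 ^ e * W.card ≤ 2 ^ (e + 1) * (cell W {i} w).card * Fintype.card Z := by
      calc 2 ^ e * W.card ≤ 2 ^ e * (2 * Fintype.card Z * (cell W {i} w).card) := Nat.mul_le_mul le_rfl hpop
        _ = 2 ^ (e + 1) * (cell W {i} w).card * Fintype.card Z := by ring
    have h3 : θ ^ R * Fintype.card Z ^ (n - (insert i F).card) * Fintype.card Z ≤
        2 ^ (e + 1) * (cell W {i} w).card * Fintype.card Z := by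
      calc _ = θ ^ R * (Fintype.card Z ^ (n - (insert i F).card) * Fintype.card Z) := by ring
        _ ≤ _ := hd.trans h2
    exact Nat.le_of_mul_le_mul_right h3 hq
  · have e1 : (c - 2 - 2) / 2 = c / 2 - 2 := by ring
    rw [e1] at hb
    exact hb

end MP979
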