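import Pool.Agent.Lib.MP_979eef_lc.Q.Fam
import Pool.Agent.Lib.MP_979eef_lc.Q.Res
import Pool.Agent.Lib.MP_979eef_lc.Q.Hd

/-!
# MP_979eef_lc, protocols, module Sta: the state of the adversary (definitions)
-/

set_option autoImplicit false

namespace MP979

open Finset

variable {n : ℕ} {Z : Type} [Fintype Z] [DecidableEq Z] {𝕏 : Type}

/-- State of the adversary at a node: `X`, `Y` the inputs of Alice and Bob which reach it, `F` the
fixed blocks, `W` the common virtual inputs, `A × B` the rectangle of the outer function; `τ`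
density of `W`, `t` index in the family, `e` deficiency, `R` number of blocks fixed by restoring,
`c - 2` hardness. -/
structure St (G : Fin n → Z → Bool) (inp : (Fin n → Z) → 𝕏) (S : Finset ((Fin n → Z) → Bool))
    (θ : ℕ) (X Y : Set 𝕏) (F : Finset (Fin n)) (W : Finset (Fin n → Z))
    (A B : Set (Fin n → Bool)) (τ t e R : ℕ) (c : ℝ) : Prop where
  ne : W.Nonempty
  con : ∀ w ∈ W, ∀ w' ∈ W, ∀ i ∈ F, w i = w' i
  fixA : ∀ w ∈ W, ∀ a ∈ A, ∀ i ∈ F, G i (w i) = a i
  fixB : ∀ w ∈ W, ∀ b ∈ B, ∀ i ∈ F, G i (w i) = b i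
  inA : ∀ w ∈ W, ∀ a ∈ A, (∀ i, G i (w i) = a i) → inp w ∈ X
  inB : ∀ w ∈ W, ∀ b ∈ B, (∀ i, G i (w i) = b i) → inp w ∈ Y
  fam : W ∈ Fam S θ t
  dens : Dense τ W F
  defi : θ ^ R * Fintype.card Z ^ (n - F.card) ≤ 2 ^ e * W.card
  hard : HardQ A B (c - 2)

end MP979
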